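import Pool.Agent.P.MP_dcd5d0_pr.SC.St
import Pool.Agent.P.MP_dcd5d0_pr.Main

/-! A flat edge gives the standing assumptions. -/

set_option autoImplicit false

open MeasureTheory ProbabilityTheory Finset Function Filter Topology

namespace Pool.Agent.P.MP_dcd5d0_pr.SC

namespace Mk

variable {g : (Fin 2 → ℝ) → ℝ}

lemma flat (S : Sub g) {u v : Fin 2 → ℝ} (hu : g u ≤ 1) (hv : g v ≤ 1) {a b : ℝ} (ha : 0 < a)
    (hb : 0 < b) (hab : a + b = 1) (h : 1 ≤ g (a • u + b • v)) : ∀ z ∈ segment ℝ u v, g z = 1 := by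
  rintro z ⟨s, t, hs, ht, hst, rfl⟩
  have h1 := S.comb hs ht u v
  refine le_antisymm (by nlinarith) ?_
  rcases le_total t b with c | c
  · have hs0 : 0 < s := by linarith
    have e : a • u + b • v = (a / s) • (s • u + t • v) + (1 - a / s) • v := by
      ext i
      simp only [Pi.add_apply, Pi.smul_apply, smul_eq_mul]
      have : b = 1 - a := by linarith
      have : t = 1 - s := by linarith
      subst_vars
      field_simp
      ring
    have h2 : a / s ≤ 1 := by rw [div_le_one hs0]; linarith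
    have h3 : 0 < a / s := div_pos ha hs0
    have h4 := S.comb h3.le (sub_nonneg.2 h2) (s • u + t • v) v
    rw [← e] at h4
    nlinarith
  · have ht0 : 0 < t := by linarith
    have e : a • u + b • v = (b / t) • (s • u + t • v) + (1 - b / t) • u := by
      ext i
      simp only [Pi.add_apply, Pi.smul_apply, smul_eq_mul]
      have : a = 1 - b := by linarith
      have : s = 1 - t := by linarith
      subst_vars
      field_simp
      ring
    have h2 : b / t ≤ 1 := by rw [div_le_one ht0]; linarith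
    have h3 : 0 < b / t := div_pos hb ht0
    have h4 := S.comb h3.le (sub_nonneg.2 h2) (s • u + t • v) u
    rw [← e] at h4
    nlinarith

/-- a maximal segment in the boundary -/
lemma maximal (S : Sub g) (hc : Continuous g) {c : ℝ} (hc0 : 0 < c) (hco : ∀ x, c * ‖x‖ ≤ g x)
    (h : ¬ StrictConvex ℝ {x | g x ≤ 1}) : ∃ u v : Fin 2 → ℝ, u ≠ v ∧
      (∀ z ∈ segment ℝ u v, g z = 1) ∧
      ∀ a b : ℝ, a + b = 1 → g (a • u + b • v) ≤ 1 → 0 ≤ a ∧ 0 ≤ b := by
  unfold StrictConvex Set.Pairwise at h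
  push Not at h
  obtain ⟨x, hx, y, hy, hxy, a, b, ha, hb, hab, hw⟩ := h
  have h1 : 1 ≤ g (a • x + b • y) := by
    by_contra hlt
    exact hw (interior_maximal (fun z (hz : g z < 1) => hz.le) (isOpen_lt hc continuous_const)
      (not_le.1 hlt))
  set A := {s : ℝ | g (x + s • (y - x)) ≤ 1} with hA
  have hcl : IsClosed A := isClosed_le (hc.comp (by fun_prop)) continuous_const
  have hn : 0 < ‖y - x‖ := norm_pos_iff.2 (sub_ne_zero.2 hxy.symm)
  have hbd : ∀ s ∈ A, |s| ≤ (1 / c + ‖x‖) / ‖y - x‖ := by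
    intro s hs
    have e1 : c * ‖x + s • (y - x)‖ ≤ 1 := (hco _).trans hs
    have e2 : ‖s • (y - x)‖ ≤ ‖x + s • (y - x)‖ + ‖x‖ := by
      have := norm_sub_le (x + s • (y - x)) x
      rwa [add_sub_cancel_left] at this
    rw [norm_smul, Real.norm_eq_abs] at e2
    rw [le_div_iff₀ hn]
    have : ‖x + s • (y - x)‖ ≤ 1 / c := by rw [le_div_iff₀ hc0]; linarith
    linarith
  have b0 : BddBelow A := ⟨_, fun s hs => (abs_le.1 (hbd s hs)).1⟩
  have b1 : BddAbove A := ⟨_, fun s hs => (abs_le.1 (hbd s hs)).2⟩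
  have m0 : (0 : ℝ) ∈ A := by simpa [hA] using hx
  have m1 : (1 : ℝ) ∈ A := by simpa [hA] using hy
  have k0 := hcl.csInf_mem ⟨0, m0⟩ b0
  have k1 := hcl.csSup_mem ⟨0, m0⟩ b1
  have l0 := csInf_le b0 m0
  have l1 := le_csSup b1 m1
  set s0 := sInf A
  set s1 := sSup A
  have key : ∀ a b : ℝ, a + b = 1 → a • (x + s0 • (y - x)) + b • (x + s1 • (y - x))
      = x + (s0 + b * (s1 - s0)) • (y - x) := by
    intro a b hab
    ext i
    simp only [Pi.add_apply, Pi.smul_apply, smul_eq_mul, Pi.sub_apply]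
    have : a = 1 - b := by linarith
    subst this; ring
  have hd : 0 < s1 - s0 := by linarith
  refine ⟨x + s0 • (y - x), x + s1 • (y - x), fun e => ?_, ?_, fun a' b' h2 h3 => ?_⟩
  · have : (s1 - s0) • (y - x) = 0 := by rw [sub_smul, add_left_cancel e, sub_self]
    rcases smul_eq_zero.1 this with c | c
    · linarith
    · exact hxy (sub_eq_zero.1 c).symm
  · refine flat S k0 k1 (a := 1 - (b - s0) / (s1 - s0)) (b := (b - s0) / (s1 - s0))
      (by rw [sub_pos, div_lt_one hd]; linarith) (div_pos (by linarith) hd) (by ring) ?_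
    rw [key _ _ (by ring), div_mul_cancel₀ _ hd.ne']
    convert h1 using 2
    ext i
    simp only [Pi.add_apply, Pi.smul_apply, smul_eq_mul, Pi.sub_apply]
    have : a = 1 - b := by linarith
    subst this; ring
  · rw [key _ _ h2] at h3
    have e0 := csInf_le b0 h3
    have e1 := le_csSup b1 h3
    constructor
    · by_contra hc
      have : 1 < b' := by linarith [not_le.1 hc]
      nlinarith
    · by_contra hc
      nlinarith [not_le.1 hc]

end Mk

open Mk

theorem mk_ctx (hG : St_G3) (hGe : St_Geo) (hM : St_Mean) {ν : Measure ℝ} [IsProbabilityMeasure ν]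
    {g : (Fin 2 → ℝ) → ℝ} (hν : Integrable (fun y => y ^ 2) ν) (h0 : ∀ a : ℝ, ν {a} = 0)
    (h1 : ν (Set.Iio 0) = 0) (H : IsTC ν g) (hns : ¬ StrictConvex ℝ {x | g x ≤ 1}) :
    Nonempty Ctx := by
  have S : Sub g := ⟨H.add hν, fun a ha x => H.smul hν ha x⟩
  have hc := S.continuous (H.le_norm hν)
  obtain ⟨r1, r2, e1, e2, e3, e4⟩ := exists_levels ν h0 h1
  have hr2 : 0 < r2 := by linarith
  have hco := H.coer hν hr2.le e4
  obtain ⟨u, v, huv, h, hmax⟩ := maximal S hc (c := r2 / 4) (by linarith) hco hns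
  have hd := S.det huv h
  set d := u 0 * v 1 - u 1 * v 0 with hdd
  set α : (Fin 2 → ℝ) →L[ℝ] ℝ :=
    (v 1 / d) • ContinuousLinearMap.proj 0 - (v 0 / d) • ContinuousLinearMap.proj 1 with hα
  set β : (Fin 2 → ℝ) →L[ℝ] ℝ :=
    (u 0 / d) • ContinuousLinearMap.proj 1 - (u 1 / d) • ContinuousLinearMap.proj 0 with hβ
  have eα : ∀ z, α z = v 1 / d * z 0 - v 0 / d * z 1 := fun z => by simp [hα]
  have eβ : ∀ z, β z = u 0 / d * z 1 - u 1 / d * z 0 := fun z => by simp [hβ]
  have hz : ∀ z, z = α z • u + β z • v := by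
    intro z
    ext i
    simp only [Pi.add_apply, Pi.smul_apply, smul_eq_mul, eα, eβ]
    fin_cases i
    · simp only [Fin.zero_eta]; field_simp; rw [hdd]; ring
    · simp only [Fin.mk_one]; field_simp; rw [hdd]; ring
  have αu : α u = 1 := by rw [eα]; field_simp; rw [hdd]; ring
  have βu : β u = 0 := by rw [eβ]; ring
  have αv : α v = 0 := by rw [eα]; ring
  have βv : β v = 1 := by rw [eβ]; field_simp; rw [hdd]
  clear_value α β
  have hcone : ∀ z, 0 ≤ α z → 0 ≤ β z → g z = α z + β z := fun z a b => by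
    conv_lhs => rw [hz z]
    exact S.cone h a b
  have hlow : ∀ z, α z + β z ≤ g z := by
    intro z
    set t := 1 / (2 * (1 + |α z| + |β z|)) with ht
    have p1 := abs_nonneg (α z)
    have p2 := abs_nonneg (β z)
    have t0 : 0 < t := by positivity
    have t1 : t * (1 + |α z| + |β z|) = 1 / 2 := by rw [ht]; field_simp
    have a1 := hcone ((1 / 2 : ℝ) • u + (1 / 2 : ℝ) • v + t • z)
      (by simp only [map_add, map_smul, αu, αv, smul_eq_mul]; nlinarith [neg_abs_le (α z)])
      (by simp only [map_add, map_smul, βu, βv, smul_eq_mul]; nlinarith [neg_abs_le (β z)])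
    simp only [map_add, map_smul, αu, αv, βu, βv, smul_eq_mul] at a1
    have a2 := S.add ((1 / 2 : ℝ) • u + (1 / 2 : ℝ) • v) (t • z)
    rw [S.smul t t0, S.cone h (by norm_num) (by norm_num), a1] at a2
    nlinarith
  have hnorm : ∀ z, ‖z‖ ≤ (‖u‖ + ‖v‖) * max |α z| |β z| := by
    intro z
    conv_lhs => rw [hz z]
    refine (norm_add_le _ _).trans ?_
    rw [norm_smul, norm_smul, Real.norm_eq_abs, Real.norm_eq_abs]
    have a1 := mul_le_mul_of_nonneg_right (le_max_left |α z| |β z|) (norm_nonneg u)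
    have a2 := mul_le_mul_of_nonneg_right (le_max_right |α z| |β z|) (norm_nonneg v)
    linarith
  have hκ : ∀ θ : ℝ, 0 < θ → ∃ κ : ℝ, 0 < κ ∧ ∀ z,
      α z + β z + κ * (max (-α z) (-β z) - θ * max |α z| |β z|) ≤ g z := by
    intro θ hθ
    set K := {z : Fin 2 → ℝ | max |α z| |β z| = 1 ∧ θ ≤ max (-α z) (-β z)} with hK
    have hKc : IsCompact K := by
      refine Metric.isCompact_of_isClosed_isBounded ?_ ?_
      · have c1 : IsClosed {z : Fin 2 → ℝ | max |α z| |β z| = 1} :=
          isClosed_eq (by fun_prop) continuous_const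
        have c2 : IsClosed {z : Fin 2 → ℝ | θ ≤ max (-α z) (-β z)} :=
          isClosed_le continuous_const (by fun_prop)
        exact c1.inter c2
      · refine (Metric.isBounded_closedBall (x := 0) (r := ‖u‖ + ‖v‖)).subset fun z hz => ?_
        have := hnorm z
        rw [hz.1, mul_one] at this
        simpa using this
    obtain ⟨κ, k0, k1⟩ := hKc.exists_forall_le' (f := fun z => g z - (α z + β z)) (a := 0)
      (Continuous.continuousOn (by fun_prop)) (by
        intro z ⟨z1, z2⟩
        refine lt_of_le_of_ne (sub_nonneg.2 (hlow z)) fun e => ?_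
        have z0 : z ≠ 0 := by
          rintro rfl
          simp at z1
        have g0 : 0 < g z := lt_of_lt_of_le (by have := norm_pos_iff.2 z0; positivity) (hco z)
        have e' : α z + β z = g z := by linarith
        obtain ⟨a, b⟩ := hmax (α z / g z) (β z / g z) (by rw [← add_div, e', div_self g0.ne']) (by
          have : (α z / g z) • u + (β z / g z) • v = (1 / g z) • z := by
            conv_rhs => rw [hz z, smul_add, smul_smul, smul_smul]
            rw [← hz z]
            congr 2 <;> ring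
          rw [this, S.smul _ (by positivity), one_div_mul_cancel g0.ne'])
        have a' : 0 ≤ α z := by
          by_contra hc
          exact absurd a (not_le.2 (div_neg_of_neg_of_pos (not_le.1 hc) g0))
        have b' : 0 ≤ β z := by
          by_contra hc
          exact absurd b (not_le.2 (div_neg_of_neg_of_pos (not_le.1 hc) g0))
        have := max_le (show -α z ≤ 0 by linarith) (show -β z ≤ 0 by linarith)
        linarith)
    refine ⟨κ, k0, fun z => ?_⟩
    set n := max |α z| |β z| with hn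
    have n0 : 0 ≤ n := le_max_of_le_left (abs_nonneg _)
    have n1 : max (-α z) (-β z) ≤ n := max_le_max (neg_le_abs _) (neg_le_abs _)
    have hl := hlow z
    rcases le_or_gt (max (-α z) (-β z)) (θ * n) with c | c
    · nlinarith
    · have n2 : 0 < n := by
        rcases n0.eq_or_lt with e | e
        · rw [← e] at c n1; linarith
        · exact e
      have i0 : 0 < 1 / n := by positivity
      have := k1 ((1 / n) • z) ⟨by
        simp only [map_smul, smul_eq_mul, abs_mul, abs_of_pos i0]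
        rw [← mul_max_of_nonneg _ _ i0.le, ← hn, one_div_mul_cancel n2.ne'], by
        simp only [map_smul, smul_eq_mul, ← mul_neg]
        rw [← mul_max_of_nonneg _ _ i0.le, one_div_mul_eq_div, le_div_iff₀ n2]
        exact c.le⟩
      simp only [map_smul, smul_eq_mul, S.smul _ i0] at this
      have e : κ * n ≤ g z - (α z + β z) := by
        have := mul_le_mul_of_nonneg_right this n0
        rwa [show (1 / n * g z - (1 / n * α z + 1 / n * β z)) * n = g z - (α z + β z) by
          field_simp] at this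
      have := mul_nonneg hθ.le n0
      nlinarith
  have n1 := norm_nonneg α
  have n2 := norm_nonneg β
  have n3 := norm_nonneg u
  have n4 := norm_nonneg v
  set D := 1 + ‖α‖ + ‖β‖ + ‖u‖ + ‖v‖ with hD
  have key : ∀ γ : (Fin 2 → ℝ) →L[ℝ] ℝ, ∀ c, ‖γ‖ ≤ c → ∀ x, |γ x| ≤ c * ‖x‖ := fun γ c h x =>
    (γ.le_opNorm x).trans (mul_le_mul_of_nonneg_right h (norm_nonneg _))
  have kz : ∀ γ : (Fin 2 → ℝ) →L[ℝ] ℝ, ∀ c, ‖γ‖ ≤ c → ∀ z : V, |toZ γ z| ≤ c * ‖z‖ :=
    fun γ c h z => by rw [← norm_cast_V]; exact key γ c h _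
  have close : ∀ γ : (Fin 2 → ℝ) →L[ℝ] ℝ, ∀ c, ‖γ‖ ≤ c → ∀ x, |toZ γ (rd x) - γ x| ≤ c := by
    intro γ c h x
    have : ‖(fun i => (rd x i : ℝ)) - x‖ ≤ 1 := by
      rw [pi_norm_le_iff_of_nonneg zero_le_one]
      intro i
      exact (rd_close x i).trans (by norm_num)
    have e : toZ γ (rd x) - γ x = γ ((fun i => (rd x i : ℝ)) - x) := by rw [map_sub]; rfl
    rw [e]
    exact (key γ c h _).trans (mul_le_of_le_one_right ((norm_nonneg _).trans h) this)
  have hnear : ∀ a b : ℝ, ∃ z, |toZ α z - a| ≤ 4 * D ∧ |toZ β z - b| ≤ 4 * D := by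
    intro a b
    refine ⟨rd (a • u + b • v), ?_, ?_⟩
    · simpa [αu, αv] using close α (4 * D) (by linarith) (a • u + b • v)
    · simpa [βu, βv] using close β (4 * D) (by linarith) (a • u + b • v)
  have low' : ∀ z, toZ α z + toZ β z ≤ hh ν z := fun z => (hlow _).trans (H.le_hh hν z)
  have up' : ∀ᶠ L : ℝ in atTop, ∀ z, 0 ≤ toZ α z → 0 ≤ toZ β z → toZ α z + toZ β z ≤ L →
      hh ν z ≤ toZ α z + toZ β z + L ^ (19 / 25 : ℝ) := by
    filter_upwards [hG ν g r2 hν hr2 e4 H] with L hL z a b c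
    have e := hcone (fun i => (z i : ℝ)) a b
    have := hL z (by rw [e]; exact c)
    rwa [e] at this
  obtain ⟨m, m1, m2, m3, m4, m5, m6⟩ := hM (toZ α) (toZ β) (4 * D) (m1 ν) (hh ν) (by linarith)
    (kz α _ (by linarith)) (kz β _ (by linarith)) hnear (hh_lip hν) low' up'
  refine ⟨⟨ν, inferInstance, hν, r1, r2, e1, e2, e3, e4, toZ α, toZ β,
    ⟨u, v, fun z i => congrFun (hz (fun i => (z i : ℝ))) i⟩, 4 * D, by linarith,
    kz α _ (by linarith), kz β _ (by linarith), fun z => ?_, hnear, fun p q => ?_, low',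
    fun θ hθ => ?_, up', m, m1, m2, m3, m4, m5, m6⟩⟩
  · rw [← norm_cast_V]
    exact (hnorm _).trans (mul_le_mul_of_nonneg_right (by linarith)
      (le_max_of_le_left (abs_nonneg _)))
  · obtain ⟨σ, k, a, b, c⟩ := hGe (toZ α) (toZ β) D (by linarith) (kz α _ (by linarith))
      (kz β _ (by linarith)) p q
    exact ⟨σ, k, a, b.trans (mul_le_mul_of_nonneg_right (by linarith) (norm_nonneg _)), c⟩
  · obtain ⟨κ, k0, k1⟩ := hκ θ hθ
    exact ⟨κ, k0, fun z => (k1 _).trans (H.le_hh hν z)⟩

/-- the standing assumptions are contradictory -/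
theorem no_ctx (hMW : St_MW) (hM : St_Mle) (hP : St_Pol) (hS : St_Stair) (hU : St_Up)
    (hL : St_Low) (C : Ctx) : False := by
  obtain ⟨c, hc, h1⟩ := hMW C
  obtain ⟨T1, t1, u1⟩ := hU C c hc
  obtain ⟨T2, t2, u2⟩ := hU C.swap c hc
  have hD := C.D1
  obtain ⟨l0, hl0⟩ := eventually_atTop.1 (((u1.and u2).and
    ((hL C c T1 hc t1).and (hL C.swap c T2 hc t2))).and (((hS C).and (hS C.swap)).and
      (tendsto_natCast_atTop_atTop.eventually_ge_atTop (40000 * C.D))))
  obtain ⟨l, hl, hE⟩ := hP C.M c hc h1 ((hM C).mono fun _ h => h.2) l0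
  obtain ⟨⟨⟨a1, a2⟩, a3, a4⟩, ⟨a5, a6⟩, a7⟩ := hl0 l hl
  have key : ∀ (C : Ctx) (T0 : ℝ), 0 < T0 → c ≤ C.M l → 40000 * C.D ≤ l →
      C.SE (fun ζ ω => max (Pi (C.win l) ζ ω - T0 * C.M l) 0) ≤ C.M l / 40 →
      C.SE (fun ζ ω => min (Pi (C.win l) ζ ω) (T0 * C.M l)) ≤ C.M l / 40 →
      C.WH l ≤ C.M l / 20 := by
    intro C T0 h0 h1 h2 h3 h4
    have hD := C.D1
    have h5 : 0 ≤ T0 * C.M l := mul_nonneg h0.le (by linarith)
    have ne : (C.win l).NE := Ctx.LR_ne (by linarith) (by linarith)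
    have b1 := (Ctx.Adm_Pi (C := C) ne).comp (G := fun x => max (x - T0 * C.M l) 0) (by fun_prop)
      (T0 * C.M l) (fun x => by
        rw [abs_le]
        constructor
        · linarith [le_max_right (x - T0 * C.M l) 0, abs_nonneg x]
        · exact max_le (by linarith [le_abs_self x]) (by positivity))
    have b2 := (Ctx.Adm_Pi (C := C) ne).comp (G := fun x => min x (T0 * C.M l)) (by fun_prop)
      (T0 * C.M l) (fun x => by
        rw [abs_le]
        constructor
        · exact le_min (by linarith [neg_abs_le x]) (by linarith [abs_nonneg x])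
        · linarith [min_le_right x (T0 * C.M l), abs_nonneg x])
    have := Ctx.SE_mono (Ctx.Adm_Pi ne) (b1.add b2) (Ctx.Far.of_forall fun ζ ω => by
      rcases le_total (Pi (C.win l) ζ ω) (T0 * C.M l) with c | c
      · rw [min_eq_left c]; linarith [le_max_right (Pi (C.win l) ζ ω - T0 * C.M l) 0]
      · rw [min_eq_right c]; linarith [le_max_left (Pi (C.win l) ζ ω - T0 * C.M l) 0])
    rw [Ctx.SE_add b1 b2] at this
    unfold Ctx.WH
    linarith
  have hE' : Env C.swap c l := by simpa [Env] using hE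
  have w1 := key C T1 t1 hE.1 a7 (a1 hE) (a3 hE)
  have w2 := key C.swap T2 t2 hE'.1 a7 (a2 hE') (a4 hE')
  rw [Ctx.swap_M] at w2
  rw [Ctx.swap_swap] at a6
  have : C.M l ≤ 7 * (C.M l / 20) := by
    conv_lhs => unfold Ctx.M
    exact max_le (by linarith) (by linarith)
  linarith [hE.1]

end Pool.Agent.P.MP_dcd5d0_pr.SC
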