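import Pool.Agent.P.MP_dcd5d0_pr.SC.St

/-! The invariant mean over the targets. -/

set_option autoImplicit false

open Finset Filter Topology

namespace Pool.Agent.P.MP_dcd5d0_pr.SC

namespace Mean

/-- the square with corner `c` and side `n` -/
noncomputable def sqr (c : V) (n : ℕ) : Finset V := Fintype.piFinset fun i => Ico (c i) (c i + n)

theorem mem_sqr {c z : V} {n : ℕ} : z ∈ sqr c n ↔ ∀ i, c i ≤ z i ∧ z i < c i + n := by
  simp [sqr]

theorem card_sqr (c : V) (n : ℕ) : (sqr c n).card = n ^ 2 := by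
  simp [sqr]

theorem near {c z : V} {n : ℕ} (h : z ∈ sqr c n) : ‖z - c‖ ≤ n := by
  refine (pi_norm_le_iff_of_nonneg (Nat.cast_nonneg _)).2 fun i => ?_
  have := mem_sqr.1 h i
  have h1 : |z i - c i| ≤ n := abs_le.2 (by omega)
  rw [Pi.sub_apply, Int.norm_eq_abs]
  exact_mod_cast h1

theorem abs_sum {F : V → ℝ} {B : ℝ} (h : ∀ z, |F z| ≤ B) (S : Finset V) :
    |∑ z ∈ S, F z| ≤ S.card * B :=
  (abs_sum_le_sum_abs _ _).trans ((sum_le_card_nsmul _ _ _ fun z _ => h z).trans_eq
    (nsmul_eq_mul _ _))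

theorem one_le {F : V → ℝ} {B : ℝ} (h : ∀ z, |F z| ≤ B) (c p : V) {n r : ℕ}
    (hr : ∀ i, |p i| ≤ r) : |∑ z ∈ sqr (c - fun _ => (r : ℤ)) (n + 2 * r), F z -
      ∑ z ∈ sqr c n, F (z - p)| ≤ (4 * r * n + 4 * r ^ 2) * B := by
  have e : ∑ z ∈ sqr c n, F (z - p) = ∑ z ∈ sqr (c - p) n, F z :=
    sum_nbij' (· - p) (· + p)
      (fun z hz => mem_sqr.2 fun i => by
        have := mem_sqr.1 hz i
        simp only [Pi.sub_apply]
        omega)
      (fun z hz => mem_sqr.2 fun i => by
        have := mem_sqr.1 hz i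
        simp only [Pi.sub_apply, Pi.add_apply] at *
        omega) (by simp) (by simp) (by simp)
  have hs : sqr (c - p) n ⊆ sqr (c - fun _ => (r : ℤ)) (n + 2 * r) := fun z hz =>
    mem_sqr.2 fun i => by
      have := mem_sqr.1 hz i
      have := abs_le.1 (hr i)
      simp only [Pi.sub_apply] at *
      omega
  rw [e, ← sum_sdiff_eq_sub hs]
  refine (abs_sum h _).trans_eq ?_
  rw [cast_card_sdiff hs, card_sqr, card_sqr]
  push_cast
  ring

theorem shift_tend {G : ℕ → V → ℝ} {B : ℕ → ℝ} (h : ∀ n z, |G n z| ≤ B n)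
    (hB : Tendsto (fun n : ℕ => B n / n) atTop (𝓝 0)) (c : ℕ → V) (p q : V) :
    Tendsto (fun n : ℕ => (∑ z ∈ sqr (c n) n, (G n (z - p) - G n (z - q))) / (n : ℝ) ^ 2) atTop
      (𝓝 0) := by
  obtain ⟨r, hr⟩ : ∃ r : ℕ, ∀ i, |p i| ≤ r ∧ |q i| ≤ r :=
    ⟨(p 0).natAbs + (p 1).natAbs + (q 0).natAbs + (q 1).natAbs, fun i => by
      fin_cases i <;> simp only [abs_le, Fin.zero_eta, Fin.mk_one] <;> omega⟩
  have h0 := hB.const_mul (16 * r : ℝ)
  rw [mul_zero] at h0
  refine squeeze_zero_norm' ?_ h0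
  filter_upwards [eventually_ge_atTop r, eventually_gt_atTop 0] with n h1 h2
  have h3 : (r : ℝ) ≤ n := by exact_mod_cast h1
  have h4 : (0 : ℝ) < n := by exact_mod_cast h2
  have a1 := abs_le.1 (one_le (h n) (c n) p (n := n) fun i => (hr i).1)
  have a2 := abs_le.1 (one_le (h n) (c n) q (n := n) fun i => (hr i).2)
  have a3 : (4 * r * n + 4 * r ^ 2) * B n ≤ 8 * r * n * B n :=
    mul_le_mul_of_nonneg_right (by nlinarith [Nat.cast_nonneg (α := ℝ) r])
      ((abs_nonneg _).trans (h n 0))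
  rw [Real.norm_eq_abs, abs_div, abs_of_pos (pow_pos h4 2), div_le_iff₀ (pow_pos h4 2),
    sum_sub_distrib, show 16 * r * (B n / n) * (n : ℝ) ^ 2 = 2 * (8 * r * n * B n) by
      field_simp; ring, abs_le]
  constructor <;> linarith [a1.1, a1.2, a2.1, a2.2]

theorem tend {f : ℕ → ℝ} {B : ℝ} (h : ∀ n, |f n| ≤ B) :
    Tendsto f (hyperfilter ℕ) (𝓝 (limUnder (hyperfilter ℕ) f)) := by
  obtain ⟨x, -, hx⟩ := (isCompact_Icc (a := -B) (b := B)).ultrafilter_le_nhds
    ((hyperfilter ℕ).map f) (le_principal_iff.2 (mem_map.2 (univ_mem' fun n => abs_le.1 (h n))))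
  exact tendsto_nhds_limUnder ⟨x, hx⟩

end Mean

open Mean

theorem mean : St_Mean := by
  intro X Y D K h hD hX hY hs _ hlo hup
  choose c hc using fun n : ℕ => hs (4 * D * n) (4 * D * n)
  let av : (V → ℝ) → ℕ → ℝ := fun F n => (∑ z ∈ sqr (c n) n, F z) / (n : ℝ) ^ 2
  have hU : (hyperfilter ℕ : Filter ℕ) ≤ atTop := Nat.hyperfilter_le_atTop
  have ht : ∀ F, Bd F → Tendsto (av F) (hyperfilter ℕ) (𝓝 (limUnder (hyperfilter ℕ) (av F))) := by
    rintro F ⟨B, hB⟩
    refine tend (B := B) fun n => ?_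
    rw [abs_div, abs_of_nonneg (sq_nonneg (n : ℝ))]
    refine div_le_of_le_mul₀ (sq_nonneg _) ((abs_nonneg _).trans (hB 0)) ((abs_sum hB _).trans_eq ?_)
    rw [card_sqr, Nat.cast_pow, mul_comm]
  have hco : ∀ a : ℝ, ∀ᶠ n : ℕ in atTop, av (fun _ => a) n = a := fun a => by
    filter_upwards [eventually_gt_atTop 0] with n hn
    have : (n : ℝ) ≠ 0 := by exact_mod_cast hn.ne'
    simp only [av, sum_const, card_sqr, nsmul_eq_mul, Nat.cast_pow]
    field_simp
  have hreg : ∀ n : ℕ, 1 ≤ n → ∀ z : V, ‖z - c n‖ ≤ 2 * n →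
      (D * n ≤ X z ∧ X z ≤ 7 * (D * n)) ∧ D * n ≤ Y z ∧ Y z ≤ 7 * (D * n) := by
    intro n hn z hz
    have h1 : D ≤ D * n := le_mul_of_one_le_right (by linarith) (by exact_mod_cast hn)
    have h2 : D * ‖z - c n‖ ≤ D * (2 * n) := by gcongr
    have h3 := abs_le.1 ((hX _).trans h2)
    have h4 := abs_le.1 ((hY _).trans h2)
    have h5 := abs_le.1 (hc n).1
    have h6 := abs_le.1 (hc n).2
    rw [map_sub] at h3 h4
    refine ⟨⟨?_, ?_⟩, ?_, ?_⟩ <;> linarith [h3.1, h3.2, h4.1, h4.2, h5.1, h5.2, h6.1, h6.2]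
  have hDn : Tendsto (fun n : ℕ => D * n) atTop atTop :=
    tendsto_natCast_atTop_atTop.const_mul_atTop (by linarith)
  refine ⟨fun F => limUnder (hyperfilter ℕ) (av F), fun F G hF hG => ?_, fun a F hF => ?_,
    fun a => ?_, fun F G b hF hG hFG => ?_, fun F z hF => ?_, fun p q => ?_⟩
  · refine Tendsto.limUnder_eq (((ht F hF).add (ht G hG)).congr fun n => ?_)
    simp only [av, sum_add_distrib, add_div]
  · refine Tendsto.limUnder_eq (((ht F hF).const_mul a).congr fun n => ?_)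
    simp only [av, ← mul_sum, mul_div_assoc]
  · exact Tendsto.limUnder_eq (tendsto_const_nhds.congr' (hU ((hco a).mono fun _ h => h.symm)))
  · refine le_of_tendsto_of_tendsto (ht F hF) (ht G hG) (hU ?_)
    filter_upwards [eventually_ge_atTop 1, hDn.eventually_ge_atTop b] with n h1 h2
    refine div_le_div_of_nonneg_right (sum_le_sum fun z hz => ?_) (sq_nonneg _)
    have := hreg n h1 z ((near hz).trans (by linarith [Nat.cast_nonneg (α := ℝ) n]))
    exact hFG z (h2.trans this.1.1) (h2.trans this.2.1)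
  · obtain ⟨B, hB⟩ := id hF
    have := ((shift_tend (G := fun _ => F) (fun _ => hB) (tendsto_const_div_atTop_nhds_zero_nat B)
      c z 0).mono_left hU).add (ht F hF)
    rw [zero_add] at this
    refine Tendsto.limUnder_eq (this.congr fun n => ?_)
    simp only [av, sub_zero, sum_sub_distrib]
    ring
  · let B : ℕ → ℝ := fun n => (14 * (D * n)) ^ (19 / 25 : ℝ)
    have hB0 : ∀ n, 0 ≤ B n := fun n => Real.rpow_nonneg (by positivity) _
    have hB : Tendsto (fun n : ℕ => B n / n) atTop (𝓝 0) := by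
      have := ((tendsto_rpow_neg_atTop (y := 6 / 25) (by norm_num)).comp
        tendsto_natCast_atTop_atTop).const_mul ((14 * D) ^ (19 / 25 : ℝ))
      rw [mul_zero] at this
      refine this.congr' ?_
      filter_upwards [eventually_gt_atTop 0] with n hn
      have h0 : (0 : ℝ) < n := by exact_mod_cast hn
      simp only [B, Function.comp]
      rw [← mul_assoc, Real.mul_rpow (by positivity) h0.le, mul_div_assoc,
        ← Real.rpow_sub_one h0.ne']
      norm_num
    have := (shift_tend (G := fun n z => min (h z - (X z + Y z)) (B n)) (fun n z => by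
      rw [abs_of_nonneg (le_min (sub_nonneg.2 (hlo z)) (hB0 n))]
      exact min_le_right _ _) hB c p q).add (tendsto_const_nhds (x := X (q - p) + Y (q - p)))
    rw [zero_add] at this
    refine Tendsto.limUnder_eq ((this.congr' ?_).mono_left hU)
    filter_upwards [eventually_ge_atTop 1, hco (X (q - p) + Y (q - p)),
      (hDn.const_mul_atTop (by norm_num : (0 : ℝ) < 14)).eventually hup,
      tendsto_natCast_atTop_atTop.eventually_ge_atTop ‖p‖,
      tendsto_natCast_atTop_atTop.eventually_ge_atTop ‖q‖] with n h1 h2 h3 h4 h5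
    have h6 : ∀ z ∈ sqr (c n) n, ∀ u : V, ‖u‖ ≤ n →
        min (h (z - u) - (X (z - u) + Y (z - u))) (B n) = h (z - u) - (X (z - u) + Y (z - u)) := by
      intro z hz u hu
      have a1 := hreg n h1 (z - u) (by
        rw [sub_right_comm]
        linarith [norm_sub_le (z - c n) u, near hz])
      have a2 : 0 ≤ D * n := by positivity
      have := h3 (z - u) (by linarith [a1.1.1]) (by linarith [a1.2.1])
        (by linarith [a1.1.2, a1.2.2])
      exact min_eq_left (by linarith)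
    rw [← h2]
    simp only [av]
    rw [← add_div, ← sum_add_distrib]
    refine congrArg (· / _) (sum_congr rfl fun z hz => ?_)
    rw [h6 z hz p h4, h6 z hz q h5]
    simp only [map_sub]
    ring

end Pool.Agent.P.MP_dcd5d0_pr.SC
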