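import Pool.Agent.P.MP_dcd5d0_pr.SC.St

/-! Deterministic gluing of a chain of crossings. -/

set_option autoImplicit false

open Finset

namespace Pool.Agent.P.MP_dcd5d0_pr.SC

open Ctx

namespace Chain

lemma yy_mono {yy hh' : ℕ → ℝ} {D : ℝ} (hD : 1 ≤ D) (h1 : ∀ j, 4 * D ≤ hh' j)
    (h2 : ∀ j, yy (j + 1) = yy j + hh' j + D + 2) (j : ℕ) : yy 0 ≤ yy j := by
  induction j with
  | zero => exact le_rfl
  | succ j ih => rw [h2]; linarith [h1 j]

lemma inv (C : Ctx) (ζ : V) (ω : Om) (x0 N d : ℝ) (yy hh' : ℕ → ℝ) (hd : 0 < d)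
    (hN : d + 2 + 4 * C.D ≤ N) (hN2 : N ≤ 2 * d) (h1 : ∀ j, 4 * C.D ≤ hh' j)
    (h2 : ∀ j, yy (j + 1) = yy j + hh' j + C.D + 2) (m : ℕ) : ∀ ε : ℝ, 0 < ε →
    ∃ (p z q : V) (s s' : ℝ), (x0 - C.D ≤ C.X p ∧ C.X p ≤ x0 ∧ yy 0 ≤ C.Y p ∧ C.Y p ≤ yy 1) ∧
      (∀ (A : Set V) (q' : V) (y' : ℝ),
        (C.LR x0 (x0 + m * d + N) (yy 0 - 1 - C.D) (yy (m + 1))).A ⊆ A →
        PW ζ ω A z q' y' → PW ζ ω A p q' (s + y')) ∧
      PW ζ ω (C.LR (x0 + m * d) (x0 + m * d + N) (yy m) (yy m + hh' m)).A z q s' ∧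
      (C.X z ≤ x0 + (m + 1) * d ∧ yy m ≤ C.Y z ∧ C.Y z ≤ yy m + hh' m) ∧
      (x0 + m * d + N ≤ C.X q ∧ C.X q ≤ x0 + m * d + N + C.D ∧ yy m ≤ C.Y q ∧
        C.Y q ≤ yy m + hh' m) ∧
      s + s' ≤ ∑ j ∈ range (m + 1),
          Pi (C.LR (x0 + j * d) (x0 + j * d + N) (yy j) (yy j + hh' j)) ζ ω +
        ∑ j ∈ range m, Pi (C.swap.LR (yy j - 1) (yy (j + 1) + hh' (j + 1) + 1)
          (x0 + (j + 1) * d + 1) (x0 + j * d + N - 1)) ζ ω + ε := by
  have hD := C.D1
  induction m with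
  | zero =>
    intro ε hε
    obtain ⟨p, q, y, ⟨⟨a1, a2, a3, a4⟩, b⟩, w, hy⟩ := exists_lt_Pi (ζ := ζ) (ω := ω)
      (LR_ne (C := C) (x0 := x0 + (0 : ℕ) * d) (x1 := x0 + (0 : ℕ) * d + N) (y0 := yy 0)
        (y1 := yy 0 + hh' 0) (by linarith) (by linarith [h1 0])) (lt_add_of_pos_right _ hε)
    have e := h2 0
    simp only [Nat.cast_zero, zero_mul, add_zero, zero_add] at a1 a2 e
    refine ⟨p, p, q, 0, y, ⟨a1, a2, a3, by linarith⟩, fun A q' y' _ h => by rwa [zero_add], w,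
      ⟨by simp only [Nat.cast_zero, zero_add]; linarith, a3, a4⟩, b, ?_⟩
    simp only [zero_add, range_one, sum_singleton, range_zero, sum_empty, add_zero]
    exact hy.le
  | succ m ih =>
    intro ε hε
    obtain ⟨p, z, q, s, s', hp, hpre, hsuf, ⟨z1, z2, z3⟩, ⟨q1, q2, q3, q4⟩, hs⟩ :=
      ih (ε / 3) (by linarith)
    have hm : (0 : ℝ) ≤ m := Nat.cast_nonneg m
    have hmd := mul_nonneg hm hd.le
    have e1 := h2 m
    have e2 := h2 (m + 1)
    have g1 := h1 m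
    have g2 := h1 (m + 1)
    have g0 := yy_mono hD h1 h2 m
    have hx1 : yy m - 1 ≤ yy (m + 1) + hh' (m + 1) + 1 := by linarith
    obtain ⟨a, b, w, hab, wv, hw⟩ := exists_lt_Pi (ζ := ζ) (ω := ω)
      (LR_ne (C := C.swap) (x0 := yy m - 1) (x1 := yy (m + 1) + hh' (m + 1) + 1)
        (y0 := x0 + (m + 1) * d + 1) (y1 := x0 + m * d + N - 1) hx1
        (by rw [swap_D]; linarith)) (lt_add_of_pos_right _ (show 0 < ε / 3 by linarith))
    have hx2 : x0 + ((m + 1 : ℕ) : ℝ) * d ≤ x0 + ((m + 1 : ℕ) : ℝ) * d + N := by linarith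
    obtain ⟨p', q', y, hpq, wh, hy⟩ := exists_lt_Pi (ζ := ζ) (ω := ω)
      (LR_ne (C := C) (y0 := yy (m + 1)) (y1 := yy (m + 1) + hh' (m + 1)) hx2 (by linarith))
      (lt_add_of_pos_right _ (show 0 < ε / 3 by linarith))
    have allv := fun u hu => LR_all (C := C.swap) (z := u) hx1 hab hu
    have allh := fun u hu => LR_all (C := C) (z := u) hx2 hpq hu
    simp only [swap_X, swap_Y, swap_D] at allv
    obtain ⟨⟨a1, a2, a3, a4⟩, b1, b2, b3, b4⟩ := hab
    simp only [swap_X, swap_Y, swap_D] at a1 a2 a3 a4 b1 b2 b3 b4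
    obtain ⟨⟨p1, p2, p3, p4⟩, r1, r2, r3, r4⟩ := hpq
    push_cast at p1 p2 r1 r2
    obtain ⟨c, w1, w2, v1, v2, hw12, c1, c2, c3⟩ := wv.first_ge C.Y C.upY
      (a := yy m + hh' m + 1) (by linarith) (by linarith)
    have c4 := allv c c3
    obtain ⟨u, s1, s1', s2, s2', u1, u2, k1, k2, k3, k4, k5, k6⟩ := PW.cross C.X C.Y C.uv hsuf v1
      (fun t ht => by
        have := allv t (by
          rcases ht with h | h | h
          · exact Or.inl h
          · rw [h]; exact c3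
          · exact Or.inr (Or.inr h.1))
        constructor <;> linarith [this.2.2.1, this.2.2.2])
      (fun t ht => by
        rcases ht with rfl | rfl | ⟨_, _, t3, t4⟩ <;> constructor <;> linarith)
    obtain ⟨u', t1, t1', t2, t2', u1', u2', l1, l2, l3, l4, l5, l6⟩ := PW.cross C.X C.Y C.uv wh v2
      (fun t ht => by
        have := allv t (by
          rcases ht with h | h | h
          · rw [h]; exact c3
          · exact Or.inr (Or.inl h)
          · exact Or.inr (Or.inr h))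
        constructor <;> linarith [this.2.2.1, this.2.2.2])
      (fun t ht => by
        have := allh t ht
        constructor <;> linarith [this.2.2.1, this.2.2.2])
    have u3 := allv u' (Or.inr (Or.inr u2'))
    refine ⟨p, u', q', s + (s1 + (s2' + t2)), t1', hp, fun A q2 y2 hA h => ?_, l2,
      ⟨by push_cast; linarith [u3.2.2.2], u1'.2.2.1, u1'.2.2.2⟩,
      ⟨by push_cast; exact r1, by push_cast; exact r2, r3, r4⟩, ?_⟩
    · have S1 : (C.LR (x0 + m * d) (x0 + m * d + N) (yy m) (yy m + hh' m)).A ⊆ A := by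
        rintro t ⟨t1, t2, t3, t4⟩
        refine hA ⟨by linarith, by push_cast; linarith, by linarith, by linarith⟩
      have S2 : (C.swap.LR (yy m - 1) (yy (m + 1) + hh' (m + 1) + 1) (x0 + (m + 1) * d + 1)
          (x0 + m * d + N - 1)).A ⊆ A := by
        rintro t ⟨t1, t2, t3, t4⟩
        simp only [swap_X, swap_Y] at t1 t2 t3 t4
        refine hA ⟨by linarith, by push_cast; linarith, by linarith, by linarith⟩
      have S3 : c ∈ A := hA ⟨by linarith [c4.2.2.1], by push_cast; linarith [c4.2.2.2],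
        by linarith, by linarith⟩
      have S0 : (C.LR x0 (x0 + m * d + N) (yy 0 - 1 - C.D) (yy (m + 1))).A ⊆ A := by
        rintro t ⟨t1, t2, t3, t4⟩
        refine hA ⟨t1, by push_cast; linarith, t3, by linarith⟩
      have := hpre A q2 _ S0 ((k1.mono S1).trans (S1 u1) ((k5.mono fun t ht => S2 ht.1).trans S3
        ((l4.mono S2).trans (S2 u2') h)))
      convert this using 1; ring
    · rw [sum_range_succ _ (m + 1), sum_range_succ (fun j => Pi (C.swap.LR (yy j - 1)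
        (yy (j + 1) + hh' (j + 1) + 1) (x0 + (j + 1) * d + 1) (x0 + j * d + N - 1)) ζ ω) m]
      linarith [k2.nonneg, k4.nonneg, l1.nonneg, l5.nonneg]

end Chain

theorem chain : St_Chain := by
  intro C ζ ω x0 N d yy hh' m hd hN hN2 h1 h2
  refine le_of_forall_pos_le_add fun ε hε => ?_
  obtain ⟨p, z, q, s, s', ⟨p1, p2, p3, p4⟩, hpre, hsuf, _, ⟨q1, q2, q3, q4⟩, hs⟩ :=
    Chain.inv C ζ ω x0 N d yy hh' hd hN hN2 h1 h2 m ε hε
  have hD := C.D1
  have g0 := Chain.yy_mono hD h1 h2 m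
  have g1 : yy 1 ≤ yy (m + 1) := Chain.yy_mono (yy := fun j => yy (j + 1))
    (hh' := fun j => hh' (j + 1)) hD (fun j => h1 _) (fun j => h2 _) m
  have e := h2 m
  have hmd := mul_nonneg (Nat.cast_nonneg (α := ℝ) m) hd.le
  refine le_trans (Pi_le (p := p) (q := q) ⟨⟨p1, p2, by linarith, by linarith⟩,
    q1, q2, by linarith, by linarith⟩ (hpre _ q s' subset_rfl (hsuf.mono ?_))) hs
  rintro t ⟨t1, t2, t3, t4⟩
  exact ⟨by linarith, t2, by linarith, by linarith⟩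

end Pool.Agent.P.MP_dcd5d0_pr.SC
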