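import Pool.Agent.P.MP_dcd5d0_pr.SC.Ctx

/-! Rectangle crossings, lines, nets. -/

set_option autoImplicit false

open MeasureTheory ProbabilityTheory Finset Function Filter

namespace Pool.Agent.P.MP_dcd5d0_pr.SC

namespace Ctx

variable (C : Ctx)

/-- left-right crossings of a rectangle; bottom-top crossings are `C.swap.LR y0 y1 x0 x1` -/
def LR (x0 x1 y0 y1 : ℝ) : Cl :=
  ⟨{z | x0 < C.X z ∧ C.X z < x1 ∧ y0 ≤ C.Y z ∧ C.Y z ≤ y1},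
    fun p q => (x0 - C.D ≤ C.X p ∧ C.X p ≤ x0 ∧ y0 ≤ C.Y p ∧ C.Y p ≤ y1) ∧
      (x1 ≤ C.X q ∧ C.X q ≤ x1 + C.D ∧ y0 ≤ C.Y q ∧ C.Y q ≤ y1)⟩

/-- walks in a flat box with long horizontal displacement and small rise -/
def BX (L h σ : ℝ) : Cl :=
  ⟨{z | |C.X z| ≤ 2 * L ∧ |C.Y z| ≤ h * L},
    fun p q => (|C.X p| ≤ 2 * L ∧ |C.Y p| ≤ h * L) ∧ (|C.X q| ≤ 2 * L ∧ |C.Y q| ≤ h * L) ∧
      L ≤ C.X q - C.X p ∧ C.Y q - C.Y p ≤ σ * L⟩

/-- the flat box is blocked at price `P` except with probability `q` -/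
def Blk (L h σ P q : ℝ) : Prop := C.SP (fun ζ => {ω | Pi (C.BX L h σ) ζ ω < P}) ≤ q

/-- region of a line -/
def Rg (N : ℝ) : Set V := {z | -(N / 10000) ≤ C.X z ∧ C.X z ≤ N + N / 10000 ∧
  -(N / 10000) ≤ C.Y z ∧ C.Y z ≤ N / 100 + N / 10000}

/-- displacement of a line -/
noncomputable def wN (N : ℝ) : V := (C.near N (N / 100)).choose

lemma wN_spec (N : ℝ) : |C.X (C.wN N) - N| ≤ C.D ∧ |C.Y (C.wN N) - N / 100| ≤ C.D :=
  (C.near N (N / 100)).choose_spec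

noncomputable def LC (N : ℝ) : Finset (List Dir) :=
  Cls (2 * (C.Rg N).ncard) (fun l => pos 0 (st l) l.length = C.wN N ∧
    ∀ j ≤ l.length, pos 0 (st l) j ∈ C.Rg N)

/-- the restricted geodesic of scale `N` from `p` -/
noncomputable def line (N : ℝ) (p : V) (ω : Om) : List Dir := sel (C.LC N) p ω

/-- far from both ends (position relative to the base point) -/
def mid (N : ℝ) (z : V) : Prop := N / 1000 < max |C.X z| |C.Y z| ∧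
  N / 1000 < max |C.X (z - C.wN N)| |C.Y (z - C.wN N)|

noncomputable def i1 (N : ℝ) (l : List Dir) : ℕ :=
  sInf {i | i ≤ l.length ∧ C.mid N (pos 0 (st l) i)}

noncomputable def i2 (N : ℝ) (l : List Dir) : ℕ :=
  sSup {i | i ≤ l.length ∧ C.mid N (pos 0 (st l) i)}

/-- price of the middle part of a step list -/
noncomputable def prl (N : ℝ) (p ζ : V) (l : List Dir) (ω : Om) : ℝ :=
  tm ω p (st l) (C.i1 N l) (C.i2 N l) - T ω (pos p (st l) (C.i1 N l)) ζ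
    + T ω (pos p (st l) (C.i2 N l)) ζ

/-- price of the middle part of the line -/
noncomputable def pr (N : ℝ) (p ζ : V) (ω : Om) : ℝ := C.prl N p ζ (C.line N p ω) ω

noncomputable def MH (N : ℕ) : ℝ := C.SE (C.pr N 0)

/-- the mean middle price at scale `N` -/
noncomputable def M (N : ℕ) : ℝ := max (C.MH N) (C.swap.MH N)

@[simp] lemma swap_M : C.swap.M = C.M := by funext N; simp [M, max_comm]

lemma MH_le (N : ℕ) : C.MH N ≤ C.M N := le_max_left _ _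

lemma swap_MH_le (N : ℕ) : C.swap.MH N ≤ C.M N := le_max_right _ _

/-- a local random set `Z` with a local potential `τ` that follows the passage time to far
targets up to the error `E` -/
structure Net (S : Set V) (Z : Om → Set V) (τ : Om → V → ℝ) (E : V → Om → ℝ) : Prop where
  mZ : ∀ z, MeasurableSet {ω | z ∈ Z ω}
  mτ : ∀ z, Measurable (fun ω => τ ω z)
  lZ : Loc S Z
  lτ : Loc S τ
  err : C.Far fun ζ => ∀ ω z z', z ∈ Z ω → z' ∈ Z ω →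
    (T ω z ζ - τ ω z) - (T ω z' ζ - τ ω z') ≤ E ζ ω

/-- the thin window -/
noncomputable def win (l : ℕ) : Cl := C.LR 0 (11 / 10 * l) 0 (l / 10000)

noncomputable def WH (l : ℕ) : ℝ := C.SE (Pi (C.win l))

/-- uniform linearity of the passage time to the target, and lower tail, in a box -/
def Good (S : ℝ) (ζ : V) (ω : Om) : Prop := ∀ z z' : V, |C.X z| ≤ S → |C.Y z| ≤ S →
  |C.X z'| ≤ S → |C.Y z'| ≤ S →
    T ω z ζ - T ω z' ζ ≤ C.X (z' - z) + C.Y (z' - z) + S ^ (99 / 100 : ℝ) ∧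
    hh C.ν (z' - z) - S ^ (99 / 100 : ℝ) ≤ T ω z z'

/-- the corner tube -/
def tube (cx cy τ a1 a2 : ℝ) : Set V :=
  {z | (cx ≤ C.X z ∧ C.X z ≤ cx + τ ∧ cy - a1 ≤ C.Y z ∧ C.Y z ≤ cy + τ + 1) ∨
    (cx - 1 ≤ C.X z ∧ C.X z ≤ cx + a2 ∧ cy ≤ C.Y z ∧ C.Y z ≤ cy + τ)}

/-- support of the two lines of a corner -/
def cfr (N cx cy τ a1 a2 : ℝ) : Set V :=
  {z | (C.Y z ≤ cy - a1 + N / 50 ∧ cx - 3 * N / 1000 ≤ C.X z) ∨
    (cx + a2 - N / 50 ≤ C.X z ∧ C.Y z ≤ cy + τ + 3 * N / 1000)}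

variable {C}

/-- a walk that passes from the left to the right of a rectangle contains a crossing -/
lemma extract {ω : Om} {A : Set V} {p q : V} {t x0 x1 y0 y1 : ℝ} (h : Wk ω A p q t)
    (hp : C.X p ≤ x0) (hq : x1 ≤ C.X q) (hx : x0 ≤ x1)
    (hy : ∀ z, (z = p ∨ z = q ∨ z ∈ A) → x0 - C.D ≤ C.X z → C.X z ≤ x1 + C.D →
      y0 ≤ C.Y z ∧ C.Y z ≤ y1) :
    ∃ p' q' t1 t2 t3, Wk ω A p p' t1 ∧ (C.LR x0 x1 y0 y1).R p' q' ∧
      Wk ω (A ∩ (C.LR x0 x1 y0 y1).A) p' q' t2 ∧ Wk ω A q' q t3 ∧ t1 + t2 + t3 = t ∧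
      (p' = p ∨ p' = q ∨ p' ∈ A) ∧ (q' = p ∨ q' = q ∨ q' ∈ A) := by
  have hD := C.D1
  obtain ⟨p', t1, s, a1, a2, a3, a4, a5, a6⟩ := h.last_le C.X C.upX hp (by linarith)
  obtain ⟨q', t2, t3, b1, b2, b3, b4, b5, b6⟩ := a2.first_ge C.X C.upX (a := x1) (by linarith) hq
  have c6 : q' = p ∨ q' = q ∨ q' ∈ A := by
    rcases b6 with e | e | e
    · rw [e]; exact a6
    · exact Or.inr (Or.inl e)
    · exact Or.inr (Or.inr e.1)
  refine ⟨p', q', t1, t2, t3, a1, ⟨⟨a5, a4, hy p' a6 a5 (by linarith)⟩,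
    ⟨b4, b5, hy q' c6 (by linarith) b5⟩⟩, b1.mono ?_, b2.mono Set.inter_subset_left,
    by linarith, a6, c6⟩
  rintro z ⟨⟨z1, z2⟩, z3⟩
  simp only [Set.mem_ofPred_eq] at z2 z3
  exact ⟨z1, z2, z3, hy z (Or.inr (Or.inr z1)) (by linarith) (by linarith)⟩

lemma extract_pw {ζ : V} {ω : Om} {A : Set V} {p q : V} {y x0 x1 y0 y1 : ℝ}
    (h : PW ζ ω A p q y) (hp : C.X p ≤ x0) (hq : x1 ≤ C.X q) (hx : x0 ≤ x1)
    (hy : ∀ z, (z = p ∨ z = q ∨ z ∈ A) → x0 - C.D ≤ C.X z → C.X z ≤ x1 + C.D →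
      y0 ≤ C.Y z ∧ C.Y z ≤ y1) :
    ∃ p' q' s1 s2 s3, PW ζ ω A p p' s1 ∧ (C.LR x0 x1 y0 y1).R p' q' ∧
      PW ζ ω (A ∩ (C.LR x0 x1 y0 y1).A) p' q' s2 ∧ PW ζ ω A q' q s3 ∧ s1 + s2 + s3 = y ∧
      (p' = p ∨ p' = q ∨ p' ∈ A) ∧ (q' = p ∨ q' = q ∨ q' ∈ A) := by
  obtain ⟨p', q', t1, t2, t3, a, b, c, d, e, f⟩ := extract h hp hq hx hy
  exact ⟨p', q', _, _, _, a.pw ζ, b, c.pw ζ, d.pw ζ, by linarith, f⟩

lemma Pi_LR_le {ζ : V} {ω : Om} {A : Set V} {p q : V} {y x0 x1 y0 y1 : ℝ}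
    (h : PW ζ ω A p q y) (hp : C.X p ≤ x0) (hq : x1 ≤ C.X q) (hx : x0 ≤ x1)
    (hy : ∀ z, (z = p ∨ z = q ∨ z ∈ A) → x0 - C.D ≤ C.X z → C.X z ≤ x1 + C.D →
      y0 ≤ C.Y z ∧ C.Y z ≤ y1) : Pi (C.LR x0 x1 y0 y1) ζ ω ≤ y := by
  obtain ⟨p', q', s1, s2, s3, a, b, c, d, e, _⟩ := extract_pw h hp hq hx hy
  have := Pi_le b (c.mono Set.inter_subset_right)
  linarith [a.nonneg, d.nonneg]

/-- a straight walk -/
lemma straight_wk (C : Ctx) (ω : Om) (p q : V) : ∃ t, Wk ω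
    {z | min (C.X p) (C.X q) - C.D ≤ C.X z ∧ C.X z ≤ max (C.X p) (C.X q) + C.D ∧
      min (C.Y p) (C.Y q) - C.D ≤ C.Y z ∧ C.Y z ≤ max (C.Y p) (C.Y q) + C.D} p q t := by
  obtain ⟨σ, k, h1, _, h3⟩ := C.straight p q
  exact ⟨_, σ, k, fun j _ b => h3 j b.le, h1, rfl⟩

lemma LR_ne {x0 x1 y0 y1 : ℝ} (hx : x0 ≤ x1) (hy : y0 + 4 * C.D ≤ y1) :
    (C.LR x0 x1 y0 y1).NE := by
  have hD := C.D1
  obtain ⟨p, p1, p2⟩ := C.near (x0 - C.D) (y0 + 2 * C.D)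
  obtain ⟨q, q1, q2⟩ := C.near (x1 + C.D) (y0 + 2 * C.D)
  rw [abs_le] at p1 p2 q1 q2
  obtain ⟨t, h⟩ := C.straight_wk 0 p q
  obtain ⟨p', q', t1, t2, t3, _, b, c, _⟩ := extract (x0 := x0) (x1 := x1) (y0 := y0) (y1 := y1) h
    (by linarith) (by linarith) hx (by
      rintro z (rfl | rfl | ⟨_, _, z3, z4⟩) _ _
      · constructor <;> linarith
      · constructor <;> linarith
      · have := le_min (show y0 + C.D ≤ C.Y p by linarith) (show y0 + C.D ≤ C.Y q by linarith)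
        have := max_le (show C.Y p ≤ y0 + 3 * C.D by linarith)
          (show C.Y q ≤ y0 + 3 * C.D by linarith)
        constructor <;> linarith)
  exact Cl.ne_of b (c.mono Set.inter_subset_right)

/-- all vertices of a crossing have the right height -/
lemma LR_all {x0 x1 y0 y1 : ℝ} {p q z : V} (hx : x0 ≤ x1) (h : (C.LR x0 x1 y0 y1).R p q)
    (hz : z = p ∨ z = q ∨ z ∈ (C.LR x0 x1 y0 y1).A) :
    x0 - C.D ≤ C.X z ∧ C.X z ≤ x1 + C.D ∧ y0 ≤ C.Y z ∧ C.Y z ≤ y1 := by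
  have hD := C.D1
  obtain ⟨⟨a1, a2, a3, a4⟩, b1, b2, b3, b4⟩ := h
  rcases hz with rfl | rfl | ⟨c1, c2, c3, c4⟩
  · exact ⟨a1, by linarith, a3, a4⟩
  · exact ⟨by linarith, b2, b3, b4⟩
  · exact ⟨by linarith, by linarith, c3, c4⟩

/-- a longer and thinner rectangle is more expensive -/
lemma Pi_LR_mono {x0 x1 y0 y1 x0' x1' y0' y1' : ℝ} (h0 : x0' ≤ x0) (hx : x0 ≤ x1) (h1 : x1 ≤ x1')
    (h2 : y0 ≤ y0') (h3 : y1' ≤ y1) (hy : y0' + 4 * C.D ≤ y1') (ζ : V) (ω : Om) :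
    Pi (C.LR x0 x1 y0 y1) ζ ω ≤ Pi (C.LR x0' x1' y0' y1') ζ ω := by
  have hx' : x0' ≤ x1' := by linarith
  refine le_Pi (LR_ne hx' hy) fun p q y a b => Pi_LR_le b (a.1.2.1.trans h0) (h1.trans a.2.1) hx ?_
  intro z hz _ _
  obtain ⟨_, _, c3, c4⟩ := LR_all hx' a hz
  constructor <;> linarith

lemma LR_shift (x0 x1 y0 y1 : ℝ) (z : V) : (C.LR x0 x1 y0 y1).shift z
    = C.LR (x0 + C.X z) (x1 + C.X z) (y0 + C.Y z) (y1 + C.Y z) := by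
  unfold LR Cl.shift
  congr 1
  · ext y
    simp only [Set.mem_ofPred_eq, map_sub]
    constructor <;> rintro ⟨a, b, c, d⟩ <;> refine ⟨?_, ?_, ?_, ?_⟩ <;> linarith
  · funext p q
    simp only [map_sub, eq_iff_iff]
    constructor <;> rintro ⟨⟨a, b, c, d⟩, e, f, g, h⟩ <;>
      refine ⟨⟨?_, ?_, ?_, ?_⟩, ?_, ?_, ?_, ?_⟩ <;> linarith

/-- any rectangle is dominated by a lattice translate of a standard one -/
lemma LR_pos {x0 x1 y0 y1 w t : ℝ} (hx : x0 ≤ x1) (hw : x1 - x0 + 2 * C.D ≤ w)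
    (ht : t + 2 * C.D ≤ y1 - y0) (ht' : 4 * C.D ≤ t) :
    ∃ z, ∀ ζ ω, Pi (C.LR x0 x1 y0 y1) ζ ω ≤ Pi ((C.LR 0 w 0 t).shift z) ζ ω := by
  obtain ⟨z, z1, z2⟩ := C.near (x0 - C.D) (y0 + C.D)
  rw [abs_le] at z1 z2
  refine ⟨z, fun ζ ω => ?_⟩
  rw [LR_shift]
  exact Pi_LR_mono (by linarith) hx (by linarith) (by linarith) (by linarith) (by linarith) ζ ω

lemma SP_LR_pos {x0 x1 y0 y1 w t : ℝ} (hx : x0 ≤ x1) (hw : x1 - x0 + 2 * C.D ≤ w)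
    (ht : t + 2 * C.D ≤ y1 - y0) (ht' : 4 * C.D ≤ t) (y : ℝ) :
    C.SP (fun ζ => {ω | y ≤ Pi (C.LR x0 x1 y0 y1) ζ ω})
      ≤ C.SP (fun ζ => {ω | y ≤ Pi (C.LR 0 w 0 t) ζ ω}) := by
  obtain ⟨z, hz⟩ := LR_pos hx hw ht ht'
  have hD := C.D1
  have := SP_Pi_shift (C := C) (LR_ne (C := C) (x0 := 0) (x1 := w) (y0 := 0) (y1 := t)
    (by linarith) (by linarith)) (measurableSet_Ici (a := y)) z
  refine le_trans (SP_mono (Far.of_forall fun ζ ω h => ?_)) this.le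
  exact le_trans h (hz ζ ω)

lemma SE_LR_pos {x0 x1 y0 y1 w t : ℝ} (hx : x0 ≤ x1) (hw : x1 - x0 + 2 * C.D ≤ w)
    (ht : t + 2 * C.D ≤ y1 - y0) (ht' : 4 * C.D ≤ t) :
    C.SE (Pi (C.LR x0 x1 y0 y1)) ≤ C.SE (Pi (C.LR 0 w 0 t)) := by
  obtain ⟨z, hz⟩ := LR_pos hx hw ht ht'
  have hD := C.D1
  have ne := LR_ne (C := C) (x0 := 0) (x1 := w) (y0 := 0) (y1 := t) (by linarith) (by linarith)
  have := SE_Pi_shift (C := C) ne (G := id) measurable_id 0 (by simp) z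
  exact le_trans (SE_mono (Adm_Pi (LR_ne hx (by linarith))) (Adm_Pi (ne.shift z))
    (Far.of_forall hz)) this.le

lemma BX_ne {L h σ : ℝ} (h1 : h ≤ 1) (hL : 4 * C.D ≤ h * L) (hL0 : 0 ≤ L) (hσ : 0 ≤ σ) :
    (C.BX L h σ).NE := by
  have hD := C.D1
  have hL' : h * L ≤ L := mul_le_of_le_one_left hL0 h1
  have hs := mul_nonneg hσ hL0
  obtain ⟨p, p1, p2⟩ := C.near (-C.D) C.D
  obtain ⟨q, q1, q2⟩ := C.near (L + C.D) (-C.D)
  rw [abs_le] at p1 p2 q1 q2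
  obtain ⟨t, w⟩ := C.straight_wk 0 p q
  refine ⟨p, q, t, ⟨⟨abs_le.2 ⟨by linarith, by linarith⟩, abs_le.2 ⟨by linarith, by linarith⟩⟩,
    ⟨abs_le.2 ⟨by linarith, by linarith⟩, abs_le.2 ⟨by linarith, by linarith⟩⟩,
    by linarith, by linarith⟩, w.mono ?_⟩
  rintro z ⟨z1, z2, z3, z4⟩
  have := le_min (show -(2 * C.D) ≤ C.X p by linarith) (show -(2 * C.D) ≤ C.X q by linarith)
  have := max_le (show C.X p ≤ L + 2 * C.D by linarith) (show C.X q ≤ L + 2 * C.D by linarith)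
  have := le_min (show -(2 * C.D) ≤ C.Y p by linarith) (show -(2 * C.D) ≤ C.Y q by linarith)
  have := max_le (show C.Y p ≤ 2 * C.D by linarith) (show C.Y q ≤ 2 * C.D by linarith)
  exact ⟨abs_le.2 ⟨by linarith, by linarith⟩, abs_le.2 ⟨by linarith, by linarith⟩⟩

/-- bounded sets of lattice points are finite -/
lemma finite_box (C : Ctx) (b : ℝ) : {z : V | |C.X z| ≤ b ∧ |C.Y z| ≤ b}.Finite := by
  refine (box ⌈C.D * b⌉₊).finite_toSet.subset fun z hz => ?_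
  refine mem_coe.2 (mem_box.2 ((C.hN z).trans (le_trans ?_ (Nat.le_ceil _))))
  exact mul_le_mul_of_nonneg_left (max_le hz.1 hz.2) (by linarith [C.D1])

lemma Net.swap {S : Set V} {Z : Om → Set V} {τ : Om → V → ℝ} {E : V → Om → ℝ}
    (h : C.swap.Net S Z τ E) : C.Net S Z τ E :=
  ⟨h.mZ, h.mτ, h.lZ, h.lτ, (C.swap_Far _).1 h.err⟩

end Ctx

end Pool.Agent.P.MP_dcd5d0_pr.SC
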