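import Pool.Agent.P.MP_dcd5d0_pr.SC.St

/-! Non-random fluctuations: `hh z ≤ g z + L ^ (19 / 25)`. -/

set_option autoImplicit false

open MeasureTheory ProbabilityTheory Finset Function Filter Topology

namespace Pool.Agent.P.MP_dcd5d0_pr.SC

namespace G3

variable {ν : Measure ℝ} [IsProbabilityMeasure ν]

lemma th_le_self {t : ℝ} (ht : 1 ≤ t) : t ^ th ≤ t :=
  Real.rpow_le_self_of_one_le ht (by unfold th; norm_num)

lemma hh_zero (hν : Integrable (fun y => y ^ 2) ν) : hh ν 0 = 0 :=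
  le_antisymm (by simpa using hh_le hν 0) (hh_nonneg 0)

/-- midpoint lemma -/
lemma mid (hν : Integrable (fun y => y ^ 2) ν) {r : ℝ} (hr0 : 0 < r)
    (hr : ν.real (Set.Iic r) ≤ 1 / 1024) :
    ∀ᶠ t : ℝ in atTop, ∀ z : V, hh ν z ≤ t →
      ∃ y : V, hh ν y ≤ t / 2 + 2 * t ^ th ∧ hh ν (z - y) ≤ t / 2 + 2 * t ^ th := by
  have hm1 := m1_pos ν
  set C := 1 + 4 / r with hC
  have p1 : 0 ≤ 4 / r := by positivity
  have hC1 : 1 ≤ C := by linarith
  filter_upwards [BadT_small hν hr0 hr (4 * C) (by linarith) 2, BadQ_small hr 2,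
    eventually_ge_atTop 5, eventually_ge_atTop (2 * C),
    (tendsto_rpow_atTop (y := th) (by unfold th; norm_num)).eventually_ge_atTop (2 * m1 ν)]
    with t hT hQ h1 h2 h3 z hz
  have ht1 : 1 ≤ t := by linarith
  have hs1 := one_le_rpow_th ht1
  have hs2 := th_le_self ht1
  set s := t ^ th with hs
  set K := ⌈C * t⌉₊ with hK
  have hK1 : C * t ≤ K := Nat.le_ceil _
  have hK2 : (K : ℝ) ≤ 2 * C * t := by
    have := Nat.ceil_lt_add_one (a := C * t) (by positivity)
    nlinarith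
  have hKt : (K : ℝ) ≤ t ^ 2 := by nlinarith
  have b1 := hT K (2 * K) hKt (by push_cast; linarith)
  have b2 := hQ K K hKt (by nlinarith)
  have hrK : 2 * t ≤ r * K / 2 := by
    have e2 : r * (4 / r * t) = 4 * t := by field_simp
    have e3 : r * (4 / r * t) ≤ r * K := by
      refine mul_le_mul_of_nonneg_left (le_trans ?_ hK1) hr0.le
      gcongr; linarith
    linarith
  by_contra hcon
  push Not at hcon
  have key := markov1 (P := PP Ed ν) (T_int hν 0 z) (fun ω => T_nonneg ω 0 z)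
    (a := t + s) (by linarith) (Bad := BadT ν K (2 * K) s ∪ BadQ r K K) (by
      intro ω hω
      rw [Set.mem_union, not_or] at hω
      obtain ⟨g1, g2⟩ := hω
      by_contra hlt
      obtain ⟨k, σ, e1, e2, e3⟩ := exists_trail_lt (not_le.1 hlt)
      have hk : k ≤ K := by
        by_contra hc
        have := long_trail hr0.le (fun h => g2 ⟨0, by simp, h⟩) e2 (not_le.1 hc).le
        linarith
      have hzn : ‖z‖ ≤ K := by
        have := norm_pos_sub0 0 σ k
        rw [sub_zero, e1] at this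
        exact this.trans (by exact_mod_cast hk)
      obtain ⟨j, _, hj, e4, e5⟩ := ivt (fun j => hh ν (pos 0 σ j) - hh ν (z - pos 0 σ j))
        (2 * m1 ν) 0 (fun j => by
          have a0 := mul_le_mul_of_nonneg_left (norm_stp (σ j)) hm1.le
          have a1 := hh_lip hν (pos 0 σ (j + 1)) (pos 0 σ j)
          have a2 := hh_lip hν (z - pos 0 σ j) (z - pos 0 σ (j + 1))
          rw [sub_sub_sub_cancel_left] at a2
          rw [show pos 0 σ (j + 1) - pos 0 σ j = stp (σ j) by rw [pos_succ]; abel] at a1 a2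
          linarith) (by linarith) 0 k
        (by simp only [pos_zero, hh_zero hν, sub_zero]; linarith [hh_nonneg (ν := ν) z])
        (by simp only [zero_add, e1, sub_self, hh_zero hν]; linarith [hh_nonneg (ν := ν) z])
      rw [zero_add] at hj
      set y := pos 0 σ j with hy
      have hyn : ‖y‖ ≤ K := by
        have := norm_pos_sub0 0 σ j
        rw [sub_zero] at this
        exact this.trans (by exact_mod_cast hj.trans hk)
      have f1 : hh ν y - s ≤ T ω 0 y := by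
        by_contra h
        exact g1 ⟨0, y, by simp, by push_cast; rw [sub_zero]; linarith [norm_nonneg y],
          by rw [sub_zero]; exact not_le.1 h⟩
      have f2 : hh ν (z - y) - s ≤ T ω y z := by
        by_contra h
        exact g1 ⟨y, z, hyn, by push_cast; linarith [norm_sub_le z y], not_le.1 h⟩
      have f5 := T_le0 ω hy.symm
      have f6 := T_le ω 0 σ hj
      rw [e1, ← hy] at f6
      have f7 := tm_add ω 0 σ (Nat.zero_le j) hj
      have := hcon y (by linarith)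
      linarith)
  have b3 := measureReal_union_le (μ := PP Ed ν) (BadT ν K (2 * K) s) (BadQ r K K)
  set p := (PP Ed ν).real (BadT ν K (2 * K) s ∪ BadQ r K K) with hp
  have hp0 : 0 ≤ p := measureReal_nonneg
  have b4 : p * t ^ 2 ≤ 2 := by nlinarith [sq_nonneg t]
  have b5 : (t + s) * p ≤ 4 / 5 := by
    have : (t + s) * p ≤ (2 / 5 * (t * t)) * p := by
      refine mul_le_mul_of_nonneg_right ?_ hp0
      nlinarith
    nlinarith
  unfold hh at hz
  nlinarith

/-- repeated splitting, tested against one additive functional -/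
lemma split (hν : Integrable (fun y => y ^ 2) ν) {r : ℝ} (hr0 : 0 < r)
    (hr : ν.real (Set.Iic r) ≤ 1 / 1024) :
    ∃ u0 : ℝ, 1 ≤ u0 ∧ ∀ u, u0 ≤ u → ∀ (φ : V → ℝ), (∀ a b, φ (a - b) = φ a - φ b) →
      ∀ (j : ℕ) (z : V), hh ν z ≤ 2 ^ j * u + 200 * (2 ^ j * u) ^ th →
        ∃ a : V, hh ν a ≤ u + 200 * u ^ th ∧ 2 ^ j * φ a ≤ φ z := by
  obtain ⟨t0, ht0⟩ := eventually_atTop.1 (mid hν hr0 hr)
  refine ⟨max 1 t0, le_max_left _ _, fun u hu φ hφ j => ?_⟩
  have hu1 : 1 ≤ u := (le_max_left _ _).trans hu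
  have hu2 : t0 ≤ u := (le_max_right _ _).trans hu
  induction j with
  | zero => exact fun z hz => ⟨z, by simpa using hz, by simp⟩
  | succ j ih =>
    intro z hz
    have h3 : (1 : ℝ) ≤ 2 ^ j := one_le_pow₀ (by norm_num)
    set W := 2 ^ j * u with hW
    have hW1 : u ≤ W := by nlinarith
    have e0 : (2 : ℝ) ^ (j + 1) * u = 2 * W := by rw [hW]; ring
    rw [e0] at hz
    have e3 : 0 ≤ W ^ th := Real.rpow_nonneg (by linarith) _
    have e1 : (2 * W) ^ th ≤ 3 / 2 * W ^ th := by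
      rw [Real.mul_rpow (by norm_num) (by linarith)]
      exact mul_le_mul_of_nonneg_right
        (rpow_th_le (by norm_num) (by norm_num) (by norm_num)) e3
    have e2 : (2 * W) ^ th ≤ 2 * W := th_le_self (by linarith)
    have e4 : 0 ≤ (2 * W) ^ th := Real.rpow_nonneg (by linarith) _
    have e5 : (2 * W + 200 * (2 * W) ^ th) ^ th ≤ 25 * W ^ th := by
      calc _ ≤ (402 * W) ^ th :=
            Real.rpow_le_rpow (by linarith) (by linarith) (by unfold th; norm_num)
        _ ≤ _ := by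
            rw [Real.mul_rpow (by norm_num) (by linarith)]
            exact mul_le_mul_of_nonneg_right
              (rpow_th_le (by norm_num) (by norm_num) (by norm_num)) e3
    obtain ⟨y, y1, y2⟩ := ht0 _ (by linarith) z hz
    have e6 := hφ z y
    rcases le_total (2 * φ y) (φ z) with h | h
    · obtain ⟨a, a1, a2⟩ := ih y (by linarith)
      exact ⟨a, a1, by rw [pow_succ]; linarith⟩
    · obtain ⟨a, a1, a2⟩ := ih (z - y) (by linarith)
      exact ⟨a, a1, by rw [pow_succ]; linarith⟩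

/-- a cheap vector on the right side of the mean -/
lemma dir (hν : Integrable (fun y => y ^ 2) ν) {r : ℝ} (hr0 : 0 < r)
    (hr : ν.real (Set.Iic r) ≤ 1 / 1024) {g : (Fin 2 → ℝ) → ℝ} (H : IsTC ν g) :
    ∃ u0 : ℝ, 1 ≤ u0 ∧ ∀ u, u0 ≤ u → ∀ x : Fin 2 → ℝ, g x < u → ∀ e0 e1 : ℝ,
      ∃ a : V, hh ν a ≤ u + 200 * u ^ th ∧ e0 * (a 0 - x 0) + e1 * (a 1 - x 1) ≤ 1 := by
  obtain ⟨u0, h0, h1⟩ := split hν hr0 hr
  refine ⟨u0, h0, fun u hu x hx e0 e1 => ?_⟩
  have hl : Tendsto (fun j : ℕ => (2 : ℝ) ^ j) atTop atTop :=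
    tendsto_pow_atTop_atTop_of_one_lt (by norm_num)
  obtain ⟨j, j1, j2⟩ := ((((H.real hν x).comp hl).eventually (gt_mem_nhds hx)).and
    (hl.eventually_ge_atTop (|e0| + |e1|))).exists
  simp only [Function.comp] at j1
  have hj : (0 : ℝ) < 2 ^ j := by positivity
  rw [div_lt_iff₀ hj] at j1
  have e3 : 0 ≤ (2 ^ j * u) ^ th := Real.rpow_nonneg (by nlinarith) _
  obtain ⟨a, a1, a2⟩ := h1 u hu (fun a => e0 * a 0 + e1 * a 1)
    (fun a b => by simp only [Pi.sub_apply, Int.cast_sub]; ring) j (rd ((2 : ℝ) ^ j • x))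
    (by linarith)
  refine ⟨a, a1, le_of_mul_le_mul_left ?_ hj⟩
  have c0 := rd_close ((2 : ℝ) ^ j • x) 0
  have c1 := rd_close ((2 : ℝ) ^ j • x) 1
  simp only [Pi.smul_apply, smul_eq_mul] at c0 c1
  have d0 := (le_abs_self _).trans ((abs_mul e0 _).le.trans
    (mul_le_mul_of_nonneg_left c0 (abs_nonneg e0)))
  have d1 := (le_abs_self _).trans ((abs_mul e1 _).le.trans
    (mul_le_mul_of_nonneg_left c1 (abs_nonneg e1)))
  nlinarith [abs_nonneg e0, abs_nonneg e1]

/-- greedy choice of summands -/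
lemma greedy (hν : Integrable (fun y => y ^ 2) ν) (x : Fin 2 → ℝ) (s b : ℝ)
    (hb : ∀ a : V, hh ν a ≤ s → ∀ i, |(a i : ℝ) - x i| ≤ b)
    (h : ∀ e0 e1 : ℝ, ∃ a : V, hh ν a ≤ s ∧ e0 * (a 0 - x 0) + e1 * (a 1 - x 1) ≤ 1) (n : ℕ) :
    ∃ w : V, hh ν w ≤ n * s ∧
      ((w 0 : ℝ) - n * x 0) ^ 2 + ((w 1 : ℝ) - n * x 1) ^ 2 ≤ n * (2 + 2 * b ^ 2) := by
  induction n with
  | zero => exact ⟨0, by simp [hh_zero hν], by simp⟩
  | succ n ih =>
    obtain ⟨w, w1, w2⟩ := ih
    obtain ⟨a, a1, a2⟩ := h (w 0 - n * x 0) (w 1 - n * x 1)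
    refine ⟨w + a, by push_cast; linarith [hh_add hν w a], ?_⟩
    have b0 := sq_le_sq' (abs_le.1 (hb a a1 0)).1 (abs_le.1 (hb a a1 0)).2
    have b1 := sq_le_sq' (abs_le.1 (hb a a1 1)).1 (abs_le.1 (hb a a1 1)).2
    simp only [Pi.add_apply, Int.cast_add, Nat.cast_add, Nat.cast_one]
    nlinarith

end G3

open G3 in
theorem g3 : St_G3 := by
  intro ν _ g r hν hr0 hr H
  have hm1 := m1_pos ν
  obtain ⟨u0, h0, h1⟩ := dir hν hr0 hr H
  set B := 8 * 402 / r + 1 with hB
  have hB0 : 0 ≤ 8 * 402 / r := by positivity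
  have hv : Tendsto (fun L : ℝ => L ^ (1 / 200 : ℝ)) atTop atTop := tendsto_rpow_atTop (by norm_num)
  filter_upwards [eventually_ge_atTop 0, hv.eventually_ge_atTop u0,
    hv.eventually_ge_atTop (802 + m1 ν * (3 * B))] with L hL v1 v2 z hz
  set v := L ^ (1 / 200 : ℝ) with hvv
  have hv1 : 1 ≤ v := h0.trans v1
  have hv0 : 0 < v := by linarith
  have eL : L = v ^ 200 := by
    rw [hvv, ← Real.rpow_natCast, ← Real.rpow_mul hL]; norm_num
  have eL' : L ^ (19 / 25 : ℝ) = v ^ 152 := by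
    rw [hvv, ← Real.rpow_natCast, ← Real.rpow_mul hL]; norm_num
  rw [eL']
  set x0 : Fin 2 → ℝ := fun i => (z i : ℝ) with hx0
  have q1 : 1 ≤ v ^ 100 := one_le_pow₀ hv1
  have q2 : v ≤ v ^ 51 := le_self_pow₀ hv1 (by norm_num)
  have q3 : v ^ 51 ≤ v ^ 100 := pow_le_pow_right₀ hv1 (by norm_num)
  set m := ⌈v ^ 100⌉₊ with hm
  have m1' : v ^ 100 ≤ m := Nat.le_ceil _
  have m2' : (m : ℝ) ≤ 2 * v ^ 100 := by
    have := Nat.ceil_lt_add_one (a := v ^ 100) (by positivity)
    linarith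
  have m0 : (0 : ℝ) < m := by linarith
  set x : Fin 2 → ℝ := (m : ℝ)⁻¹ • x0 with hx
  have gx : g x = (m : ℝ)⁻¹ * g x0 := H.smul hν (by positivity) x0
  have gx' : m * g x = g x0 := by rw [gx]; field_simp
  have cx := H.coer hν hr0.le hr x
  have gx0 : 0 ≤ g x := le_trans (by positivity) cx
  have gx1 : g x ≤ v ^ 100 := by
    refine le_of_mul_le_mul_left ?_ m0
    rw [gx']
    calc g x0 ≤ v ^ 100 * v ^ 100 := by rw [← pow_add]; exact eL ▸ hz
      _ ≤ _ := by gcongr
  set u := g x + u0 with hu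
  have u2 : u ≤ 2 * v ^ 100 := by linarith
  have u3 : u ^ th ≤ 2 * v ^ 51 := by
    refine rpow_th_le (by linarith) (by positivity) ?_
    calc u ^ 51 ≤ (2 * v ^ 100) ^ 51 := pow_le_pow_left₀ (by linarith) u2 _
      _ = 2 ^ 51 * v ^ 5100 := by ring
      _ ≤ 2 ^ 100 * v ^ 5100 := by gcongr <;> norm_num
      _ = _ := by ring
  have u4 : 0 ≤ u ^ th := Real.rpow_nonneg (by linarith) _
  set s := u + 200 * u ^ th with hs
  have s1 : s ≤ 402 * v ^ 100 := by linarith
  obtain ⟨w, w1, w2⟩ := greedy hν x s (8 * 402 / r * v ^ 100) (fun a ha i => by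
    have c1 := hh_coer hν hr0.le hr a
    have c2 := norm_le_pi_norm a i
    have c3 := norm_le_pi_norm x i
    rw [Int.norm_eq_abs] at c2
    rw [Real.norm_eq_abs] at c3
    have c4 := abs_sub (a i : ℝ) (x i)
    rw [div_mul_eq_mul_div, le_div_iff₀ hr0]
    have c5 := mul_le_mul_of_nonneg_left (c4.trans (add_le_add c2 c3)) hr0.le
    linarith) (h1 u (by linarith) x (by linarith)) m
  have ex : ∀ i, (m : ℝ) * x i = z i := fun i => by
    simp only [hx, hx0, Pi.smul_apply, smul_eq_mul]; field_simp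
  rw [ex, ex] at w2
  have w3 : (m : ℝ) * (2 + 2 * (8 * 402 / r * v ^ 100) ^ 2) ≤ (3 * B * v ^ 150) ^ 2 := by
    have a1 : 1 + (8 * 402 / r * v ^ 100) ^ 2 ≤ (B * v ^ 100) ^ 2 := by
      have : 0 ≤ 8 * 402 / r * v ^ 100 := by positivity
      rw [hB, add_mul]; nlinarith
    calc _ ≤ 2 * v ^ 100 * (2 * (B * v ^ 100) ^ 2) := by gcongr; linarith
      _ = 4 * (B * v ^ 150) ^ 2 := by ring
      _ ≤ 9 * (B * v ^ 150) ^ 2 := by gcongr; norm_num
      _ = _ := by ring
  have hBv : 0 ≤ 3 * B * v ^ 150 := by positivity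
  have w4 : ‖z - w‖ ≤ 3 * B * v ^ 150 := by
    rw [norm_sub_rev, pi_norm_le_iff_of_nonneg hBv]
    intro i
    rw [Int.norm_eq_abs]
    simp only [Pi.sub_apply, Int.cast_sub]
    refine abs_le_of_sq_le_sq ?_ hBv
    refine le_trans ?_ (w2.trans w3)
    fin_cases i
    · exact le_add_of_nonneg_right (sq_nonneg _)
    · exact le_add_of_nonneg_left (sq_nonneg _)
  have f1 := hh_lip hν z w
  have f2 := mul_le_mul_of_nonneg_left w4 hm1.le
  have f3 : m * s ≤ g x0 + 802 * v ^ 151 := by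
    have : m * (u0 + 200 * u ^ th) ≤ 2 * v ^ 100 * (401 * v ^ 51) := by gcongr; linarith
    have e : m * s = m * g x + m * (u0 + 200 * u ^ th) := by rw [hs, hu]; ring
    have e' : 2 * v ^ 100 * (401 * v ^ 51) = 802 * v ^ 151 := by ring
    linarith
  have f4 : m1 ν * (3 * B * v ^ 150) ≤ m1 ν * (3 * B) * v ^ 151 := by
    rw [← mul_assoc]
    exact mul_le_mul_of_nonneg_left (pow_le_pow_right₀ hv1 (by norm_num)) (by positivity)
  have f5 : (802 + m1 ν * (3 * B)) * v ^ 151 ≤ v ^ 152 := by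
    rw [pow_succ' v 151]; gcongr
  linarith

end Pool.Agent.P.MP_dcd5d0_pr.SC
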