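import Pool.Agent.P.MP_dcd5d0_pr.SC.St

/-! Restricted geodesics and the price of their middle part. -/

set_option autoImplicit false

open MeasureTheory ProbabilityTheory Finset Function Filter

namespace Pool.Agent.P.MP_dcd5d0_pr.SC

open Ctx

namespace Line

variable {C : Ctx}

lemma pos0 (p : V) (σ : ℕ → Dir) (j : ℕ) : pos p σ j = pos 0 σ j + p := by
  rw [← pos_add, zero_add]

lemma trail_len {S : Set V} (hS : S.Finite) {x : V} {σ : ℕ → Dir} {k : ℕ}
    (h1 : Set.InjOn (ed x σ) (Set.Iio k)) (h2 : ∀ j ≤ k, pos x σ j ∈ S) : k ≤ 2 * S.ncard := by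
  have := Set.ncard_le_ncard_of_injOn (s := Set.Iio k) (t := S ×ˢ (Set.univ : Set (Fin 2)))
    (ed x σ) (fun j hj => ⟨ed_mem h2 hj, trivial⟩) h1 (hS.prod Set.finite_univ)
  rw [Set.ncard_prod, Set.ncard_univ, Nat.card_eq_fintype_card, Fintype.card_fin] at this
  have e : (Set.Iio k).ncard = k := by
    rw [← coe_Iio, Set.ncard_coe_finset, Nat.card_Iio]
  omega

lemma Rg_fin (C : Ctx) {N : ℝ} (hN : 0 ≤ N) : (C.Rg N).Finite :=
  (C.finite_box (2 * N)).subset fun z ⟨a, b, c, d⟩ =>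
    ⟨abs_le.2 ⟨by linarith, by linarith⟩, abs_le.2 ⟨by linarith, by linarith⟩⟩

lemma zero_mem {N : ℝ} (hN : 0 ≤ N) : (0 : V) ∈ C.Rg N := by
  simp only [Rg, Set.mem_ofPred_eq, map_zero]
  refine ⟨?_, ?_, ?_, ?_⟩ <;> linarith

lemma w_mem {N : ℝ} (hN : 40000 * C.D ≤ N) : C.wN N ∈ C.Rg N := by
  have hD := C.D1
  obtain ⟨a, b⟩ := C.wN_spec N
  rw [abs_le] at a b
  refine ⟨?_, ?_, ?_, ?_⟩ <;> linarith

/-- every walk in the region is dominated by a member of the list class -/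
lemma exists_LC {N : ℝ} (hN : 40000 * C.D ≤ N) {ω : Om} {p : V} {t : ℝ}
    (h : Wk ω {z | z - p ∈ C.Rg N} p (p + C.wN N) t) : ∃ l ∈ C.LC N, tt ω p l ≤ t := by
  have hD := C.D1
  have h0 : 0 ≤ N := by linarith
  obtain ⟨σ, k, h1, h2, h3, h4⟩ := h.trail (by simpa using zero_mem h0) (by simpa using w_mem hN)
  obtain ⟨l, rfl, hl⟩ := exists_list σ k
  have h5 : ∀ j ≤ l.length, pos 0 σ j ∈ C.Rg N := fun j hj => by
    have := h3 j hj
    rwa [Set.mem_ofPred_eq, pos0, add_sub_cancel_right] at this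
  refine ⟨l, mem_Cls.2 ⟨?_, ?_, fun j hj => ?_⟩, ?_⟩
  · refine trail_len (Rg_fin C h0) (x := 0) (σ := σ) (fun a ha b hb e => h2 ha hb ?_) h5
    unfold ed at e ⊢
    simp only [pos0 p]
    rw [Prod.mk.injEq] at e ⊢
    refine ⟨?_, e.2⟩
    have := congrArg (· + p) e.1
    simp only [ite_add] at this
    exact this
  · rw [pos_congr 0 hl le_rfl]
    rw [pos0, add_comm p] at h1
    exact add_right_cancel h1
  · rw [pos_congr 0 hl hj]; exact h5 j hj
  · unfold tt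
    rw [tm_congr ω p hl le_rfl]; exact h4

lemma LC_ne {N : ℝ} (hN : 40000 * C.D ≤ N) : (C.LC N).Nonempty := by
  have hD := C.D1
  obtain ⟨t, w⟩ := C.straight_wk 0 0 (C.wN N)
  obtain ⟨a, b⟩ := C.wN_spec N
  rw [abs_le] at a b
  obtain ⟨l, hl, _⟩ := exists_LC hN (ω := 0) (p := 0) (t := t) (by
    rw [zero_add]
    refine w.mono ?_
    rintro z ⟨z1, z2, z3, z4⟩
    simp only [map_zero] at z1 z2 z3 z4
    rw [min_eq_left (by linarith)] at z1 z3
    rw [max_eq_right (by linarith)] at z2 z4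
    simp only [sub_zero, Set.mem_ofPred_eq]
    refine ⟨?_, ?_, ?_, ?_⟩ <;> linarith)
  exact ⟨l, hl⟩

lemma line_mem {N : ℝ} (hN : 40000 * C.D ≤ N) (p : V) (ω : Om) : C.line N p ω ∈ C.LC N :=
  (sel_spec (LC_ne hN) p ω).1

lemma line_opt {N : ℝ} (hN : 40000 * C.D ≤ N) {ω : Om} {p : V} {t : ℝ}
    (h : Wk ω {z | z - p ∈ C.Rg N} p (p + C.wN N) t) : tt ω p (C.line N p ω) ≤ t := by
  obtain ⟨l, h1, h2⟩ := exists_LC hN h
  exact ((sel_spec (LC_ne hN) p ω).2 l h1).trans h2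

lemma LC_end {N : ℝ} {l : List Dir} (h : l ∈ C.LC N) (p : V) :
    pos p (st l) l.length = p + C.wN N := by
  rw [pos0, (mem_Cls.1 h).2.1, add_comm]

lemma LC_in {N : ℝ} {l : List Dir} (h : l ∈ C.LC N) (p : V) :
    ∀ j ≤ l.length, pos p (st l) j ∈ {z | z - p ∈ C.Rg N} := fun j hj => by
  rw [Set.mem_ofPred_eq, pos0, add_sub_cancel_right]; exact (mem_Cls.1 h).2.2 j hj

lemma bdd (N : ℝ) (l : List Dir) :
    BddAbove {i | i ≤ l.length ∧ C.mid N (pos 0 (st l) i)} := ⟨l.length, fun _ h => h.1⟩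

lemma i1_le {N : ℝ} {l : List Dir} {i : ℕ} (h : i ≤ l.length) (hm : C.mid N (pos 0 (st l) i)) :
    C.i1 N l ≤ i := Nat.sInf_le ⟨h, hm⟩

lemma le_i2 {N : ℝ} {l : List Dir} {i : ℕ} (h : i ≤ l.length) (hm : C.mid N (pos 0 (st l) i)) :
    i ≤ C.i2 N l := le_csSup (bdd N l) ⟨h, hm⟩

lemma i_cases (N : ℝ) (l : List Dir) : (C.i1 N l = 0 ∧ C.i2 N l = 0) ∨
    (C.i1 N l ≤ C.i2 N l ∧ C.i2 N l ≤ l.length ∧ C.mid N (pos 0 (st l) (C.i1 N l)) ∧
      C.mid N (pos 0 (st l) (C.i2 N l))) := by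
  rcases Set.eq_empty_or_nonempty {i | i ≤ l.length ∧ C.mid N (pos 0 (st l) i)} with h | h
  · left
    unfold i1 i2
    rw [h]; simp
  · right
    have a := Nat.sInf_mem h
    have b := Nat.sSup_mem h (bdd N l)
    exact ⟨le_i2 a.1 a.2, b.1, a.2, b.2⟩

lemma i12 (N : ℝ) (l : List Dir) : C.i1 N l ≤ C.i2 N l ∧ C.i2 N l ≤ l.length := by
  rcases i_cases (C := C) N l with h | h
  · rw [h.1, h.2]; simp
  · exact ⟨h.1, h.2.1⟩

lemma pr_idx (ω : Om) (p ζ : V) (σ : ℕ → Dir) {a b : ℕ} (h : a ≤ b) :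
    0 ≤ tm ω p σ a b - T ω (pos p σ a) ζ + T ω (pos p σ b) ζ := by
  have := T_le ω p σ h
  have := T_tri ω (pos p σ a) (pos p σ b) ζ
  linarith

lemma prl_nonneg (N : ℝ) (p ζ : V) (l : List Dir) (ω : Om) : 0 ≤ C.prl N p ζ l ω :=
  pr_idx ω p ζ _ (i12 N l).1

lemma prl_ge {N : ℝ} (p ζ : V) {l : List Dir} (ω : Om) {a b : ℕ} (hab : a ≤ b)
    (hb : b ≤ l.length) (ha' : C.mid N (pos 0 (st l) a)) (hb' : C.mid N (pos 0 (st l) b)) :
    tm ω p (st l) a b - T ω (pos p (st l) a) ζ + T ω (pos p (st l) b) ζ ≤ C.prl N p ζ l ω := by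
  have h1 := i1_le (hab.trans hb) ha'
  have h2 := le_i2 hb hb'
  have e1 := pr_idx ω p ζ (st l) h1
  have e2 := pr_idx ω p ζ (st l) h2
  have e3 := tm_add ω p (st l) h1 hab
  have e4 := tm_add ω p (st l) (h1.trans hab) h2
  unfold prl
  linarith

lemma prl_meas (N : ℝ) (p ζ : V) (l : List Dir) : Measurable (C.prl N p ζ l) :=
  ((tm_meas _ _ _ _).sub (T_meas _ _)).add (T_meas _ _)

lemma line_DM (N : ℝ) (p : V) : DM (C.line N p) := sel_DM _ _

lemma line_sh (N : ℝ) (p : V) (ω : Om) : C.line N p ω = C.line N 0 (sh p ω) := by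
  unfold line sel mins tt
  simp only [tm_sh, zero_add]

lemma pr_sh (N : ℝ) (p ζ : V) (ω : Om) : C.pr N p ζ ω = C.pr N 0 (ζ - p) (sh p ω) := by
  unfold pr prl
  rw [← line_sh, tm_sh, T_sh, T_sh, zero_add, sub_add_cancel, ← pos0, ← pos0]

lemma pr_adm {N : ℝ} (hN : 40000 * C.D ≤ N) (p : V) : C.Adm (C.pr N p) := by
  refine ⟨fun ζ => (line_DM N p).sel (fun l ω => C.prl N p ζ l ω) (prl_meas N p ζ), ?_⟩
  obtain ⟨l, hl⟩ := LC_ne hN
  refine ⟨fun ω => 2 * tt ω p l, (tm_int p _ _).const_mul 2, fun ζ ω => ?_⟩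
  have e0 := (sel_spec (LC_ne hN) p ω).2 l hl
  unfold pr
  rw [abs_of_nonneg (prl_nonneg _ _ _ _ _)]
  set l' := C.line N p ω with hl'
  obtain ⟨h1, h2⟩ := i12 (C := C) N l'
  have e1 := T_le ω p (st l') h1
  have e2 := T_tri ω (pos p (st l') (C.i2 N l')) (pos p (st l') (C.i1 N l')) ζ
  rw [T_symm ω (pos p (st l') (C.i2 N l')) (pos p (st l') (C.i1 N l'))] at e2
  have e3 := tm_sub ω p (st l') (Nat.zero_le (C.i1 N l')) h2
  have e4 : tm ω p (st l') 0 l'.length ≤ tt ω p l := e0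
  unfold prl
  linarith

lemma big (C : Ctx) : ∀ᶠ N : ℕ in atTop, 40000 * C.D ≤ (N : ℝ) :=
  tendsto_natCast_atTop_atTop.eventually_ge_atTop _

lemma mid_of {N : ℝ} {z : V} (h1 : N / 1000 < C.X z) (h2 : C.X z < N - N / 1000 - C.D) :
    C.mid N z := by
  have := (abs_le.1 (C.wN_spec N).1).1
  refine ⟨lt_max_of_lt_left (h1.trans_le (le_abs_self _)), lt_max_of_lt_left ?_⟩
  rw [map_sub]
  exact lt_of_lt_of_le (by linarith) (neg_le_abs _)

/-- index of a middle vertex -/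
noncomputable def idx (C : Ctx) (N : ℝ) (p : V) (l : List Dir) (z : V) : ℕ :=
  sInf {i | i ≤ l.length ∧ C.mid N (pos 0 (st l) i) ∧ z = pos p (st l) i}

lemma idx_le (N : ℝ) (p : V) (l : List Dir) (z : V) : idx C N p l z ≤ l.length := by
  rcases Set.eq_empty_or_nonempty
    {i | i ≤ l.length ∧ C.mid N (pos 0 (st l) i) ∧ z = pos p (st l) i} with h | h
  · unfold idx; rw [h]; simp
  · exact (Nat.sInf_mem h).1

lemma line_loc (N : ℝ) (p : V) : Loc {z | z - p ∈ C.Rg N} (C.line N p) := by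
  intro ω ω' h
  refine sel_congr fun l hl => ?_
  unfold tt tm
  refine sum_congr rfl fun j hj => ?_
  rw [h _ (ed_mem (LC_in hl p) (mem_Ico.1 hj).2)]

end Line

open Line

theorem lineA : St_LineA := by
  intro C
  filter_upwards [big C] with N hN p
  refine ⟨pr_adm hN p, fun ζ ω => prl_nonneg _ _ _ _ _, ?_⟩
  have : C.pr N p = fun ζ ω => C.pr N 0 (ζ - p) (sh p ω) := by
    funext ζ ω; exact pr_sh _ _ _ _
  rw [this]
  exact SE_shift (pr_adm hN 0) p

theorem lineN : St_LineN := by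
  intro C
  filter_upwards [big C] with N hN p
  refine ⟨fun ω => {z | ∃ i ≤ (C.line N p ω).length, C.mid N (pos 0 (st (C.line N p ω)) i) ∧
      z = pos p (st (C.line N p ω)) i},
    fun ω z => -tm ω p (st (C.line N p ω)) 0 (idx C N p (C.line N p ω) z),
    ⟨fun z => (line_DM N p).set (fun l => ∃ i ≤ l.length, C.mid N (pos 0 (st l) i) ∧
      z = pos p (st l) i), fun z => (line_DM N p).sel
        (fun l ω => -tm ω p (st l) 0 (idx C N p l z)) (fun l => (tm_meas _ _ _ _).neg),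
      fun ω ω' h => by simp only [line_loc N p ω ω' h], fun ω ω' h => ?_,
      Far.of_forall fun ζ ω z z' hz hz' => ?_⟩, fun ω => ⟨?_, ?_⟩⟩
  · funext z
    rw [← line_loc N p ω ω' h]
    congr 1
    refine sum_congr rfl fun j hj => ?_
    rw [h _ (ed_mem (LC_in (line_mem hN p ω) p)
      (lt_of_lt_of_le (mem_Ico.1 hj).2 (idx_le _ _ _ _)))]
  · set l := C.line N p ω with hl
    obtain ⟨a1, a2, a3⟩ : idx C N p l z ∈ {i | i ≤ l.length ∧ C.mid N (pos 0 (st l) i) ∧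
      z = pos p (st l) i} := Nat.sInf_mem hz
    obtain ⟨b1, b2, b3⟩ : idx C N p l z' ∈ {i | i ≤ l.length ∧ C.mid N (pos 0 (st l) i) ∧
      z' = pos p (st l) i} := Nat.sInf_mem hz'
    have h1 := le_i2 a1 a2
    have h2 := i1_le b1 b2
    have e1 := pr_idx ω p ζ (st l) h1
    have e2 := pr_idx ω p ζ (st l) h2
    have e3 := tm_add ω p (st l) (Nat.zero_le _) h1
    have e4 := tm_add ω p (st l) (Nat.zero_le _) h2
    have e5 := tm_add ω p (st l) (Nat.zero_le _) (i12 (C := C) N l).1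
    rw [← a3] at e1
    rw [← b3] at e2
    show _ ≤ C.prl N p ζ l ω
    unfold prl
    linarith
  · rintro z ⟨i, h1, _, rfl⟩
    exact LC_in (line_mem hN p ω) p i h1
  · set l := C.line N p ω with hl
    refine ⟨{z | ∃ i ≤ l.length, z = pos p (st l) i}, _, ?_,
      ⟨st l, l.length, fun j _ b => ⟨j, b.le, rfl⟩, LC_end (line_mem hN p ω) p, rfl⟩, ?_⟩
    · rintro z ⟨i, h1, rfl⟩
      exact LC_in (line_mem hN p ω) p i h1
    · rintro z ⟨i, h1, rfl⟩ h2 h3
      rw [pos0, map_add, add_sub_cancel_right] at h2 h3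
      exact ⟨i, h1, mid_of h2 h3, rfl⟩

theorem opt : St_Opt := by
  intro C
  filter_upwards [big C] with N hN ζ ω
  set l := C.line N 0 ω with hl
  have hin : ∀ j ≤ l.length, pos 0 (st l) j ∈ C.Rg N := (mem_Cls.1 (line_mem hN 0 ω)).2.2
  have hend : pos 0 (st l) l.length = C.wN N := (mem_Cls.1 (line_mem hN 0 ω)).2.1
  rcases i_cases (C := C) N l with h | ⟨h1, h2, h3, h4⟩
  · left
    show C.prl N 0 ζ l ω = 0
    unfold prl
    rw [h.1, h.2]; simp [tm]
  · right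
    have w1 := (Wk.idx (A := C.Rg N) ω 0 (st l) (Nat.zero_le (C.i1 N l))
      fun j _ b => hin j (by omega)).pw ζ
    have w2 := (Wk.idx (A := C.Rg N) ω 0 (st l) h1 fun j _ b => hin j (by omega)).pw ζ
    have w3 := (Wk.idx (A := C.Rg N) ω 0 (st l) h2 fun j _ b => hin j (by omega)).pw ζ
    rw [pos_zero] at w1
    rw [hend] at w3
    refine ⟨_, _, _, _, hin _ (by omega), hin _ h2, h3, h4, w1, w2, w3, fun y hy => ?_⟩
    have e0 := line_opt hN (ω := ω) (p := 0) (t := y + T ω 0 ζ - T ω (C.wN N) ζ) (by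
      simpa [PW] using hy)
    have e3 := tm_add ω 0 (st l) (Nat.zero_le _) h1
    have e4 := tm_add ω 0 (st l) (Nat.zero_le _) h2
    have e5 : tm ω 0 (st l) 0 l.length ≤ y + T ω 0 ζ - T ω (C.wN N) ζ := e0
    show _ + C.prl N 0 ζ l ω + _ ≤ y
    unfold prl
    linarith

theorem s1 : St_S1 := by
  intro C
  filter_upwards [big C] with N hN x0 x1 y0 y1 hx hw hy
  have hD := C.D1
  obtain ⟨p, p1, p2⟩ := C.near (x0 - N / 20) (y0 + N / 200)
  rw [abs_le] at p1 p2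
  refine ⟨p, fun ζ ω => ?_⟩
  set l := C.line N p ω with hl
  have hin := LC_in (line_mem hN p ω) p
  have hend : pos 0 (st l) l.length = C.wN N := (mem_Cls.1 (line_mem hN p ω)).2.1
  have hw1 := (abs_le.1 (C.wN_spec N).1).1
  have hst : ∀ j, C.X (pos 0 (st l) (j + 1)) ≤ C.X (pos 0 (st l) j) + C.D := fun j => by
    rw [pos_succ]; exact C.upX _ _
  obtain ⟨a, _, a2, a3, a4⟩ := ivt (fun j => C.X (pos 0 (st l) j)) C.D (N / 100) hst (by linarith)
    0 l.length (by simp; linarith) (by rw [zero_add, hend]; linarith)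
  rw [zero_add] at a2
  obtain ⟨k, hk⟩ := Nat.exists_eq_add_of_le a2
  obtain ⟨b, b1, b2, b3, b4⟩ := ivt (fun j => C.X (pos 0 (st l) j)) C.D (96 / 100 * N) hst
    (by linarith) a k (by linarith) (by rw [← hk, hend]; linarith)
  rw [← hk] at b2
  have w := (Wk.idx (A := {z | z - p ∈ C.Rg N}) ω p (st l) b1
    fun j _ c => hin j (c.le.trans b2)).pw ζ
  refine (Pi_LR_le w ?_ ?_ hx ?_).trans
    (prl_ge p ζ ω b1 b2 (mid_of (by linarith) (by linarith)) (mid_of (by linarith) (by linarith)))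
  · rw [pos0, map_add]; linarith
  · rw [pos0, map_add]; linarith
  · intro z hz _ _
    have : z - p ∈ C.Rg N := by
      rcases hz with rfl | rfl | h
      · exact hin a a2
      · exact hin b b2
      · exact h
    obtain ⟨_, _, c3, c4⟩ := this
    rw [map_sub] at c3 c4
    constructor <;> linarith

end Pool.Agent.P.MP_dcd5d0_pr.SC
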