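import Pool.Agent.P.MP_dcd5d0_pr.SC.St

/-! Lower bound for the mean middle price by a tilt. -/

set_option autoImplicit false

open MeasureTheory ProbabilityTheory Finset Function Filter

namespace Pool.Agent.P.MP_dcd5d0_pr.SC

open Ctx

namespace MW

lemma drift (C : Ctx) (p : V) (σ : ℕ → Dir) (a i : ℕ) :
    |C.X (pos p σ (a + i)) - C.X (pos p σ a)| ≤ C.D * i := by
  rw [← map_sub]
  exact (C.hX _).trans (mul_le_mul_of_nonneg_left (norm_pos_sub p σ a i) (by linarith [C.D1]))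

/-- many heavy edges in a band crossed by a trail -/
lemma band (C : Ctx) {ω : Om} {p : V} {σ : ℕ → Dir} {k n R : ℕ} {y : ℝ}
    (hinj : Set.InjOn (ed p σ) (Set.Iio k)) (hp : C.X p ≤ y)
    (hq : y + C.D + C.D * n < C.X (pos p σ k)) (hR : ∀ j ≤ k, ‖pos p σ j‖ ≤ R)
    (hω : ω ∉ BadQ C.r2 R n) :
    ∃ J : Finset ℕ, n < 2 * J.card ∧ ∀ j ∈ J, j < k ∧ C.r2 < ω (ed p σ j) ∧
      y - C.D * n ≤ C.X (ed p σ j).1 ∧ C.X (ed p σ j).1 ≤ y + C.D + C.D * n := by
  have hD := C.D1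
  have hn : 0 ≤ C.D * n := by positivity
  obtain ⟨a, _, a2, a3, a4⟩ := ivt (fun j => C.X (pos p σ j)) C.D y
    (fun j => by rw [pos_succ]; exact C.upX _ _) (by linarith) 0 k (by simpa using hp)
    (by simp only [zero_add]; linarith)
  simp only [zero_add] at a2
  have key : ∀ i ≤ n, y - C.D * n ≤ C.X (pos p σ (a + i)) ∧
      C.X (pos p σ (a + i)) ≤ y + C.D + C.D * n := by
    intro i hi
    have h1 := abs_le.1 (drift C p σ a i)
    have h2 : C.D * i ≤ C.D * n :=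
      mul_le_mul_of_nonneg_left (by exact_mod_cast hi) (by linarith)
    constructor <;> linarith [h1.1, h1.2]
  have hk : a + n ≤ k := by
    by_contra hc
    obtain ⟨i, rfl⟩ := Nat.exists_eq_add_of_le a2
    linarith [(key i (by omega)).2]
  have h1 : n < 2 * ((range n).filter
      (fun j => C.r2 < ω (ed (pos p σ a) (fun i => σ (a + i)) j))).card := by
    by_contra hc
    refine hω ⟨pos p σ a, hR a a2, fun i => σ (a + i), ?_, not_lt.1 hc⟩
    intro i hi j hj h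
    rw [ed_shift, ed_shift] at h
    simp only [Set.mem_Iio] at hi hj
    have := hinj (show a + i ∈ Set.Iio k by simp only [Set.mem_Iio]; omega)
      (show a + j ∈ Set.Iio k by simp only [Set.mem_Iio]; omega) h
    omega
  refine ⟨((range n).filter (fun j => C.r2 < ω (ed (pos p σ a) (fun i => σ (a + i)) j))).image
    (a + ·), by rwa [card_image_of_injective _ (add_right_injective a)], ?_⟩
  intro j hj
  obtain ⟨i, hi, rfl⟩ := mem_image.1 hj
  obtain ⟨i1, i2⟩ := mem_filter.1 hi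
  rw [ed_shift] at i2
  rw [mem_range] at i1
  refine ⟨by omega, i2, ?_⟩
  rcases ed_base p σ (a + i) with e | e <;> rw [e]
  · exact key i i1.le
  · exact key (i + 1) i1

lemma gain {ω ω' : Om} {p : V} {σ : ℕ → Dir} {k j : ℕ} {r1 r2 : ℝ} (h0 : 0 ≤ r1) (hj : j < k)
    (hle : ∀ e, ω' e ≤ ω e) (h1 : ω' (ed p σ j) ≤ r1) (h2 : r2 < ω (ed p σ j)) :
    tm ω' p σ 0 k ≤ tm ω p σ 0 k - (r2 - r1) := by
  unfold tm
  have hm : j ∈ Ico 0 k := mem_Ico.2 ⟨Nat.zero_le _, hj⟩
  rw [← add_sum_erase _ _ hm, ← add_sum_erase _ (fun j => max (ω (ed p σ j)) 0) hm]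
  have a1 : ∑ i ∈ (Ico 0 k).erase j, max (ω' (ed p σ i)) 0
      ≤ ∑ i ∈ (Ico 0 k).erase j, max (ω (ed p σ i)) 0 :=
    sum_le_sum fun i _ => max_le_max (hle _) le_rfl
  have a2 := max_le h1 h0
  have a3 := le_max_left (ω (ed p σ j)) 0
  linarith

lemma exists_m {b : ℝ} (hb : 0 < b) (hb1 : b ≤ 1) :
    ∃ m : ℕ, 4 * Real.exp (1 - m) ≤ 1 - Real.exp (-(b / (m + 1))) := by
  obtain ⟨m, hm⟩ := exists_nat_ge (144 / b)
  refine ⟨m, ?_⟩
  rw [div_le_iff₀ hb] at hm
  have m0 : (0 : ℝ) ≤ m := by positivity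
  have m1 : (1 : ℝ) ≤ m := by nlinarith
  set x := b / (m + 1) with hx
  have x0 : 0 < x := by positivity
  have x1 : x * (m + 1) = b := by rw [hx]; field_simp
  have x2 : x ≤ 1 := by nlinarith
  have e1 : Real.exp (-x) ≤ 1 - x / 2 := by
    have := Real.add_one_le_exp x
    rw [Real.exp_neg, inv_le_comm₀ (Real.exp_pos _) (by linarith), inv_le_iff_one_le_mul₀ (by linarith)]
    nlinarith
  have e2 : (m : ℝ) ^ 2 / 4 ≤ Real.exp m := by
    have h := Real.add_one_le_exp ((m : ℝ) / 2)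
    have : Real.exp m = Real.exp (m / 2) ^ 2 := by rw [← Real.exp_nat_mul]; congr 1; push_cast; ring
    rw [this]; nlinarith
  have e3 : Real.exp (1 - m) * Real.exp m ≤ 3 := by
    rw [← Real.exp_add]; simp only [sub_add_cancel]; linarith [Real.exp_one_lt_d9]
  have e4 := Real.exp_pos (1 - (m : ℝ))
  have e5 : Real.exp (1 - m) * (m ^ 2 / 4) ≤ 3 := le_trans (by gcongr) e3
  have e6 : 96 ≤ x * m ^ 2 := by nlinarith
  nlinarith

end MW

open MW

theorem mw (hA : St_LineA) (hS : St_S1) (hC : St_Cor) : St_MW := by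
  classical
  intro C
  have hD := C.D1
  have hp := C.hr1
  set p0 := C.ν.real (Set.Iic C.r1) with hp0
  have hp1 : p0 ≤ 1 := measureReal_le_one
  set a := p0 / (8 * C.D) with ha
  have a0 : 0 < a := by positivity
  have a1 : a ≤ p0 := by rw [ha, div_le_iff₀ (by positivity)]; nlinarith
  obtain ⟨m, hm⟩ := exists_m (b := a / (160 * C.D)) (by positivity)
    (by rw [div_le_iff₀ (by positivity)]; linarith)
  set θ := 1 - Real.exp (-(a / (160 * C.D) / (m + 1))) with hθ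
  have θ0 : 0 < θ := by linarith [Real.exp_pos (1 - (m : ℝ))]
  have θ1 : θ ≤ 1 := by linarith [Real.exp_pos (-(a / (160 * C.D) / (m + 1)))]
  set c0 := (C.r2 - C.r1) / 4 with hc0
  have c00 : 0 < c0 := by linarith [C.hr12]
  refine ⟨θ * c0 / 64, by positivity, ?_⟩
  have t4 : Tendsto (fun N : ℕ => 4 * N) atTop atTop :=
    tendsto_atTop_mono (fun N => by simp only [id]; omega) tendsto_id
  have tt : Tendsto (fun N : ℕ => (N : ℝ) / (20 * C.D)) atTop atTop :=
    tendsto_natCast_atTop_atTop.atTop_div_const (by positivity)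
  filter_upwards [hA C, hA C.swap, hS C, hS C.swap, t4.eventually (hC C),
    tt.eventually (BadQ_small C.hr2 2),
    tendsto_natCast_atTop_atTop.eventually_ge_atTop (800 * C.D ^ 3)] with N l1 l2 s1 s2 cor bq hN
  have D3 : C.D ≤ C.D ^ 3 := le_self_pow₀ hD (by norm_num)
  have N0 : (0 : ℝ) < N := by linarith
  by_contra hc
  push Not at hc
  obtain ⟨hc1, hc2⟩ := hc
  obtain ⟨Dv, E, mD, -, aE, E0, sE, far, -, fin⟩ := cor 0 0 (N / 25) (2 * N / 5) (2 * N / 5)
    (by linarith) (by push_cast; linarith) (by push_cast; linarith) (by push_cast; linarith)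
    (by push_cast; linarith) (by push_cast; linarith)
  obtain ⟨p1, hp1'⟩ := s1 (0 - 1) (0 + 2 * N / 5) 0 (0 + N / 25) (by linarith) (by linarith)
    (by linarith)
  obtain ⟨p2, hp2'⟩ := s2 (0 - 2 * N / 5) (0 + N / 25 + 1) 0 (0 + N / 25) (by linarith)
    (by linarith) (by linarith)
  obtain ⟨b1, b2, b3⟩ := l1 p1
  obtain ⟨d1, d2, d3⟩ := l2 p2
  simp only [swap_Adm, swap_SE] at d1 d3
  have big : C.Pm.real {ω | c0 ≤ |Dv ω|} ≤ θ / 16 := by
    have ad := (d1.add b1).add aE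
    have e1 := SP_markov ad (fun ζ ω => add_nonneg (add_nonneg (d2 ζ ω) (b2 ζ ω)) (E0 ζ ω)) c00
    rw [SE_add (d1.add b1) aE, SE_add d1 b1, d3, b3] at e1
    rw [← SP_indep]
    refine (SP_mono (far.mono fun ζ h ω hω => ?_)).trans (e1.trans ?_)
    · have h1 := h ω
      have h2 : |Dv ω| ≤ C.swap.pr N p2 ζ ω + C.pr N p1 ζ ω + E ζ ω :=
        abs_le.2 ⟨by linarith [h1.1, d2 ζ ω, b2 ζ ω], by linarith [h1.2, hp1' ζ ω, hp2' ζ ω]⟩
      exact le_trans hω h2
    · rw [div_le_iff₀ c00]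
      linarith [C.MH_le N, C.swap_MH_le N]
  set t := (N : ℝ) / (20 * C.D) with ht
  have t0 : t * (20 * C.D) = N := by rw [ht]; field_simp
  have t1 : 40 * C.D ^ 2 ≤ t := by
    rw [ht, le_div_iff₀ (by positivity)]; linarith
  have t2 : 2 ≤ t := by nlinarith
  set n := ⌈t⌉₊ with hn
  have n1 : t ≤ n := Nat.le_ceil _
  have n2 : C.D * n ≤ N / 10 := by
    have := Nat.ceil_lt_add_one (a := t) (by linarith)
    nlinarith
  set R := ⌈C.D * N⌉₊ with hR
  have R1 : C.D * N ≤ R := Nat.le_ceil _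
  have DN : 1 ≤ C.D * N := by nlinarith
  have R2 : (R : ℝ) ≤ 2 * (C.D * N) := by
    have := Nat.ceil_lt_add_one (a := C.D * N) (by positivity)
    linarith
  have bq1 : (PP Ed C.ν).real (BadQ C.r2 R n) ≤ 1 / 4 := by
    have h1 := bq R n (by rw [← t0] at R2; nlinarith) n1
    have h2 := mul_le_mul_of_nonneg_left (show 4 ≤ t ^ 2 by nlinarith)
      (measureReal_nonneg (μ := PP Ed C.ν) (s := BadQ C.r2 R n))
    linarith
  set cf := C.cfr ((4 * N : ℕ) : ℝ) 0 0 (N / 25) (2 * N / 5) (2 * N / 5) with hcf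
  set S : Finset Ed := (box R ×ˢ univ).filter (fun e => e.1 ∉ cf) with hSd
  have cS : (S.card : ℝ) ≤ 50 * (C.D * N) ^ 2 := by
    have h1 : (S.card : ℝ) ≤ (box R ×ˢ (univ : Finset (Fin 2))).card := by
      exact_mod_cast card_filter_le _ _
    rw [card_product] at h1
    push_cast at h1
    rw [card_box] at h1
    simp only [card_univ, Fintype.card_fin, Nat.cast_ofNat] at h1
    have : (2 * (R : ℝ) + 1) ^ 2 ≤ (5 * (C.D * N)) ^ 2 :=
      pow_le_pow_left₀ (by positivity) (by linarith) 2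
    linarith
  have nrm : ∀ z ∈ C.tube 0 0 (N / 25) (2 * N / 5) (2 * N / 5), ‖z‖ ≤ R := by
    intro z hz
    refine (C.hN z).trans (le_trans (mul_le_mul_of_nonneg_left ?_ (by linarith)) R1)
    rcases hz with ⟨z1, z2, z3, z4⟩ | ⟨z1, z2, z3, z4⟩ <;>
      exact max_le (abs_le.2 ⟨by linarith, by linarith⟩) (abs_le.2 ⟨by linarith, by linarith⟩)
  have e0 : ((m : ℝ) + 1) * (a / ((m + 1) * N)) = a / N := by field_simp
  have e1 : a / ((m + 1) * N) * (t / 2) / 4 = a / (160 * C.D) / (m + 1) := by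
    rw [ht]; field_simp; norm_num
  have tl := tilt C.ν C.r1 C.r2 C.hr12 hp S (a / ((m + 1) * N)) (by positivity) m
    (by rw [e0, div_le_iff₀ N0]; nlinarith) (t / 2) {ω | c0 ≤ |Dv ω|}
    ({ω | c0 ≤ |Dv ω|} ∪ BadQ C.r2 R n)ᶜ (measurableSet_le measurable_const mD.abs) (by
      intro ω hω
      simp only [Set.mem_compl_iff, Set.mem_union, Set.mem_ofPred_eq, not_or, not_le] at hω
      obtain ⟨p, q, t', hp', hq', y1, y2, w, hw⟩ := fin ω c0 c00
      obtain ⟨σ, k, rfl, inj, mem, le⟩ := w.trail hp' hq'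
      push_cast at y1 y2
      have x1 : C.X p ≤ 18 / 100 * N := by
        rcases hp' with ⟨z1, z2, z3, z4⟩ | ⟨z1, z2, z3, z4⟩ <;> linarith
      obtain ⟨J, j1, j2⟩ := band C inj x1 (n := n) (R := R) (by linarith)
        (fun j hj => nrm _ (mem j hj)) hω.2
      refine ⟨J.image (ed p σ), fun e he => ?_, ?_, fun e he => ?_, fun ω' o1 o2 o3 => ?_⟩
      · obtain ⟨j, hj, rfl⟩ := mem_image.1 he
        obtain ⟨k1, _, k3, k4⟩ := j2 j hj
        have hz := ed_mem mem k1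
        refine mem_filter.2 ⟨mem_product.2 ⟨mem_box.2 (nrm _ hz), mem_univ _⟩, ?_⟩
        rintro (⟨u1, _⟩ | ⟨u1, _⟩) <;> push_cast at u1
        · rcases hz with ⟨z1, z2, z3, z4⟩ | ⟨z1, z2, z3, z4⟩ <;> linarith
        · linarith
      · rw [card_image_of_injOn (inj.mono fun j hj => (j2 j hj).1)]
        have : (n : ℝ) < 2 * J.card := by exact_mod_cast j1
        linarith
      · obtain ⟨j, hj, rfl⟩ := mem_image.1 he
        exact (j2 j hj).2.1
      · have : 0 < ((J.image (ed p σ)).filter (fun e => ω' e ≤ C.r1)).card := by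
          have : (0 : ℝ) < ((J.image (ed p σ)).filter (fun e => ω' e ≤ C.r1)).card :=
            lt_of_lt_of_le (by positivity) o3
          exact_mod_cast this
        obtain ⟨e, he⟩ := card_pos.1 this
        obtain ⟨he1, he2⟩ := mem_filter.1 he
        obtain ⟨j, hj, rfl⟩ := mem_image.1 he1
        have g := gain C.hr0 (j2 j hj).1 o2 he2 (j2 j hj).2.1
        have h := hw ω' (tm ω' p σ 0 k)
          (fun e he => (o1 e fun hs => (mem_filter.1 hs).2 he).symm)
          ⟨σ, k, fun j _ b => mem j b.le, rfl, rfl⟩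
        have := (abs_lt.1 hω.1).2
        have : c0 ≤ -Dv ω' := by linarith
        exact le_abs.2 (Or.inr this))
  rw [e0, e1, ← hθ] at tl
  have u1 : Real.exp (S.card * (a / N / p0) ^ 2 - m) ≤ Real.exp (1 - m) := by
    rw [Real.exp_le_exp]
    have : 50 * (C.D * N) ^ 2 * (a / N / p0) ^ 2 = 50 / 64 := by rw [ha]; field_simp; norm_num
    have := mul_le_mul_of_nonneg_right cS (sq_nonneg (a / N / p0))
    linarith
  have u2 : 1 ≤ (PP Ed C.ν).real ({ω | c0 ≤ |Dv ω|} ∪ BadQ C.r2 R n)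
      + (PP Ed C.ν).real ({ω | c0 ≤ |Dv ω|} ∪ BadQ C.r2 R n)ᶜ := by
    have := measureReal_union_le (μ := PP Ed C.ν) ({ω | c0 ≤ |Dv ω|} ∪ BadQ C.r2 R n)
      ({ω | c0 ≤ |Dv ω|} ∪ BadQ C.r2 R n)ᶜ
    rwa [Set.union_compl_self, probReal_univ] at this
  have u3 := measureReal_union_le (μ := PP Ed C.ν) {ω | c0 ≤ |Dv ω|} (BadQ C.r2 R n)
  change (PP Ed C.ν).real _ ≤ _ at big
  have u4 : Real.exp 1 * (PP Ed C.ν).real {ω | c0 ≤ |Dv ω|} ≤ 3 * (θ / 16) :=
    mul_le_mul (by linarith [Real.exp_one_lt_d9]) big measureReal_nonneg (by norm_num)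
  have u5 := mul_le_mul_of_nonneg_left (show 1 / 2 ≤ (PP Ed C.ν).real
    ({ω | c0 ≤ |Dv ω|} ∪ BadQ C.r2 R n)ᶜ by linarith) θ0.le
  linarith

end Pool.Agent.P.MP_dcd5d0_pr.SC
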