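import Pool.Agent.P.MP_dcd5d0_pr.SC.St

/-! Choice of the scale. -/

set_option autoImplicit false

open Finset Filter Topology

namespace Pool.Agent.P.MP_dcd5d0_pr.SC

theorem pol : St_Pol := by
  intro M c hc h1 h2 l0
  have t1 : ∀ᶠ N : ℕ in atTop, c⁻¹ ≤ (N : ℝ) ^ (3 / 25 : ℝ) :=
    ((tendsto_rpow_atTop (by norm_num)).comp tendsto_natCast_atTop_atTop).eventually_ge_atTop _
  obtain ⟨l1, hl1⟩ := eventually_atTop.1
    ((h2.and t1).and ((eventually_ge_atTop l0).and (eventually_ge_atTop 1)))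
  obtain ⟨n, hn, hn1, hcn⟩ : ∃ n : ℕ, l1 ^ 2 ≤ n ∧ 1 ≤ n ∧ c ≤ M n := by
    obtain ⟨N, a1, a2, a3⟩ :=
      (h1.and ((eventually_ge_atTop (l1 ^ 2)).and (eventually_ge_atTop 1))).exists
    rcases a1 with a | a
    exacts [⟨N, a2, a3, a⟩, ⟨4 * N, by omega, by omega, a⟩]
  have hn0 : (0 : ℝ) < n := by exact_mod_cast hn1
  have hge : ∀ N, n ≤ N ^ 2 → l1 ≤ N := fun N h =>
    (Nat.pow_le_pow_iff_left two_ne_zero).1 (hn.trans h)
  let w : ℕ → ℝ := fun N => max (((N : ℝ) / n) ^ (4 / 5 : ℝ)) (n / N)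
  have hw : ∀ N : ℕ, 1 ≤ N → 1 ≤ w N := fun N hN => by
    have h0 : (0 : ℝ) < N := by exact_mod_cast hN
    rcases le_total (n : ℝ) N with h | h
    · exact le_max_of_le_left (Real.one_le_rpow ((one_le_div hn0).2 h) (by norm_num))
    · exact le_max_of_le_right ((one_le_div h0).2 h)
  have t2 : ∀ᶠ N : ℕ in atTop, (n : ℝ) ^ (4 / 5 : ℝ) / c ≤ (N : ℝ) ^ (1 / 50 : ℝ) :=
    ((tendsto_rpow_atTop (by norm_num)).comp tendsto_natCast_atTop_atTop).eventually_ge_atTop _
  obtain ⟨B, hB⟩ := eventually_atTop.1 (t2.and (eventually_gt_atTop n))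
  have hnm : n ∈ (range B).filter fun N => n ≤ N ^ 2 :=
    mem_filter.2 ⟨mem_range.2 (not_le.1 fun h => (hB n h).2.false), Nat.le_self_pow two_ne_zero n⟩
  obtain ⟨l, hl, hmax⟩ := exists_max_image _ (fun N => M N / w N) ⟨n, hnm⟩
  obtain ⟨⟨b1, b2⟩, b3, b4⟩ := hl1 l (hge l (mem_filter.1 hl).2)
  have hl0 : (0 : ℝ) < l := by exact_mod_cast b4
  have hwl := hw l b4
  have hcl : c ≤ M l / w l := by
    refine le_trans ?_ (hmax n hnm)
    simpa [w, hn0.ne'] using hcn
  have hMl : c * w l ≤ M l := (le_div_iff₀ (by linarith)).1 hcl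
  have key : ∀ N : ℕ, n ≤ N ^ 2 → ∀ t : ℝ, w N ≤ w l * t → M N ≤ M l * t := by
    intro N hN t ht
    obtain ⟨⟨c1, -⟩, -, c4⟩ := hl1 N (hge N hN)
    have hN0 : (0 : ℝ) < N := by exact_mod_cast c4
    have hwN := hw N c4
    have : M N / w N ≤ M l / w l := by
      by_cases h : N < B
      · exact hmax N (mem_filter.2 ⟨mem_range.2 h, hN⟩)
      · refine le_trans ?_ hcl
        have d1 := (hB N (not_lt.1 h)).1
        rw [div_le_iff₀' hc] at d1
        rw [div_le_iff₀ (by linarith)]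
        refine c1.trans (le_trans ?_ (mul_le_mul_of_nonneg_left (le_max_left _ _) hc.le))
        rw [Real.div_rpow hN0.le hn0.le, ← mul_div_assoc, le_div_iff₀ (by positivity),
          show (4 / 5 : ℝ) = 1 / 50 + 39 / 50 by norm_num, Real.rpow_add hN0, ← mul_assoc,
          mul_comm, show (1 / 50 + 39 / 50 : ℝ) = 4 / 5 by norm_num]
        gcongr
    rw [div_le_iff₀ (by linarith)] at this
    calc _ ≤ M l / w l * (w l * t) := this.trans (mul_le_mul_of_nonneg_left ht (by linarith))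
      _ = _ := by field_simp
  refine ⟨l, b3, le_trans (le_mul_of_one_le_right hc.le hwl) hMl, fun N hN => ?_,
    fun N hN hN' => ?_⟩
  · have hN1 : (l : ℝ) ≤ N := by exact_mod_cast hN
    have h3 : 1 ≤ ((N : ℝ) / l) ^ (4 / 5 : ℝ) :=
      Real.one_le_rpow ((one_le_div hl0).2 hN1) (by norm_num)
    refine key N ((mem_filter.1 hl).2.trans (by gcongr)) _ (max_le ?_ ?_)
    · refine le_trans (le_of_eq ?_) (mul_le_mul_of_nonneg_right (le_max_left _ _) (by positivity))
      rw [← Real.mul_rpow (by positivity) (by positivity)]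
      congr 1
      field_simp
    · refine le_trans ?_ (le_mul_of_one_le_right (by linarith) h3)
      exact le_max_of_le_right (by gcongr)
  · have hN1 : (N : ℝ) ≤ l := by exact_mod_cast hN
    have hN0 : (0 : ℝ) < N := lt_of_lt_of_le (by positivity) hN'
    have h3 : (n : ℝ) ≤ (N : ℝ) ^ 2 := by
      have e1 : c * (n / l) ≤ (l : ℝ) ^ (39 / 50 : ℝ) :=
        (mul_le_mul_of_nonneg_left (le_max_right _ _) hc.le).trans (hMl.trans b1)
      rw [← mul_div_assoc, div_le_iff₀ hl0, ← le_inv_mul_iff₀ hc] at e1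
      calc _ ≤ (l : ℝ) ^ (3 / 25 : ℝ) * ((l : ℝ) ^ (39 / 50 : ℝ) * l) :=
            e1.trans (by gcongr)
        _ = ((l : ℝ) ^ (19 / 20 : ℝ)) ^ 2 := by
          rw [← Real.rpow_add_one hl0.ne', ← Real.rpow_add hl0, ← Real.rpow_natCast,
            ← Real.rpow_mul hl0.le]
          norm_num
        _ ≤ _ := by gcongr
    refine key N (by exact_mod_cast h3) _ (max_le ?_ ?_)
    · refine le_trans ?_ (le_mul_of_one_le_right (by linarith) ((one_le_div hN0).2 hN1))
      exact le_max_of_le_left (by gcongr)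
    · refine le_trans (le_of_eq ?_) (mul_le_mul_of_nonneg_right (le_max_right _ _) (by positivity))
      field_simp

end Pool.Agent.P.MP_dcd5d0_pr.SC
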