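import Pool.Agent.P.MP_dcd5d0_pr.SC.St

/-! Blocking: from one scale to the next. -/

set_option autoImplicit false

open MeasureTheory ProbabilityTheory Finset Function Filter

namespace Pool.Agent.P.MP_dcd5d0_pr.SC

open Ctx

namespace Step

/-- every interior vertex splits the walk -/
lemma refine {ζ : V} {ω : Om} {A : Set V} {p q : V} {y : ℝ} (h : PW ζ ω A p q y) :
    PW ζ ω {w | w ∈ A ∧ ∃ y1 y2, PW ζ ω A p w y1 ∧ PW ζ ω A w q y2 ∧ y1 + y2 = y} p q y := by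
  obtain ⟨σ, k, h1, rfl, h3⟩ := h
  refine ⟨σ, k, fun j a b => ⟨h1 j a b, ?_⟩, rfl, h3⟩
  obtain ⟨e1, e2, e3⟩ := Wk.split_idx ω b.le (A1 := A) (A2 := A)
    (fun i c d => h1 i c (by omega)) (fun i c d => h1 i (by omega) d)
  exact ⟨_, _, e1.pw ζ, e2.pw ζ, by linarith⟩

lemma num_rise {L D θ x y : ℝ} (hL : 0 < L) (h0 : 0 ≤ θ) (h1 : θ ≤ 1 / 40) (hD0 : 0 ≤ D)
    (hD : D ≤ L / 100) (hx : x ≤ L + D) (c : max (-x) (-y) ≤ θ * max |x| |y| + θ * L) :
    -y ≤ 3 * θ * L := by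
  have hθL : 0 ≤ θ * L := mul_nonneg h0 hL.le
  rcases le_total 0 y with hy | hy
  · linarith
  set m := max |x| |y| with hm
  have m0 : 0 ≤ m := (abs_nonneg x).trans (le_max_left _ _)
  have hθm : 0 ≤ θ * m := mul_nonneg h0 m0
  rw [max_le_iff] at c
  have m1 : m ≤ L + D + (θ * m + θ * L) :=
    max_le (abs_le.2 ⟨by linarith, by linarith⟩) (abs_le.2 ⟨by linarith, by linarith⟩)
  have m2 : m ≤ 2 * L := by
    nlinarith [mul_le_mul_of_nonneg_right h1 m0, mul_le_mul_of_nonneg_right h1 hL.le]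
  nlinarith [mul_le_mul_of_nonneg_left m2 h0]

lemma num_piece {L D θ x1 y1 x2 y2 : ℝ} (hL : 0 < L) (h0 : 0 ≤ θ) (h1 : θ ≤ 1 / 40) (hD0 : 0 ≤ D)
    (hD : D ≤ L / 100) (hx1 : x1 ≤ L) (hx2 : 0 ≤ x2) (hx : x1 + x2 ≤ L + D) (hy : y1 + y2 ≤ L / 4)
    (c1 : max (-x1) (-y1) ≤ θ * max |x1| |y1| + θ * L)
    (c2 : max (-x2) (-y2) ≤ θ * max |x2| |y2| + θ * L) :
    -x1 ≤ 3 * θ * L ∧ -y1 ≤ 3 * θ * L ∧ -y2 ≤ 3 * θ * L := by
  have hθL : 0 ≤ θ * L := mul_nonneg h0 hL.le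
  set m := max (max |x1| |y1|) (max |x2| |y2|) with hm
  have m0 : 0 ≤ m := ((abs_nonneg x1).trans (le_max_left _ _)).trans (le_max_left _ _)
  have hθm : 0 ≤ θ * m := mul_nonneg h0 m0
  have d1 := mul_le_mul_of_nonneg_left (le_max_left (max |x1| |y1|) (max |x2| |y2|)) h0
  have d2 := mul_le_mul_of_nonneg_left (le_max_right (max |x1| |y1|) (max |x2| |y2|)) h0
  rw [← hm] at d1 d2
  rw [max_le_iff] at c1 c2
  have m1 : m ≤ L + D + (θ * m + θ * L) :=
    max_le (max_le (abs_le.2 ⟨by linarith, by linarith⟩) (abs_le.2 ⟨by linarith, by linarith⟩))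
      (max_le (abs_le.2 ⟨by linarith, by linarith⟩) (abs_le.2 ⟨by linarith, by linarith⟩))
  have m2 : m ≤ 2 * L := by
    nlinarith [mul_le_mul_of_nonneg_right h1 m0, mul_le_mul_of_nonneg_right h1 hL.le]
  have m3 := mul_le_mul_of_nonneg_left m2 h0
  refine ⟨?_, ?_, ?_⟩ <;> nlinarith

lemma psi_mono {L x0 x x' : ℝ} (h : x ≤ x') :
    max 0 (min (23 * L) (x0 + 23 * L - x')) ≤ max 0 (min (23 * L) (x0 + 23 * L - x)) :=
  max_le_max le_rfl (min_le_min le_rfl (by linarith))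

lemma psi_drop {L x0 x x' : ℝ} (h1 : x0 ≤ x) (h2 : x ≤ x0 + 22 * L) (h : x + L ≤ x') :
    max 0 (min (23 * L) (x0 + 23 * L - x')) + L ≤ max 0 (min (23 * L) (x0 + 23 * L - x)) := by
  refine le_trans ?_ (le_max_right _ _)
  rw [min_eq_right (by linarith : x0 + 23 * L - x ≤ 23 * L)]
  have : max 0 (min (23 * L) (x0 + 23 * L - x')) ≤ x0 + 22 * L - x :=
    max_le (by linarith) ((min_le_right _ _).trans (by linarith))
  linarith

/-- the counting argument -/
lemma core (C : Ctx) {ζ : V} {ω : Om} {A : Set V} {q : V} {L h σ P Y x0 : ℝ} (hL : 0 < L)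
    (hh : 0 < h) (hσ0 : 0 ≤ σ) (hσ : σ ≤ h / 4) (hP : 0 < P) (hq : q ∈ A)
    (rise : ∀ z z' y, z ∈ A → z' ∈ A → PW ζ ω A z z' y → y ≤ Y → C.X z' - C.X z ≤ L + C.D →
      -(h * L / 8) ≤ C.Y z' - C.Y z)
    (low : ∀ z z' y, z ∈ A → z' ∈ A → PW ζ ω (A ∩ {w | C.X w < C.X z + L}) z z' y → y ≤ Y →
      L ≤ C.X z' - C.X z → C.X z' - C.X z ≤ L + C.D → C.Y z' - C.Y z ≤ σ * L →
      (C.X z < x0 ∨ x0 + 22 * L < C.X z) → P / 2 ≤ y) (n : ℕ) :
    ∀ z y, z ∈ A → C.X q - C.X z < n * L → PW ζ ω A z q y → y ≤ Y →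
      σ * L / (L + C.D) * (C.X q - C.X z) - (C.Y q - C.Y z)
        ≤ 3 * h / 8 * (L + 2 * L / P * y + max 0 (min (23 * L) (x0 + 23 * L - C.X z))) := by
  have hD := C.D1
  set k := σ * L / (L + C.D) with hk
  have k0 : 0 ≤ k := by positivity
  have k1 : ∀ x, x ≤ L + C.D → k * x ≤ σ * L := fun x hx => by
    have := mul_le_mul_of_nonneg_left hx k0
    rwa [hk, div_mul_cancel₀ _ (by linarith : L + C.D ≠ 0)] at this
  have s1 : σ * L ≤ h * L / 4 := by nlinarith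
  have c0 : 0 ≤ 3 * h / 8 := by positivity
  have c1 : 0 ≤ 2 * L / P := by positivity
  have fin : ∀ z y, z ∈ A → C.X q - C.X z < L → PW ζ ω A z q y → y ≤ Y →
      k * (C.X q - C.X z) - (C.Y q - C.Y z)
        ≤ 3 * h / 8 * (L + 2 * L / P * y + max 0 (min (23 * L) (x0 + 23 * L - C.X z))) := by
    intro z y hz h1 h2 h3
    have a1 := k1 (C.X q - C.X z) (by linarith)
    have a2 := rise z q y hz hq h2 h3 (by linarith)
    have a3 : L ≤ L + 2 * L / P * y + max 0 (min (23 * L) (x0 + 23 * L - C.X z)) := by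
      have := mul_nonneg c1 h2.nonneg
      have := le_max_left 0 (min (23 * L) (x0 + 23 * L - C.X z))
      linarith
    have := mul_le_mul_of_nonneg_left a3 c0
    linarith
  induction n with
  | zero => intro z y hz h1; exact fin z y hz (by simp at h1; linarith)
  | succ n ih =>
    intro z y hz h1 h2 h3
    rcases lt_or_ge (C.X q - C.X z) L with hf | hf
    · exact fin z y hz hf h2 h3
    obtain ⟨z', y1, y2, b1, b2, b3, b4, b5, b6⟩ :=
      h2.first_ge C.X C.upX (a := C.X z + L) (by linarith) (by linarith)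
    have hz' : z' ∈ A := by
      rcases b6 with e | e | e
      · rw [e]; exact hz
      · rw [e]; exact hq
      · exact e
    have n1 := b1.nonneg
    have n2 := b2.nonneg
    have IH := ih z' y2 hz' (by push_cast at h1; linarith) b2 (by linarith)
    have a1 := k1 (C.X z' - C.X z) (by linarith)
    have a2 := rise z z' y1 hz hz' (b1.mono Set.inter_subset_left) (by linarith) (by linarith)
    have pm := psi_mono (L := L) (x0 := x0) (show C.X z ≤ C.X z' by linarith)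
    have ym : 2 * L / P * y2 ≤ 2 * L / P * y := mul_le_mul_of_nonneg_left (by linarith) c1
    have e : k * (C.X q - C.X z) = k * (C.X q - C.X z') + k * (C.X z' - C.X z) := by ring
    rcases lt_or_ge (σ * L) (C.Y z' - C.Y z) with hr | hr
    · have := mul_le_mul_of_nonneg_left (add_le_add (add_le_add (le_refl L) ym) pm) c0
      linarith
    · have key : L + 2 * L / P * y2 + max 0 (min (23 * L) (x0 + 23 * L - C.X z')) + L
          ≤ L + 2 * L / P * y + max 0 (min (23 * L) (x0 + 23 * L - C.X z)) := by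
        by_cases hx : C.X z < x0 ∨ x0 + 22 * L < C.X z
        · have l1 := low z z' y1 hz hz' b1 (by linarith) (by linarith) (by linarith) hr hx
          have l2 := mul_le_mul_of_nonneg_left l1 c1
          have l3 : 2 * L / P * (P / 2) = L := by field_simp
          have l4 : 2 * L / P * y = 2 * L / P * y1 + 2 * L / P * y2 := by rw [← b3]; ring
          linarith
        · rw [not_or, not_lt, not_lt] at hx
          have := psi_drop hx.1 hx.2 b4
          linarith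
      have := mul_le_mul_of_nonneg_left key c0
      linarith

/-- centre of a box -/
noncomputable def ctr (C : Ctx) (L h : ℝ) (β : ℤ × ℤ) : V :=
  (C.near (β.1 * (L / 2)) (β.2 * (h * L / 4))).choose

lemma ctr_spec (C : Ctx) (L h : ℝ) (β : ℤ × ℤ) : |C.X (ctr C L h β) - β.1 * (L / 2)| ≤ C.D ∧
    |C.Y (ctr C L h β) - β.2 * (h * L / 4)| ≤ C.D :=
  (C.near (β.1 * (L / 2)) (β.2 * (h * L / 4))).choose_spec

lemma grid {x d : ℝ} {n : ℕ} (hd : 0 < d) (hx : |x| ≤ n * d) :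
    ∃ i ∈ Icc (-(n : ℤ)) n, i * d ≤ x ∧ x ≤ i * d + d := by
  rw [abs_le] at hx
  have h1 := Int.floor_le (x / d)
  have h2 := Int.lt_floor_add_one (x / d)
  rw [le_div_iff₀ hd] at h1
  rw [div_lt_iff₀ hd] at h2
  refine ⟨⌊x / d⌋, mem_Icc.2 ⟨?_, ?_⟩, h1, by linarith⟩
  · rw [Int.le_floor, le_div_iff₀ hd]; push_cast; linarith
  · have : x / d ≤ n := by rw [div_le_iff₀ hd]; linarith
    exact_mod_cast (Int.floor_le (x / d)).trans this

/-- a cheap piece with small rise lies in a box -/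
lemma piece (C : Ctx) {ζ : V} {ω : Om} {A : Set V} {L h σ Y y : ℝ} {z z' c : V} (hL : 0 < L)
    (hh : 0 < h) (hh1 : h ≤ 1) (sL : σ * L ≤ h * L / 4) (hD : 100 * C.D ≤ h * L)
    (cheap : ∀ z z' y, z ∈ A → z' ∈ A → PW ζ ω Set.univ z z' y → y ≤ Y →
      max (-(C.X z' - C.X z)) (-(C.Y z' - C.Y z))
        ≤ h / 40 * max |C.X z' - C.X z| |C.Y z' - C.Y z| + h / 40 * L)
    (hz : z ∈ A) (hz' : z' ∈ A) (w : PW ζ ω (A ∩ {w | C.X w < C.X z + L}) z z' y) (hy : y ≤ Y)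
    (hx1 : L ≤ C.X z' - C.X z) (hx2 : C.X z' - C.X z ≤ L + C.D) (hr : C.Y z' - C.Y z ≤ σ * L)
    (c1 : -C.D ≤ C.X z - C.X c) (c2 : C.X z - C.X c ≤ L / 2 + C.D)
    (c3 : -C.D ≤ C.Y z - C.Y c) (c4 : C.Y z - C.Y c ≤ h * L / 4 + C.D) :
    Pi ((C.BX L h σ).shift c) ζ ω ≤ y := by
  have hD1 := C.D1
  have hhL : h * L ≤ L := mul_le_of_le_one_left hL.le hh1
  have θ0 : 0 ≤ h / 40 := by positivity
  have θ1 : h / 40 ≤ 1 / 40 := by linarith
  have e3 : 3 * (h / 40) * L = 3 / 40 * (h * L) := by ring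
  have r0 := num_rise hL θ0 θ1 (by linarith) (by linarith) hx2
    (cheap z z' y hz hz' (w.mono (Set.subset_univ _)) hy)
  rw [e3] at r0
  refine Pi_le (p := z) (q := z') ?_ ?_
  · simp only [Cl.shift, BX, map_sub]
    clear cheap
    generalize h * L = u at *
    generalize σ * L = v at *
    exact ⟨⟨abs_le.2 ⟨by linarith, by linarith⟩, abs_le.2 ⟨by linarith, by linarith⟩⟩,
      ⟨abs_le.2 ⟨by linarith, by linarith⟩, abs_le.2 ⟨by linarith, by linarith⟩⟩,
      by linarith, by linarith⟩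
  · refine (refine w).mono ?_
    rintro v ⟨⟨v1, v2⟩, y1, y2, w1, w2, e⟩
    simp only [Set.mem_ofPred_eq] at v2
    have n1 := w1.nonneg
    have n2 := w2.nonneg
    have f1 := cheap z v y1 hz v1 (w1.mono (Set.subset_univ _)) (by linarith)
    have f2 := cheap v z' y2 v1 hz' (w2.mono (Set.subset_univ _)) (by linarith)
    clear cheap
    obtain ⟨d1, d2, d3⟩ := num_piece (D := C.D) hL θ0 θ1 (by linarith) (by linarith)
      (by linarith) (by linarith) (by linarith) (by linarith) f1 f2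
    rw [e3] at d1 d2 d3
    simp only [Cl.shift, BX, map_sub, Set.mem_ofPred_eq]
    clear f1 f2
    generalize h * L = u at *
    generalize σ * L = v at *
    exact ⟨abs_le.2 ⟨by linarith, by linarith⟩, abs_le.2 ⟨by linarith, by linarith⟩⟩

lemma num_fin {L D h σ σ' P b y dx dy ψ : ℝ} (hL : 0 < L) (hD : 1 ≤ D) (hh : 0 < h)
    (hσ0 : 0 ≤ σ') (hb : 5 ≤ b) (hσ' : σ' + h / b ^ 2 ≤ σ) (hσ : σ ≤ h / 4) (hP : 0 < P)
    (hbD : b ^ 20 * D ≤ L) (hlt : y < b ^ 17 * P) (r1 : b ^ 20 * (L + D) ≤ dx)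
    (r2 : dy ≤ σ' * (b ^ 20 * (L + D))) (a3 : ψ ≤ 23 * L)
    (H : σ * L / (L + D) * dx - dy ≤ 3 * h / 8 * (L + 2 * L / P * y + ψ)) : False := by
  have b0 : 0 < b := by linarith
  have p0 : 0 < h / b ^ 2 := by positivity
  have hσ1 : 0 ≤ σ := by linarith
  have k0 : 0 ≤ σ * L / (L + D) := by positivity
  have a1 := mul_le_mul_of_nonneg_left r1 k0
  have a2 : σ * L / (L + D) * (b ^ 20 * (L + D)) = b ^ 20 * (σ * L) := by field_simp
  have a4 : 2 * L / P * y ≤ 2 * L * b ^ 17 := by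
    have := mul_le_mul_of_nonneg_left hlt.le (show 0 ≤ 2 * L / P by positivity)
    refine this.trans (le_of_eq ?_)
    field_simp
  have a5 := mul_le_mul_of_nonneg_left (add_le_add (add_le_add (le_refl L) a4) a3)
    (show 0 ≤ 3 * h / 8 by positivity)
  have a6 : b ^ 20 * ((σ' + h / b ^ 2) * L) ≤ b ^ 20 * (σ * L) := by gcongr
  have a7 : b ^ 20 * ((σ' + h / b ^ 2) * L) = b ^ 20 * σ' * L + b ^ 18 * (h * L) := by
    field_simp
  have a8 : σ' * (b ^ 20 * (L + D)) = b ^ 20 * σ' * L + σ' * (b ^ 20 * D) := by ring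
  have a9 : σ' * (b ^ 20 * D) ≤ h / 4 * L :=
    mul_le_mul (by linarith) hbD (by positivity) (by positivity)
  have b17 : 5 ≤ b ^ 17 := hb.trans (le_self_pow₀ (by linarith) (by norm_num))
  have b18 : 5 * b ^ 17 ≤ b ^ 18 := by rw [pow_succ b 17]; nlinarith
  have hL0 : 0 < h * L := mul_pos hh hL
  have a10 : 5 * b ^ 17 * (h * L) ≤ b ^ 18 * (h * L) := by gcongr
  have a11 : 5 * (h * L) ≤ b ^ 17 * (h * L) := by gcongr
  have a12 : 3 * h / 8 * (L + 2 * L * b ^ 17 + 23 * L)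
      = 9 * (h * L) + 3 / 4 * (b ^ 17 * (h * L)) := by ring
  have a13 : 5 * b ^ 17 * (h * L) = 5 * (b ^ 17 * (h * L)) := by ring
  have a14 : h / 4 * L = h * L / 4 := by ring
  linarith

/-- the deterministic part -/
lemma det (C : Ctx) {ζ : V} {ω : Om} {L h σ σ' P b x0 : ℝ} {n : ℕ} (hL : 0 < L) (hh : 0 < h)
    (hh1 : h ≤ 1) (hσ0 : 0 ≤ σ') (hb : 5 ≤ b) (hσ' : σ' + h / b ^ 2 ≤ σ) (hσ : σ ≤ h / 4)
    (hP : 0 < P) (hD : 100 * C.D ≤ h * L) (hbD : b ^ 20 * C.D ≤ L)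
    (hn : 4 * (b ^ 20 + 1) ≤ n)
    (cheap : ∀ z z' y, z ∈ (C.BX (b ^ 20 * (L + C.D)) h σ').A →
      z' ∈ (C.BX (b ^ 20 * (L + C.D)) h σ').A → PW ζ ω Set.univ z z' y → y ≤ b ^ 17 * P →
      max (-(C.X z' - C.X z)) (-(C.Y z' - C.Y z))
        ≤ h / 40 * max |C.X z' - C.X z| |C.Y z' - C.Y z| + h / 40 * L)
    (closed : ∀ β ∈ Icc (-(n : ℤ)) n ×ˢ Icc (-(n : ℤ)) n,
      (C.X (ctr C L h β) < x0 ∨ x0 + 20 * L < C.X (ctr C L h β)) →
        P / 2 ≤ Pi ((C.BX L h σ).shift (ctr C L h β)) ζ ω) :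
    b ^ 17 * P ≤ Pi (C.BX (b ^ 20 * (L + C.D)) h σ') ζ ω := by
  have hD1 := C.D1
  have hhL : h * L ≤ L := mul_le_of_le_one_left hL.le hh1
  have b0 : 0 < b := by linarith
  have b20 : 1 ≤ b ^ 20 := one_le_pow₀ (by linarith)
  have l1 : L ≤ b ^ 20 * (L + C.D) := by nlinarith
  have l2 : b ^ 20 * (L + C.D) ≤ n * (L / 4) := by nlinarith
  have l3 : h * L ≤ h * (b ^ 20 * (L + C.D)) := mul_le_mul_of_nonneg_left l1 hh.le
  have l4 : h * (b ^ 20 * (L + C.D)) ≤ n * (h * L / 4) :=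
    (mul_le_mul_of_nonneg_left l2 hh.le).trans (le_of_eq (by ring))
  have hσ1 : 0 ≤ σ := by
    have : 0 < h / b ^ 2 := by positivity
    linarith
  have sL : σ * L ≤ h * L / 4 := by nlinarith
  refine le_Pi (BX_ne hh1 (by linarith) (by linarith) hσ0) fun p q y hR hW => ?_
  by_contra hlt
  rw [not_le] at hlt
  obtain ⟨n', hn'⟩ := exists_nat_gt ((C.X q - C.X p) / L)
  rw [div_lt_iff₀ hL] at hn'
  refine num_fin hL hD1 hh hσ0 hb hσ' hσ hP hbD hlt hR.2.2.1 hR.2.2.2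
    (max_le (by linarith) (min_le_left _ _))
    (core C (ζ := ζ) (ω := ω) (A := (C.BX (b ^ 20 * (L + C.D)) h σ').A) (q := q) (Y := b ^ 17 * P)
      (x0 := x0 - L) hL hh hσ1 hσ hP hR.2.1 ?_ ?_ n' p y hR.1 hn' hW hlt.le)
  · intro z z' y hz hz' w hy hx
    have := num_rise hL (by positivity : 0 ≤ h / 40) (by linarith) (by linarith) (by linarith) hx
      (cheap z z' y hz hz' (w.mono (Set.subset_univ _)) hy)
    have e3 : 3 * (h / 40) * L = 3 / 40 * (h * L) := by ring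
    linarith
  · intro z z' y hz hz' w hy hx1 hx2 hr hx
    obtain ⟨i, hi, i1, i2⟩ := grid (x := C.X z) (d := L / 2) (n := n) (by linarith)
      (hz.1.trans (by linarith))
    obtain ⟨j, hj, j1, j2⟩ := grid (x := C.Y z) (d := h * L / 4) (n := n) (by positivity)
      (hz.2.trans l4)
    obtain ⟨c1, c2⟩ := ctr_spec C L h (i, j)
    rw [abs_le] at c1 c2
    simp only at c1 c2
    refine (closed (i, j) (mem_product.2 ⟨hi, hj⟩) ?_).trans (piece C hL hh hh1 sL hD cheap hz hz'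
      w hy hx1 hx2 hr (by linarith [c1.2]) (by linarith [c1.1]) (by linarith [c2.2])
      (by linarith [c2.1]))
    rcases hx with hx | hx
    · left; linarith [c1.2]
    · right; linarith [c1.1]

lemma rp99 {S t : ℝ} (ht : 1 ≤ t) (h0 : 0 ≤ S) (hS : S ≤ 4 * t ^ 201) :
    S ^ (99 / 100 : ℝ) ≤ 4 * t ^ 199 := by
  refine (Real.rpow_le_rpow h0 hS (by norm_num)).trans ?_
  rw [Real.mul_rpow (by norm_num) (by positivity), ← Real.rpow_natCast t 201,
    ← Real.rpow_mul (by linarith), ← Real.rpow_natCast t 199]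
  refine mul_le_mul ?_ (Real.rpow_le_rpow_of_exponent_le ht (by norm_num)) (by positivity)
    (by norm_num)
  exact (Real.rpow_le_rpow_of_exponent_le (by norm_num) (by norm_num : (99 / 100 : ℝ) ≤ 1)).trans
    (by simp)

end Step

open Step in
theorem step (hL : St_Loc) (hU : St_UBL) : St_Step := by
  intro C h hh hh1
  have hD := C.D1
  obtain ⟨κ, κ0, hκ⟩ := C.cone (h / 40) (by positivity)
  obtain ⟨S0, hS0⟩ := eventually_atTop.1 (hU C)
  have t1 : Tendsto (fun L : ℝ => 2 * L) atTop atTop := tendsto_id.const_mul_atTop two_pos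
  have t2 : Tendsto (fun L : ℝ => L ^ (1 / 200 : ℝ)) atTop atTop := tendsto_rpow_atTop (by norm_num)
  filter_upwards [t1.eventually (hL C), eventually_ge_atTop S0, eventually_ge_atTop (1 : ℝ),
    eventually_ge_atTop (100 * C.D / h), t2.eventually_ge_atTop C.D,
    t2.eventually_ge_atTop (9 / (κ * (h / 40)))] with L loc hLS hL1 hLD hDt hκt
  intro a σ σ' P q e ha haL s1 s2 s3 hP hPL he hB
  have L0 : 0 < L := by linarith
  obtain ⟨t, ht, t0⟩ : ∃ t : ℝ, L ^ (1 / 200 : ℝ) = t ∧ L = t ^ 200 :=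
    ⟨_, rfl, by rw [← Real.rpow_natCast, ← Real.rpow_mul L0.le]; norm_num⟩
  rw [ht] at hDt hκt
  have t1 : 1 ≤ t := hD.trans hDt
  rw [div_le_iff₀ hh] at hLD
  rw [div_le_iff₀ (by positivity)] at hκt
  have hb : (5 : ℝ) ≤ a := by exact_mod_cast ha
  set b : ℝ := (a : ℝ) with hbdef
  have b20 : b ^ 20 ≤ t := by
    rw [t0, show 4000 = 20 * 200 by norm_num, pow_mul] at haL
    exact (pow_le_pow_iff_left₀ (by positivity) (by linarith) (by norm_num)).1 haL
  have b1 : 1 ≤ b ^ 20 := one_le_pow₀ (by linarith)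
  have hbD : b ^ 20 * C.D ≤ L := by
    calc b ^ 20 * C.D ≤ t * t := by gcongr
      _ = t ^ 2 := by ring
      _ ≤ t ^ 200 := pow_le_pow_right₀ t1 (by norm_num)
      _ = L := t0.symm
  have hhL : h * L ≤ L := mul_le_of_le_one_left L0.le hh1
  have hDL : C.D ≤ L := by linarith
  set L' := b ^ 20 * (L + C.D) with hL'
  have l1 : L ≤ L' := by nlinarith
  have hS : 2 * L' ≤ 4 * t ^ 201 := by
    calc 2 * L' ≤ 2 * (t * (L + L)) := by rw [hL']; gcongr
      _ = 4 * t ^ 201 := by rw [t0]; ring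
  have hP' : b ^ 17 * P ≤ t ^ 199 := by
    have e1 : L ^ (4 / 5 : ℝ) = t ^ 160 := by
      rw [t0, ← Real.rpow_natCast t 200, ← Real.rpow_mul (by linarith), ← Real.rpow_natCast]
      norm_num
    calc b ^ 17 * P ≤ t * t ^ 160 := by
          refine mul_le_mul ((pow_le_pow_right₀ (by linarith) (by norm_num)).trans b20)
            (e1 ▸ hPL) hP.le (by linarith)
      _ = t ^ 161 := by ring
      _ ≤ t ^ 199 := pow_le_pow_right₀ t1 (by norm_num)
  have h9 : 9 * t ^ 199 ≤ κ * (h / 40 * L) := by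
    calc 9 * t ^ 199 ≤ t * (κ * (h / 40)) * t ^ 199 := by gcongr
      _ = κ * (h / 40 * L) := by rw [t0]; ring
  have σ0 : 0 ≤ σ := by
    have : 0 < h / b ^ 2 := by positivity
    linarith
  have ne : (C.BX L h σ).NE := BX_ne hh1 (by linarith) L0.le σ0
  have := fun β : ℤ × ℤ => loc (C.X (ctr C L h β)) (C.Y (ctr C L h β))
    ((C.BX L h σ).shift (ctr C L h β)) (ne.shift _)
    (by
      simp only [Cl.shift, BX, map_sub, Set.mem_ofPred_eq]
      exact fun z hz => ⟨hz.1, by linarith [hz.2]⟩)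
    (by
      simp only [Cl.shift, BX, map_sub]
      exact fun p q hz => ⟨⟨hz.1.1, by linarith [hz.1.2]⟩, ⟨hz.2.1.1, by linarith [hz.2.1.2]⟩⟩)
  choose E Xl e1 e2 e3 e4 e5 e6 using this
  rw [show 4 * (2 * L) = 8 * L by ring] at e3
  have mk : ∀ β, C.SP (fun ζ => {ω | P / 4 ≤ E β ζ ω}) ≤ 4 * e / P := fun β => by
    refine (SP_markov (e1 β) (e2 β) (by positivity)).trans ?_
    rw [div_le_div_iff₀ (by positivity) hP]
    nlinarith [e3 β]
  have op : ∀ β, C.Pm.real {ω | Xl β ω < 3 * P / 4} ≤ q + 4 * e / P := fun β => by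
    rw [← SP_indep]
    refine (SP_le_add (B := fun ζ => {ω | Pi ((C.BX L h σ).shift (ctr C L h β)) ζ ω ∈ Set.Iio P})
      (B' := fun ζ => {ω | P / 4 ≤ E β ζ ω}) ((e6 β).mono fun ζ hζ ω hω => ?_)).trans
      (add_le_add ?_ (mk β))
    · have := abs_le.1 (hζ ω)
      simp only [Set.mem_ofPred_eq, Set.mem_Iio] at hω ⊢
      by_contra hc
      rw [not_or, not_lt, not_le] at hc
      linarith
    · rw [SP_Pi_shift ne measurableSet_Iio]; exact hB
  obtain ⟨n, hn'⟩ : ∃ n : ℕ, (n : ℝ) = 5 * b ^ 20 := ⟨5 * a ^ 20, by push_cast; rfl⟩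
  set I := Icc (-(n : ℤ)) n ×ˢ Icc (-(n : ℤ)) n with hI
  have cI : (I.card : ℝ) ≤ 400 * b ^ 40 := by
    have : (Icc (-(n : ℤ)) n).card = 2 * n + 1 := by rw [Int.card_Icc]; omega
    rw [hI, card_product, this]
    push_cast
    rw [hn', show b ^ 40 = b ^ 20 * b ^ 20 by ring]
    nlinarith
  set J := (I ×ˢ I).filter
    (fun g => C.X (ctr C L h g.1) + 20 * L < C.X (ctr C L h g.2)) with hJ
  have cJ : (J.card : ℝ) ≤ (400 * b ^ 40) ^ 2 := by
    have : J.card ≤ I.card * I.card := (card_filter_le _ _).trans (card_product _ _).le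
    have h2 : (J.card : ℝ) ≤ I.card * I.card := by exact_mod_cast this
    refine h2.trans ?_
    rw [pow_two]
    exact mul_le_mul cI cI (Nat.cast_nonneg _) ((Nat.cast_nonneg _).trans cI)
  have e0 : 0 ≤ 4 * e / P := (SP_nonneg _).trans (mk (0, 0))
  have q0 : 0 ≤ q + 4 * e / P := measureReal_nonneg.trans (op (0, 0))
  have far := Far.finset (C := C) I fun β _ => e6 β
  refine (SP_le_add (B := fun ζ => {ω | ∃ β ∈ I, ω ∈ {ω | P / 4 ≤ E β ζ ω}} ∪
      {ω | ∃ g ∈ J, ω ∈ {ω | Xl g.1 ω < 3 * P / 4} ∩ {ω | Xl g.2 ω < 3 * P / 4}})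
    (B' := fun ζ => {ω | ¬ C.Good (2 * L') ζ ω}) (far.mono fun ζ hζ ω hω => ?_)).trans
    (add_le_add ((SP_union _ _).trans (add_le_add ?_ ?_)) ?_)
  · by_contra hc
    simp only [Set.mem_union, Set.mem_ofPred_eq, Set.mem_inter_iff, not_or, not_exists, not_and,
      not_not, not_le, not_lt] at hc hω
    obtain ⟨⟨c1, c2⟩, c3⟩ := hc
    obtain ⟨x0, hx0⟩ : ∃ x0 : ℝ, ∀ β ∈ I, Xl β ω < 3 * P / 4 →
        x0 ≤ C.X (ctr C L h β) ∧ C.X (ctr C L h β) ≤ x0 + 20 * L := by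
      rcases (I.filter fun β => Xl β ω < 3 * P / 4).eq_empty_or_nonempty with h0 | h0
      · exact ⟨0, fun β a b => absurd (mem_filter.2 ⟨a, b⟩) (h0 ▸ notMem_empty β)⟩
      · obtain ⟨β0, m1, m2⟩ := exists_min_image _ (fun β => C.X (ctr C L h β)) h0
        rw [mem_filter] at m1
        refine ⟨C.X (ctr C L h β0), fun β a b => ⟨m2 β (mem_filter.2 ⟨a, b⟩), ?_⟩⟩
        by_contra hc
        exact absurd b (not_lt.2 (c2 (β0, β)
          (mem_filter.2 ⟨mem_product.2 ⟨m1.1, a⟩, not_le.1 hc⟩) m1.2))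
    refine absurd hω (not_lt.2 (det C (x0 := x0) (n := n) L0 hh hh1 (by linarith) hb s2 s3 hP
      (by linarith) hbD ?_ ?_ ?_))
    · have : 5 ≤ b ^ 20 := hb.trans (le_self_pow₀ (by linarith) (by norm_num))
      rw [hn']; linarith
    · intro z z' y hz hz' w hy
      have hL2 : h * L' ≤ 2 * L' := by nlinarith
      obtain ⟨g1, g2⟩ := c3 z z' hz.1 (hz.2.trans hL2) hz'.1 (hz'.2.trans hL2)
      have g3 := Wk.T_le w
      have g4 := hκ (z' - z)
      have g5 := rp99 t1 (by linarith) hS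
      simp only [map_sub] at g1 g4
      have g6 : κ * (max (-(C.X z' - C.X z)) (-(C.Y z' - C.Y z))
          - h / 40 * max |C.X z' - C.X z| |C.Y z' - C.Y z|) ≤ κ * (h / 40 * L) := by linarith
      have := le_of_mul_le_mul_left g6 κ0
      linarith
    · intro β hβ hx
      have a1 := abs_le.1 (hζ β hβ ω)
      have a2 := c1 β hβ
      have a3 : 3 * P / 4 ≤ Xl β ω := by
        by_contra hc
        have := hx0 β hβ (not_le.1 hc)
        rcases hx with hx | hx <;> linarith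
      linarith
  · refine (SP_biUnion I fun β ζ => {ω | P / 4 ≤ E β ζ ω}).trans
      ((sum_le_card_nsmul _ _ _ fun β _ => mk β).trans ?_)
    rw [nsmul_eq_mul]; gcongr
  · refine (SP_biUnion J fun g _ => {ω | Xl g.1 ω < 3 * P / 4} ∩ {ω | Xl g.2 ω < 3 * P / 4}).trans
      ((sum_le_card_nsmul _ _ ((q + 4 * e / P) ^ 2) fun g hg => ?_).trans ?_)
    · have hg' := (mem_filter.1 hg).2
      have lc : ∀ β, Loc {z | |C.X z - C.X (ctr C L h β)| ≤ 5 * (2 * L)}
          (· ∈ {ω | Xl β ω < 3 * P / 4}) := fun β ω ω' hω => by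
        simp only [Set.mem_ofPred_eq, e5 β ω ω' hω]
      rw [SP_indep]
      unfold Pm
      rw [Loc.inter ?_ (measurableSet_lt (e4 _) measurable_const)
        (measurableSet_lt (e4 _) measurable_const) (lc g.1) (lc g.2), pow_two]
      · exact mul_le_mul (op g.1) (op g.2) measureReal_nonneg q0
      · refine Set.disjoint_left.2 fun z z1 z2 => ?_
        simp only [Set.mem_ofPred_eq, abs_le] at z1 z2
        linarith [z1.2, z2.1]
    · rw [nsmul_eq_mul]; gcongr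
  · refine (hS0 _ (by linarith)).trans ?_
    exact Real.rpow_le_rpow_of_nonpos L0 (by linarith) (by norm_num)

end Pool.Agent.P.MP_dcd5d0_pr.SC
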