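import Pool.Agent.P.MP_dcd5d0_pr.SC.St

/-! Tails of long thin crossings. -/

set_option autoImplicit false

open MeasureTheory ProbabilityTheory Finset Function Filter

namespace Pool.Agent.P.MP_dcd5d0_pr.SC

open Ctx

namespace Tail

lemma ev_m : ∀ᶠ l : ℕ in atTop, ∀ m : ℕ, (2 : ℝ) ^ m ≤ (l : ℝ) ^ 3 →
    (m : ℝ) ≤ l ∧ (m : ℝ) ≤ 4 * (l : ℝ) ^ (1 / 20 : ℝ) := by
  have h1 := (isLittleO_log_rpow_atTop (r := 1 / 20) (by norm_num)).bound (c := 1 / 5) (by norm_num)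
  filter_upwards [tendsto_natCast_atTop_atTop.eventually h1, eventually_ge_atTop 1] with l h hl m hm
  have hl1 : (1 : ℝ) ≤ l := by exact_mod_cast hl
  have h0 := Real.log_nonneg hl1
  have hp : (0 : ℝ) ≤ (l : ℝ) ^ (1 / 20 : ℝ) := by positivity
  rw [Real.norm_eq_abs, Real.norm_eq_abs, abs_of_nonneg h0, abs_of_nonneg hp] at h
  have h2 := Real.log_le_log (by positivity) hm
  rw [Real.log_pow, Real.log_pow] at h2
  have h3 := Real.log_two_gt_d9
  have h4 : (m : ℝ) ≤ (l : ℝ) ^ (1 / 20 : ℝ) := by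
    have : (0 : ℝ) ≤ m := Nat.cast_nonneg m
    push_cast at h2
    nlinarith
  have h5 : (l : ℝ) ^ (1 / 20 : ℝ) ≤ l := Real.rpow_le_self_of_one_le hl1 (by norm_num)
  constructor <;> linarith

lemma rpow_le_max {x b : ℝ} (hx : 0 ≤ x) (h1 : 1 ≤ b) (h2 : x ≤ b) : x ^ (4 / 5 : ℝ) ≤ b :=
  (Real.rpow_le_rpow hx h2 (by norm_num)).trans (Real.rpow_le_self_of_one_le h1 (by norm_num))

/-- the envelope seen from a nearby scale -/
lemma env {C : Ctx} {c : ℝ} {l N : ℕ} (hc : 0 < c) (hE : Env C c l) {b : ℝ} (hb : 1 ≤ b)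
    (hl : 0 < l) (hN : 0 < N) (h1 : (N : ℝ) ≤ b * l) (h2 : (l : ℝ) ≤ b * N)
    (h3 : (l : ℝ) ^ (19 / 20 : ℝ) ≤ N) (N' : ℕ) (hN' : N ≤ N') :
    C.M N' ≤ b * C.M l * ((N' : ℝ) / N) ^ (4 / 5 : ℝ) := by
  have hl' : (0 : ℝ) < l := by exact_mod_cast hl
  have hN0 : (0 : ℝ) < N := by exact_mod_cast hN
  have hNN : (N : ℝ) ≤ N' := by exact_mod_cast hN'
  have hM : 0 < C.M l := hc.trans_le hE.1
  rcases le_total l N' with h | h
  · refine (hE.2.1 N' h).trans ?_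
    have e : (N' : ℝ) / l = N / l * (N' / N) := by field_simp
    rw [e, Real.mul_rpow (by positivity) (by positivity)]
    have := rpow_le_max (x := (N : ℝ) / l) (by positivity) hb (by rwa [div_le_iff₀ hl'])
    calc _ ≤ C.M l * (b * ((N' : ℝ) / N) ^ (4 / 5 : ℝ)) := by gcongr
      _ = _ := by ring
  · refine (hE.2.2 N' h (h3.trans hNN)).trans ?_
    have h4 : (1 : ℝ) ≤ ((N' : ℝ) / N) ^ (4 / 5 : ℝ) :=
      Real.one_le_rpow (by rwa [one_le_div hN0]) (by norm_num)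
    have h5 : (l : ℝ) / N' ≤ b := by
      rw [div_le_iff₀ (by linarith)]
      exact h2.trans (by gcongr)
    calc _ ≤ C.M l * b := by gcongr
      _ = b * C.M l * 1 := by ring
      _ ≤ _ := by gcongr

end Tail

open Tail in
theorem tail (hBL : St_BL) (hB : St_B1) : St_Tail := by
  intro C c k hc hk
  have hk1 : (1 : ℝ) ≤ k := by exact_mod_cast hk
  obtain ⟨K0, hK0, hbl⟩ := hBL C
  set φ : ℝ := 1 / (400000 * k) with hφ
  have hφ0 : 0 < φ := by positivity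
  have hφ1 : φ ≤ 1 / 100 := one_div_le_one_div_of_le (by norm_num) (by linarith)
  have hφk : φ * k = 1 / 400000 := by rw [hφ]; field_simp
  obtain ⟨π1, hπ0, hπ1, hb1⟩ := hB C φ hφ0 hφ1
  obtain ⟨N0, hN0⟩ := eventually_atTop.1
    ((hbl (φ / 4) π1 (by positivity) (by linarith) hπ0 hπ1).and hb1)
  refine ⟨20 * K0 * k / π1 + 961 * k, by positivity, ?_⟩
  have t1 : Tendsto (fun l : ℕ => (l : ℝ) ^ (19 / 20 : ℝ)) atTop atTop :=
    (tendsto_rpow_atTop (by norm_num)).comp tendsto_natCast_atTop_atTop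
  filter_upwards [ev_m, t1.eventually_ge_atTop (N0 : ℝ), eventually_ge_atTop 1,
    tendsto_natCast_atTop_atTop.eventually_ge_atTop (400000 * C.D)] with l hm hlN hl hlD hE m x0 y0
    hm1 hm2
  obtain ⟨hml, hml'⟩ := hm m hm2
  have hl1 : (1 : ℝ) ≤ l := by exact_mod_cast hl
  have hm1' : (1 : ℝ) ≤ m := by exact_mod_cast hm1
  have hM : 0 < C.M l := hc.trans_le hE.1
  have hp2 : (0 : ℝ) < 2 ^ m := by positivity
  have hm3 : (m : ℝ) ^ 2 ≤ (m : ℝ) ^ 3 := pow_le_pow_right₀ hm1' (by norm_num)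
  have hA : 0 ≤ 20 * K0 * k / π1 := by positivity
  by_cases hsm : (2 : ℝ) ^ m ≤ 20 * K0 * k / π1 * m ^ 2
  · refine (SP_le_one _).trans ?_
    rw [one_le_div hp2]
    refine hsm.trans ?_
    calc 20 * K0 * k / π1 * m ^ 2 ≤ 20 * K0 * k / π1 * m ^ 3 := by gcongr
      _ ≤ _ := by gcongr; linarith
  push Not at hsm
  set N : ℕ := ⌈4 * k * l / (m : ℝ)⌉₊ with hN
  have a1 : 4 * k * l ≤ (m : ℝ) * N := by
    have := Nat.le_ceil (4 * k * l / (m : ℝ))
    rw [div_le_iff₀ (by linarith)] at this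
    linarith
  have hkl : (l : ℝ) ≤ k * l := le_mul_of_one_le_left (by linarith) hk1
  have a2 : (m : ℝ) * N ≤ 5 * k * l := by
    have := (Nat.ceil_lt_add_one (a := 4 * k * l / (m : ℝ)) (by positivity)).le
    calc (m : ℝ) * N ≤ m * (4 * k * l / (m : ℝ) + 1) := by gcongr
      _ = 4 * k * l + m := by field_simp
      _ ≤ _ := by linarith
  have hNn : (0 : ℝ) ≤ N := Nat.cast_nonneg N
  have a3 : (l : ℝ) ^ (19 / 20 : ℝ) ≤ N := by
    have e : (l : ℝ) ^ (1 / 20 : ℝ) * (l : ℝ) ^ (19 / 20 : ℝ) = l := by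
      rw [← Real.rpow_add (by linarith)]; norm_num
    have hp : (0 : ℝ) < (l : ℝ) ^ (1 / 20 : ℝ) := by positivity
    refine le_of_mul_le_mul_left ?_ hp
    rw [e]
    have : (m : ℝ) * N ≤ 4 * (l : ℝ) ^ (1 / 20 : ℝ) * N := by gcongr
    linarith
  have hNpos : 0 < N := by
    have : (0 : ℝ) < (l : ℝ) ^ (19 / 20 : ℝ) := by positivity
    exact_mod_cast this.trans_le a3
  have hN1 : (1 : ℝ) ≤ N := by exact_mod_cast hNpos
  obtain ⟨b1, b2⟩ := hN0 N (by exact_mod_cast hlN.trans a3)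
  have hkm : (1 : ℝ) ≤ k * m := one_le_mul_of_one_le_of_one_le hk1 hm1'
  have hen := env (b := 5 * k * m) hc hE (by linarith) hl hNpos (by
      have : (N : ℝ) ≤ m * N := le_mul_of_one_le_left hNn hm1'
      have : 5 * k * l ≤ 5 * (k : ℝ) * m * l := by
        rw [mul_right_comm (5 * (k : ℝ)) m l]
        exact le_mul_of_one_le_right (by positivity) hm1'
      linarith) (by
      have : (m : ℝ) * N ≤ k * (m * N) := le_mul_of_one_le_left (by positivity) hk1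
      have : (0 : ℝ) ≤ k * (m * N) := by positivity
      linarith) a3
  set μ : ℝ := 5 * k * m * C.M l with hμ
  have hμ0 : 0 < μ := by positivity
  have c1 := b1 μ (K0 * μ / π1) hμ0 hen (by field_simp; rfl)
  have hj : ∀ j : ℕ, 1 ≤ j → j ≤ 4 → C.M (j * N) ≤ 4 * μ := by
    intro j h1 h4
    refine (hen _ (Nat.le_mul_of_pos_left _ h1)).trans ?_
    rw [mul_comm 4]
    gcongr
    refine rpow_le_max (by positivity) (by norm_num) ?_
    rw [div_le_iff₀ (by linarith)]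
    push_cast
    gcongr
    exact_mod_cast h4
  have c2 := b2 m (K0 * μ / π1) (4 * μ) (2 ^ m / 2 * C.M l) x0 y0 hm1 (by positivity)
    (by positivity) c1.le (by simpa using hj 1 le_rfl (by norm_num))
    (hj 2 (by norm_num) (by norm_num)) (hj 4 (by norm_num) le_rfl) (by
      have : π1 * (K0 * μ / π1) = K0 * μ := by field_simp
      rw [this]; nlinarith)
  have hφa : φ * (4 * k * l) ≤ φ * (m * N) := by gcongr
  have hφb : φ * (m * N) ≤ φ * (5 * k * l) := by gcongr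
  have e4 : φ * (4 * k * l) = l / 100000 := by
    rw [show φ * (4 * k * l) = φ * k * (4 * l) by ring, hφk]; ring
  have e5 : φ * (5 * k * l) = l / 80000 := by
    rw [show φ * (5 * k * l) = φ * k * (5 * l) by ring, hφk]; ring
  refine le_trans (SP_mono (Far.of_forall fun ζ ω hω => ?_)) (c2.trans ?_)
  · have h1 : 2 * m * (K0 * μ / π1) = 20 * K0 * k / π1 * m ^ 2 / 2 * C.M l := by
      rw [hμ]; field_simp; ring
    have h2 : 20 * K0 * k / π1 * m ^ 2 / 2 * C.M l ≤ 2 ^ m / 2 * C.M l := by gcongr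
    have h3 := Pi_LR_mono (C := C) (x0 := x0) (x1 := x0 + 3 * k * l) (y0 := y0)
      (y1 := y0 + l / 80000) (x0' := x0) (x1' := x0 + 4 / 5 * m * N) (y0' := y0)
      (y1' := y0 + φ * m * N) le_rfl (by nlinarith) (by nlinarith) le_rfl (by linarith)
      (by linarith) ζ ω
    simp only [Set.mem_ofPred_eq] at hω ⊢
    linarith
  · have e : 6 * ((m : ℝ) + 1) ^ 2 * (4 * μ) / (2 ^ m / 2 * C.M l) =
        240 * k * (m * (m + 1) ^ 2) / 2 ^ m := by
      rw [hμ]; field_simp; ring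
    rw [e, one_div_pow, ← add_div]
    gcongr
    have h1 : (m : ℝ) * (m + 1) ^ 2 ≤ 4 * m ^ 3 := by
      calc (m : ℝ) * (m + 1) ^ 2 ≤ m * (m + m) ^ 2 := by gcongr
        _ = _ := by ring
    have h2 : (1 : ℝ) ≤ k * m ^ 3 := one_le_mul_of_one_le_of_one_le hk1 (one_le_pow₀ hm1')
    have h3 : 240 * k * ((m : ℝ) * (m + 1) ^ 2) ≤ 240 * k * (4 * m ^ 3) := by gcongr
    have h4 : 0 ≤ 20 * K0 * k / π1 * m ^ 3 := by positivity
    linarith

end Pool.Agent.P.MP_dcd5d0_pr.SC
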