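import Pool.Agent.P.MP_dcd5d0_pr.SC.St

/-! Uniform linearity of the passage time to the target in a box. -/

set_option autoImplicit false

open MeasureTheory ProbabilityTheory Finset Function Filter

namespace Pool.Agent.P.MP_dcd5d0_pr.SC

open Ctx

namespace UBL

/-- total weight of a finite set of edges -/
noncomputable def W (F : Finset Ed) (ω : Om) : ℝ := ∑ e ∈ F, max (ω e) 0

section
variable {ν : Measure ℝ} [IsProbabilityMeasure ν]

lemma hind : iIndepFun (fun (e : Ed) (ω : Om) => max (ω e) 0) (PP Ed ν) :=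
  iIndepFun_infinitePi (P := fun _ : Ed => ν) (X := fun _ x => max x 0)
    (fun _ => measurable_id.max measurable_const)

lemma one_meas (e : Ed) : Measurable (fun ω : Om => max (ω e) 0) :=
  (measurable_pi_apply e).max measurable_const

lemma one (hν : Integrable (fun y => y ^ 2) ν) (e : Ed) :
    MemLp (fun ω : Om => max (ω e) 0) 2 (PP Ed ν) ∧ ∫ ω, max (ω e) 0 ∂(PP Ed ν) ≤ 1 + m2 ν ∧
      variance (fun ω : Om => max (ω e) 0) (PP Ed ν) ≤ m2 ν := by
  obtain ⟨h1, h2⟩ := edge_sq hν e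
  have hm := (one_meas e).aestronglyMeasurable (μ := PP Ed ν)
  have p1 : ∀ ω : Om, max (ω e) 0 ^ 2 ≤ ω e ^ 2 := fun ω => by
    rcases le_total (ω e) 0 with h | h
    · rw [max_eq_right h]; nlinarith [sq_nonneg (ω e)]
    · rw [max_eq_left h]
  have i1 : Integrable (fun ω : Om => max (ω e) 0 ^ 2) (PP Ed ν) :=
    h1.mono' ((one_meas e).pow_const 2).aestronglyMeasurable (Eventually.of_forall fun ω => by
      rw [Real.norm_eq_abs, abs_of_nonneg (sq_nonneg _)]; exact p1 ω)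
  have l2 := (memLp_two_iff_integrable_sq hm).2 i1
  refine ⟨l2, ?_, (variance_le_expectation_sq hm).trans ?_⟩
  · have := integral_mono (l2.integrable one_le_two) ((integrable_const (1 : ℝ)).add h1)
      (fun ω => max_le (by
        show ω e ≤ 1 + ω e ^ 2
        nlinarith [sq_nonneg (ω e - 1)]) (by show (0 : ℝ) ≤ 1 + ω e ^ 2; positivity))
    simp only [Pi.add_apply] at this
    rw [integral_add (integrable_const _) h1, h2] at this
    simpa using this
  · rw [← h2]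
    exact integral_mono i1 h1 p1

lemma W_tail (hν : Integrable (fun y => y ^ 2) ν) (F : Finset Ed) {n s : ℝ} (hn : F.card ≤ n)
    (hs : 0 < s) (h : n * (1 + m2 ν) ≤ s) :
    (PP Ed ν).real {ω | 2 * s ≤ W F ω} ≤ n * m2 ν / s ^ 2 := by
  have hm2 := m2_nonneg ν
  have e : W F = ∑ e ∈ F, fun ω : Om => max (ω e) 0 := by funext ω; simp [W]
  have l2 : MemLp (W F) 2 (PP Ed ν) := by
    rw [e]; exact memLp_finsetSum' _ fun e _ => (one hν e).1
  have v : variance (W F) (PP Ed ν) ≤ n * m2 ν := by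
    rw [e, IndepFun.variance_sum (fun e _ => (one hν e).1) fun a _ b _ hab => hind.indepFun hab]
    refine (sum_le_card_nsmul _ _ _ fun e _ => (one hν e).2.2).trans ?_
    rw [nsmul_eq_mul]; gcongr
  have mu : ∫ ω, W F ω ∂(PP Ed ν) ≤ s := by
    unfold W
    rw [integral_finsetSum _ fun e _ => (one hν e).1.integrable one_le_two]
    refine (sum_le_card_nsmul _ _ _ fun e _ => (one hν e).2.1).trans (le_trans ?_ h)
    rw [nsmul_eq_mul]; gcongr
  have c := meas_ge_le_variance_div_sq l2 hs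
  have c2 := ENNReal.toReal_mono ENNReal.ofReal_ne_top c
  rw [ENNReal.toReal_ofReal (div_nonneg (variance_nonneg _ _) (sq_nonneg _))] at c2
  refine (measureReal_mono fun ω hω => ?_).trans (c2.trans (by gcongr))
  have h1 : 2 * s ≤ W F ω := hω
  have h2 : s ≤ W F ω - ∫ ω, W F ω ∂(PP Ed ν) := by linarith
  exact le_abs.2 (Or.inl h2)

lemma W_two {F F' : Finset Ed} (hd : Disjoint F F') (a : ℝ) :
    (PP Ed ν).real ({ω | a ≤ W F ω} ∩ {ω | a ≤ W F' ω})
      = (PP Ed ν).real {ω | a ≤ W F ω} * (PP Ed ν).real {ω | a ≤ W F' ω} := by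
  have h := (hind.indepFun_finset (μ := PP Ed ν) F F' hd one_meas).comp
    (φ := fun g : F → ℝ => ∑ i, g i) (ψ := fun g : F' → ℝ => ∑ i, g i) (by fun_prop) (by fun_prop)
  have e : ∀ F : Finset Ed, ((fun g : F → ℝ => ∑ i, g i) ∘ fun (ω : Om) (i : F) => max (ω i) 0)
      = W F := fun F => by
    funext ω; exact sum_coe_sort F (fun e => max (ω e) 0)
  rw [e, e] at h
  have := h.measure_inter_preimage_eq_mul (Set.Ici a) (Set.Ici a) measurableSet_Ici
    measurableSet_Ici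
  simp only [Measure.real, ← ENNReal.toReal_mul]
  exact congrArg ENNReal.toReal this

end

/-- the edges of a straight segment -/
noncomputable def seg (x : V) (i : Fin 2) (n : ℕ) : Finset Ed :=
  (range n).image fun j : ℕ => (x + Pi.single i (j : ℤ), i)

lemma seg_card (x : V) (i : Fin 2) (n : ℕ) : ((seg x i n).card : ℝ) ≤ n := by
  exact_mod_cast card_image_le.trans (card_range n).le

lemma seg_disj (x : V) (n : ℕ) : Disjoint (seg x 0 n) (seg x 1 n) := by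
  refine disjoint_left.2 fun e a b => ?_
  obtain ⟨j, _, rfl⟩ := mem_image.1 a
  obtain ⟨j', _, h⟩ := mem_image.1 b
  simpa using congrArg Prod.snd h

lemma T_seg (ω : Om) (x : V) (i : Fin 2) {k n : ℕ} (h : k ≤ n) :
    T ω x (x + Pi.single i (k : ℤ)) ≤ W (seg x i n) ω := by
  have e : ∀ j : ℕ, pos x (fun _ => (i, true)) j = x + Pi.single i (j : ℤ) := fun j => by
    ext l; simp [pos, stp, Pi.single_apply]
  refine (T_le0 ω (e k)).trans ((tm_sub ω x _ le_rfl h).trans (le_of_eq ?_))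
  unfold W seg tm
  rw [sum_image, range_eq_Ico]
  · exact sum_congr rfl fun j _ => by simp [ed, e]
  · intro a _ b _ hab
    simpa using congrFun (congrArg Prod.fst hab) i

lemma to_net (ω : Om) (z : V) {n : ℕ} (hn : 0 < n) (i : Fin 2) : ∃ (v : V) (i' : Fin 2),
    ‖(n : ℤ) • v - z‖ ≤ n ∧
      T ω z ((n : ℤ) • v) ≤ W (seg z i n) ω + W (seg ((n : ℤ) • v) i' n) ω := by
  have n0 : (n : ℤ) ≠ 0 := by omega
  have a1 := fun j => Int.emod_nonneg (z j) n0
  have a2 := fun j => Int.emod_lt_of_pos (z j) (show (0 : ℤ) < n by omega)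
  have a3 := fun j => Int.emod_add_mul_ediv (z j) n
  obtain ⟨k, hk⟩ := Int.eq_ofNat_of_zero_le (a := n - z i % n) (by linarith [a2 i])
  obtain ⟨k', hk'⟩ := Int.eq_ofNat_of_zero_le (a1 i.rev)
  have b1 : k ≤ n := by have := a1 i; omega
  have b2 : k' ≤ n := by have := a2 i.rev; omega
  refine ⟨fun j => z j / n + if j = i then 1 else 0, i.rev, ?_, ?_⟩
  · rw [pi_norm_le_iff_of_nonneg (by positivity)]
    intro j
    rw [Int.norm_eq_abs]
    have : |((n : ℤ) • (fun j => z j / n + if j = i then 1 else 0 : V) - z) j| ≤ n := by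
      have := a1 j; have := a2 j; have := a3 j
      simp only [Pi.sub_apply, Pi.smul_apply, smul_eq_mul]
      rw [abs_le]
      split_ifs <;> constructor <;> linarith
    exact_mod_cast this
  · have e : z + Pi.single i (k : ℤ)
        = (n : ℤ) • (fun j => z j / n + if j = i then 1 else 0 : V) + Pi.single i.rev (k' : ℤ) := by
      rw [← hk, ← hk']
      ext j
      have := a3 j
      fin_cases i <;> fin_cases j <;> simp at this ⊢ <;> linarith
    have t1 := T_seg ω z i b1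
    have t2 := T_seg ω ((n : ℤ) • (fun j => z j / n + if j = i then 1 else 0 : V)) i.rev b2
    rw [← e, T_symm] at t2
    exact (T_tri ω z _ _).trans (add_le_add t1 t2)

lemma nrm (C : Ctx) {z : V} {b : ℝ} (h1 : |C.X z| ≤ b) (h2 : |C.Y z| ≤ b) : ‖z‖ ≤ C.D * b :=
  (C.hN z).trans (mul_le_mul_of_nonneg_left (max_le h1 h2) (by linarith [C.D1]))

lemma not_BadT {ν : Measure ℝ} {R D : ℕ} {s : ℝ} {ω : Om} (h : ω ∉ BadT ν R D s) {z z' : V}
    (h1 : ‖z‖ ≤ R) (h2 : ‖z' - z‖ ≤ D) : hh ν (z' - z) - s ≤ T ω z z' := by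
  by_contra hc
  exact h ⟨z, z', h1, h2, not_le.1 hc⟩

lemma det (C : Ctx) {S s u : ℝ} {n R : ℕ} {I : Finset V} {r ζ : V} {ω : Om} (hn : 0 < n)
    (hI : ∀ v : V, |C.X ((n : ℤ) • v)| ≤ 2 * S → |C.Y ((n : ℤ) • v)| ≤ 2 * S → (n : ℤ) • v ∈ I)
    (hI' : ∀ w ∈ I, ‖w‖ ≤ R ∧ ‖r - w‖ ≤ R) (hR : C.D * (2 * S) ≤ R) (hD : C.D * n ≤ S)
    (h1 : ω ∉ BadT C.ν R R u) (h2 : ∀ z ∈ box R, ∃ i, W (seg z i n) ω < s)
    (h3 : ∀ w ∈ I, ∀ i, W (seg w i n) ω < s)
    (h4 : ∀ w ∈ I, T ω w r < C.X (r - w) + C.Y (r - w) + s)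
    (h5 : ∀ w ∈ I, T ω w r + -1 * (T ω w ζ - T ω r ζ) < s) (hs0 : 0 ≤ s)
    (hs : 6 * s + u + 4 * (C.D * n) ≤ S ^ (99 / 100 : ℝ)) : C.Good S ζ ω := by
  have hD1 := C.D1
  have Dn : 0 ≤ C.D * n := by positivity
  have DS : 0 ≤ C.D * S := mul_nonneg (by linarith) (by linarith)
  have key : ∀ z : V, |C.X z| ≤ S → |C.Y z| ≤ S → ‖z‖ ≤ R ∧ ∃ w ∈ I, T ω z w ≤ 2 * s ∧
      |C.X w - C.X z| ≤ C.D * n ∧ |C.Y w - C.Y z| ≤ C.D * n := by
    intro z z1 z2
    have hz : ‖z‖ ≤ R := by linarith [nrm C z1 z2]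
    obtain ⟨i, hi⟩ := h2 z (mem_box.2 hz)
    obtain ⟨v, i', v1, v2⟩ := to_net ω z hn i
    have v3 := mul_le_mul_of_nonneg_left v1 (show 0 ≤ C.D by linarith)
    have x1 := (C.hX _).trans v3
    have y1 := (C.hY _).trans v3
    rw [map_sub] at x1 y1
    have hw := hI v (by rw [abs_le] at *; constructor <;> linarith [x1.1, x1.2, z1.1, z1.2])
      (by rw [abs_le] at *; constructor <;> linarith [y1.1, y1.2, z2.1, z2.2])
    exact ⟨hz, _, hw, by linarith [h3 _ hw i'], x1, y1⟩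
  intro z z' z1 z2 z3 z4
  obtain ⟨n1, w, hw, a1, a2, a3⟩ := key z z1 z2
  obtain ⟨_, w', hw', b1, b2, b3⟩ := key z' z3 z4
  constructor
  · have c1 := T_tri ω z w ζ
    have c2 := T_tri ω w r ζ
    have c3 := T_tri ω w' z' ζ
    rw [T_symm ω w' z'] at c3
    have c4 := h4 w hw
    have c5 := h5 w' hw'
    have c6 := not_BadT h1 (hI' w' hw').1 (hI' w' hw').2
    have c7 := C.low (r - w')
    simp only [map_sub] at c4 c7 ⊢
    linarith [(abs_le.1 a2).1, (abs_le.1 a3).1, (abs_le.1 b2).2, (abs_le.1 b3).2]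
  · have : ‖z' - z‖ ≤ C.D * (2 * S) := by
      refine nrm C ?_ ?_ <;> rw [map_sub] <;> rw [abs_le] at * <;> constructor <;>
        linarith [z1.1, z1.2, z2.1, z2.2, z3.1, z3.2, z4.1, z4.2]
    linarith [not_BadT h1 n1 (this.trans hR)]

/-- the net -/
lemma net (C : Ctx) {S b : ℝ} {n : ℕ} (hn : 0 < n) (hb : C.D * (2 * S) ≤ b * n) (hb1 : 1 ≤ b) :
    ∃ I : Finset V, (I.card : ℝ) ≤ 25 * b ^ 2 ∧ (∀ w ∈ I, |C.X w| ≤ 2 * S ∧ |C.Y w| ≤ 2 * S) ∧
      ∀ v : V, |C.X ((n : ℤ) • v)| ≤ 2 * S → |C.Y ((n : ℤ) • v)| ≤ 2 * S → (n : ℤ) • v ∈ I := by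
  classical
  refine ⟨((box ⌈b⌉₊).image fun v => (n : ℤ) • v).filter
    (fun w => |C.X w| ≤ 2 * S ∧ |C.Y w| ≤ 2 * S), ?_, fun w hw => (mem_filter.1 hw).2,
    fun v v1 v2 => mem_filter.2 ⟨mem_image_of_mem _ (mem_box.2 ?_), v1, v2⟩⟩
  · refine le_trans (b := ((box ⌈b⌉₊).card : ℝ))
      (by exact_mod_cast (card_filter_le _ _).trans card_image_le) ?_
    rw [card_box]
    have := Nat.ceil_lt_add_one (a := b) (by linarith)
    have : (2 * (⌈b⌉₊ : ℝ) + 1) ^ 2 ≤ (5 * b) ^ 2 := pow_le_pow_left₀ (by positivity) (by linarith) 2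
    linarith
  · have h := (nrm C v1 v2).trans hb
    rw [norm_smul, Int.norm_natCast, mul_comm] at h
    exact (le_of_mul_le_mul_right h (by exact_mod_cast hn)).trans (Nat.le_ceil _)

/-- the two tails at a point of the net -/
lemma pt (C : Ctx) {w r : V} {R : ℕ} {s u a : ℝ} (hs : 0 < s) (hu : 0 ≤ u) (h1 : ‖w‖ ≤ R)
    (h2 : ‖r - w‖ ≤ R) (h3 : hh C.ν (r - w) ≤ C.X (r - w) + C.Y (r - w) + a) (h4 : a ≤ s / 2)
    (h5 : m1 C.ν * R * C.Pm.real (BadT C.ν R R u) ≤ 1) :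
    C.SP (fun ζ => {ω | C.X (r - w) + C.Y (r - w) + s ≤ T ω w r} ∪
      {ω | s ≤ T ω w r + -1 * (T ω w ζ - T ω r ζ)}) ≤ (2 * (u + 1) + a) / s := by
  refine (SP_union _ _).trans ?_
  have i1 : Integrable (fun ω => T ω w r) C.Pm := T_int C.sq w r
  have e1 : ∫ ω, T ω w r ∂C.Pm = hh C.ν (r - w) := int_T w r
  have a1 := Adm.of_int (T_meas w r) i1
  obtain ⟨a2, e2⟩ := SE_T (C := C) w r
  have p1 := SP_markov (a1.add (a2.smul (-1))) (fun ζ ω => by linarith [T_tri ω w r ζ]) hs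
  rw [SE_add a1 (a2.smul (-1)), SE_smul a2, e2, SE_indep, e1] at p1
  have p2 := markov2 (T_meas w r) i1 (fun ω => T_nonneg ω w r) (a := hh C.ν (r - w) - u)
    (b := s / 2) (by linarith)
  have p3 : C.Pm.real {ω | T ω w r < hh C.ν (r - w) - u} ≤ C.Pm.real (BadT C.ν R R u) :=
    measureReal_mono fun ω hω => ⟨w, r, h1, h2, hω⟩
  have p4 : hh C.ν (r - w) ≤ m1 C.ν * R :=
    (hh_le C.sq _).trans (mul_le_mul_of_nonneg_left h2 (m1_pos _).le)
  have p5 : (hh C.ν (r - w) - u) * C.Pm.real {ω | T ω w r < hh C.ν (r - w) - u} ≤ 1 :=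
    le_trans (mul_le_mul (by linarith) p3 measureReal_nonneg
      (mul_nonneg (m1_pos _).le (by positivity))) h5
  have p6 : C.Pm.real {ω | C.X (r - w) + C.Y (r - w) + s ≤ T ω w r}
      ≤ C.Pm.real {ω | hh C.ν (r - w) - u + s / 2 ≤ T ω w r} :=
    measureReal_mono fun ω hω => by
      simp only [Set.mem_ofPred_eq] at hω ⊢; linarith
  have p7 := mul_le_mul_of_nonneg_left p6 hs.le
  rw [SP_indep, add_div]
  refine add_le_add ?_ (p1.trans (by gcongr; linarith))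
  rw [le_div_iff₀ hs]
  linarith

end UBL

open UBL

theorem ubl : St_UBL := by
  intro C
  have hD := C.D1
  have hm1 := m1_pos C.ν
  have hm2 := m2_nonneg C.ν
  have t12 : Tendsto (fun S : ℝ => 12 * S) atTop atTop := tendsto_id.const_mul_atTop (by norm_num)
  filter_upwards [BadT_small C.sq (C.hr0.trans_lt C.hr12) C.hr2 (7 * C.D) (by linarith) 2,
    t12.eventually C.up, eventually_gt_atTop 0,
    (tendsto_rpow_atTop (show (0 : ℝ) < 1 / 100 by norm_num)).eventually_ge_atTop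
      (20000 * C.D ^ 2 + 800 * (1 + m2 C.ν) + 7 * C.D * m1 C.ν)] with S bT up S0 hx
  set x := S ^ (1 / 100 : ℝ) with hxd
  have px : ∀ k : ℕ, S ^ ((k : ℝ) / 100) = x ^ k := fun k => by
    rw [hxd, ← Real.rpow_natCast, ← Real.rpow_mul S0.le]; congr 1; ring
  have eS : S = x ^ 100 := by rw [← px]; norm_num
  have e99 : S ^ (99 / 100 : ℝ) = x ^ 99 := by rw [← px]; norm_num
  have e51 : S ^ th = x ^ 51 := by rw [← px]; unfold th; norm_num
  have e76 : (12 * S) ^ (19 / 25 : ℝ) ≤ 12 * x ^ 76 := by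
    rw [Real.mul_rpow (by norm_num) S0.le, ← px]
    refine mul_le_mul ?_ (le_of_eq (by norm_num)) (by positivity) (by norm_num)
    conv_rhs => rw [← Real.rpow_one 12]
    exact Real.rpow_le_rpow_of_exponent_le (by norm_num) (by norm_num)
  have D2 : C.D ≤ C.D ^ 2 := le_self_pow₀ hD (by norm_num)
  have q1 : 0 ≤ 7 * C.D * m1 C.ν := by positivity
  have x1 : 1 ≤ x := by linarith
  have x0 : 0 < x := by linarith
  have e40 : 1 / x ^ 3 ≤ S ^ (-(1 / 40) : ℝ) := by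
    rw [← px, Real.rpow_neg S0.le, one_div]
    refine inv_anti₀ (by positivity) (Real.rpow_le_rpow_of_exponent_le ?_ (by norm_num))
    rw [eS]; exact one_le_pow₀ x1
  rw [e51] at bT
  clear_value x
  have pw : ∀ a b : ℕ, a ≤ b → x ^ a ≤ x ^ b := fun a b h => pow_le_pow_right₀ x1 h
  have pw1 : ∀ a : ℕ, 1 ≤ x ^ a := fun a => one_le_pow₀ x1
  have ab : ∀ (y : ℝ) (a b : ℕ), y ≤ x → a + 1 ≤ b → y * x ^ a ≤ x ^ b := by
    intro y a b h1 h2
    refine le_trans ?_ (pw _ _ h2)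
    rw [pow_succ, mul_comm]
    exact mul_le_mul_of_nonneg_left h1 (by positivity)
  have xS : x ≤ S := by rw [eS]; exact le_self_pow₀ x1 (by norm_num)
  set n := ⌈x ^ 95⌉₊ with hn
  have n1 : x ^ 95 ≤ n := Nat.le_ceil _
  have n2 : (n : ℝ) ≤ 2 * x ^ 95 := by
    linarith [Nat.ceil_lt_add_one (a := x ^ 95) (by positivity), pw1 95]
  have n0 : 0 < n := Nat.ceil_pos.2 (by positivity)
  have n3 : C.D * n ≤ 2 * (C.D * x ^ 95) := by
    have := mul_le_mul_of_nonneg_left n2 (show 0 ≤ C.D by linarith)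
    linarith
  have n4 := ab (100 * C.D) 95 99 (by linarith) (by norm_num)
  have n5 : x ^ 95 ≤ C.D * x ^ 95 := le_mul_of_one_le_left (by positivity) hD
  have DS : 1 ≤ C.D * S := one_le_mul_of_one_le_of_one_le hD (by linarith)
  set R := ⌈C.D * (6 * S)⌉₊ with hR
  have R1 : C.D * (6 * S) ≤ R := Nat.le_ceil _
  have R2 : (R : ℝ) ≤ 7 * C.D * S := by
    linarith [Nat.ceil_lt_add_one (a := C.D * (6 * S)) (by positivity)]
  have R3 : 7 * C.D * S ≤ S ^ 2 := by
    rw [pow_two]; exact mul_le_mul_of_nonneg_right (by linarith) S0.le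
  have b1 : C.Pm.real (BadT C.ν R R (x ^ 51)) * S ^ 2 ≤ 1 := bT R R (R2.trans R3) R2
  have b0 := measureReal_nonneg (μ := C.Pm) (s := BadT C.ν R R (x ^ 51))
  have b2 : m1 C.ν * R * C.Pm.real (BadT C.ν R R (x ^ 51)) ≤ 1 := by
    refine le_trans ?_ b1
    rw [mul_comm]
    refine mul_le_mul_of_nonneg_left ?_ b0
    have c1 := mul_le_mul_of_nonneg_left R2 hm1.le
    have c2 : 7 * C.D * m1 C.ν * S ≤ S * S := mul_le_mul_of_nonneg_right (by linarith) S0.le
    linarith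
  have b3 : C.Pm.real (BadT C.ν R R (x ^ 51)) ≤ 1 / x ^ 4 := by
    rw [le_div_iff₀ (by positivity)]
    refine le_trans (mul_le_mul_of_nonneg_left ?_ b0) b1
    rw [eS, ← pow_mul]; exact pw _ _ (by norm_num)
  have tl : ∀ y i, C.Pm.real {ω | x ^ 99 / 10 ≤ W (seg y i n) ω} ≤ 1 / x ^ 102 := by
    intro y i
    have h := W_tail C.sq (seg y i n) ((seg_card y i n).trans n2) (s := x ^ 99 / 20)
      (by positivity) (by linarith [ab (40 * (1 + m2 C.ν)) 95 99 (by linarith) (by norm_num)])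
    rw [show 2 * (x ^ 99 / 20) = x ^ 99 / 10 by ring] at h
    refine le_trans h ?_
    rw [div_le_div_iff₀ (by positivity) (by positivity)]
    linarith [ab (800 * m2 C.ν) 197 198 (by linarith) le_rfl]
  obtain ⟨I, I1, I2, I3⟩ := net C (S := S) (b := 2 * C.D * x ^ 5) n0 (by
    have := mul_le_mul_of_nonneg_left n1 (show 0 ≤ 2 * C.D * x ^ 5 by positivity)
    rw [eS]; linarith) (one_le_mul_of_one_le_of_one_le (by linarith) (pw1 5))
  obtain ⟨r, r1, r2⟩ := C.near (3 * S) (3 * S)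
  have I4 : ∀ w ∈ I, (‖w‖ ≤ R ∧ ‖r - w‖ ≤ R) ∧
      hh C.ν (r - w) ≤ C.X (r - w) + C.Y (r - w) + 12 * x ^ 76 := by
    intro w hw
    obtain ⟨w1, w2⟩ := I2 w hw
    have w3 := nrm C w1 w2
    rw [abs_le] at w1 w2 r1 r2
    have c1 : 0 ≤ C.X (r - w) ∧ C.X (r - w) ≤ 6 * S := by
      rw [map_sub]; constructor <;> linarith [w1.1, w1.2, r1.1, r1.2]
    have c2 : 0 ≤ C.Y (r - w) ∧ C.Y (r - w) ≤ 6 * S := by
      rw [map_sub]; constructor <;> linarith [w2.1, w2.2, r2.1, r2.2]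
    refine ⟨⟨by linarith, (nrm C ?_ ?_).trans R1⟩, ?_⟩
    · rw [abs_of_nonneg c1.1]; exact c1.2
    · rw [abs_of_nonneg c2.1]; exact c2.2
    · linarith [up _ c1.1 c2.1 (by linarith [c1.2, c2.2])]
  have s0 : 0 < x ^ 99 / 10 := by positivity
  have main := SP_le_add (C := C) (A := fun ζ => {ω | ¬ C.Good S ζ ω})
    (B := fun _ => BadT C.ν R R (x ^ 51) ∪ ⋃ z ∈ box R, ({ω | x ^ 99 / 10 ≤ W (seg z 0 n) ω} ∩
      {ω | x ^ 99 / 10 ≤ W (seg z 1 n) ω}))
    (B' := fun ζ => {ω | ∃ w ∈ I, ω ∈ ({ω | x ^ 99 / 10 ≤ W (seg w 0 n) ω} ∪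
      {ω | x ^ 99 / 10 ≤ W (seg w 1 n) ω}) ∪
      ({ω | C.X (r - w) + C.Y (r - w) + x ^ 99 / 10 ≤ T ω w r} ∪
        {ω | x ^ 99 / 10 ≤ T ω w r + -1 * (T ω w ζ - T ω r ζ)})})
    (Far.of_forall fun ζ ω hω => by
      by_contra hc
      simp only [Set.mem_union, Set.mem_iUnion, Set.mem_inter_iff, Set.mem_ofPred_eq, not_or,
        not_exists, not_and, not_le] at hc
      obtain ⟨⟨c1, c2⟩, c3⟩ := hc
      refine hω (det C n0 I3 (fun w hw => (I4 w hw).1) (by linarith)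
        (by rw [eS]; linarith [pw 99 100 (by norm_num)]) c1 (fun z hz => ?_) (fun w hw i => ?_)
        (fun w hw => (c3 w hw).2.1) (fun w hw => (c3 w hw).2.2) s0.le
        (by rw [e99]; linarith [pw 51 95 (by norm_num)]))
      · by_cases h : x ^ 99 / 10 ≤ W (seg z 0 n) ω
        · exact ⟨1, c2 z hz h⟩
        · exact ⟨0, not_le.1 h⟩
      · fin_cases i
        · exact (c3 w hw).1.1
        · exact (c3 w hw).1.2)
  refine main.trans (le_trans ?_ e40)
  rw [SP_indep]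
  have f1 : C.Pm.real (⋃ z ∈ box R, ({ω | x ^ 99 / 10 ≤ W (seg z 0 n) ω} ∩
      {ω | x ^ 99 / 10 ≤ W (seg z 1 n) ω})) ≤ 225 * C.D ^ 2 / x ^ 4 := by
    refine (measureReal_biUnion_finset_le _ _).trans
      ((sum_le_card_nsmul _ _ (1 / x ^ 102 * (1 / x ^ 102)) fun z _ => ?_).trans ?_)
    · exact (W_two (seg_disj z n) _).trans_le
        (mul_le_mul (tl z 0) (tl z 1) measureReal_nonneg (by positivity))
    · rw [nsmul_eq_mul, card_box]
      have : (2 * (R : ℝ) + 1) ^ 2 ≤ (15 * C.D * x ^ 100) ^ 2 :=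
        pow_le_pow_left₀ (by positivity) (by rw [← eS]; linarith) 2
      refine (mul_le_mul_of_nonneg_right this (by positivity)).trans (le_of_eq ?_)
      field_simp
      norm_num
  have f2 := (SP_biUnion (C := C) I fun w ζ => ({ω | x ^ 99 / 10 ≤ W (seg w 0 n) ω} ∪
      {ω | x ^ 99 / 10 ≤ W (seg w 1 n) ω}) ∪
      ({ω | C.X (r - w) + C.Y (r - w) + x ^ 99 / 10 ≤ T ω w r} ∪
        {ω | x ^ 99 / 10 ≤ T ω w r + -1 * (T ω w ζ - T ω r ζ)})).trans
    (sum_le_card_nsmul _ _ (162 / x ^ 23) fun w hw => by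
      refine (SP_union _ _).trans ?_
      have g1 := pt C s0 (by positivity) (I4 w hw).1.1 (I4 w hw).1.2 (I4 w hw).2
        (by linarith [ab 240 76 99 (by linarith) (by norm_num)]) b2
      have g2 : (2 * (x ^ 51 + 1) + 12 * x ^ 76) / (x ^ 99 / 10) ≤ 160 / x ^ 23 := by
        rw [div_le_div_iff₀ s0 (by positivity)]
        have : (2 * (x ^ 51 + 1) + 12 * x ^ 76) * x ^ 23 ≤ 16 * x ^ 76 * x ^ 23 :=
          mul_le_mul_of_nonneg_right (by linarith [pw 51 76 (by norm_num), pw1 76]) (by positivity)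
        linarith
      have g3 : 1 / x ^ 102 ≤ 1 / x ^ 23 :=
        one_div_le_one_div_of_le (by positivity) (pw _ _ (by norm_num))
      have g4 := measureReal_union_le (μ := C.Pm) {ω | x ^ 99 / 10 ≤ W (seg w 0 n) ω}
        {ω | x ^ 99 / 10 ≤ W (seg w 1 n) ω}
      have g5 : 162 / x ^ 23 = 1 / x ^ 23 + 1 / x ^ 23 + 160 / x ^ 23 := by ring
      rw [SP_indep]
      linarith [tl w 0, tl w 1])
  rw [nsmul_eq_mul] at f2
  have f3 : (I.card : ℝ) * (162 / x ^ 23) ≤ 16200 * C.D ^ 2 / x ^ 4 := by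
    refine (mul_le_mul_of_nonneg_right I1 (by positivity)).trans ?_
    have : 25 * (2 * C.D * x ^ 5) ^ 2 * (162 / x ^ 23) = 16200 * C.D ^ 2 / x ^ 13 := by
      field_simp
      norm_num
    rw [this]
    exact div_le_div_of_nonneg_left (by positivity) (by positivity) (pw _ _ (by norm_num))
  have f4 : 1 / x ^ 4 + 225 * C.D ^ 2 / x ^ 4 + 16200 * C.D ^ 2 / x ^ 4 ≤ 1 / x ^ 3 := by
    rw [← add_div, ← add_div, div_le_div_iff₀ (by positivity) (by positivity), one_mul]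
    exact ab _ 3 4 (by linarith) le_rfl
  linarith [measureReal_union_le (μ := C.Pm) (BadT C.ν R R (x ^ 51))
    (⋃ z ∈ box R, ({ω | x ^ 99 / 10 ≤ W (seg z 0 n) ω} ∩ {ω | x ^ 99 / 10 ≤ W (seg z 1 n) ω}))]

end Pool.Agent.P.MP_dcd5d0_pr.SC
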