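import Pool.Agent.P.MP_dcd5d0_pr.SC.B1
import Pool.Agent.P.MP_dcd5d0_pr.SC.BL
import Pool.Agent.P.MP_dcd5d0_pr.SC.Base
import Pool.Agent.P.MP_dcd5d0_pr.SC.Chain
import Pool.Agent.P.MP_dcd5d0_pr.SC.Cor
import Pool.Agent.P.MP_dcd5d0_pr.SC.G3
import Pool.Agent.P.MP_dcd5d0_pr.SC.Line
import Pool.Agent.P.MP_dcd5d0_pr.SC.Loc
import Pool.Agent.P.MP_dcd5d0_pr.SC.Low
import Pool.Agent.P.MP_dcd5d0_pr.SC.MW
import Pool.Agent.P.MP_dcd5d0_pr.SC.Mean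
import Pool.Agent.P.MP_dcd5d0_pr.SC.Mk
import Pool.Agent.P.MP_dcd5d0_pr.SC.Pol
import Pool.Agent.P.MP_dcd5d0_pr.SC.RA
import Pool.Agent.P.MP_dcd5d0_pr.SC.Small
import Pool.Agent.P.MP_dcd5d0_pr.SC.Stair
import Pool.Agent.P.MP_dcd5d0_pr.SC.Step
import Pool.Agent.P.MP_dcd5d0_pr.SC.TL
import Pool.Agent.P.MP_dcd5d0_pr.SC.Tail
import Pool.Agent.P.MP_dcd5d0_pr.SC.UBL
import Pool.Agent.P.MP_dcd5d0_pr.SC.Up

/-! Assembly: the planar limit shape is strictly convex. -/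

set_option autoImplicit false

open MeasureTheory ProbabilityTheory

namespace Pool.Agent.P.MP_dcd5d0_pr.SC

theorem strict {ν : Measure ℝ} [IsProbabilityMeasure ν] {g : (Fin 2 → ℝ) → ℝ}
    (hν : Integrable (fun y => y ^ 2) ν) (h0 : ∀ a : ℝ, ν {a} = 0)
    (h1 : ν (Set.Iio 0) = 0) (H : IsTC ν g) : StrictConvex ℝ {x | g x ≤ 1} := by
  by_contra hns
  obtain ⟨C⟩ := mk_ctx g3 geo mean hν h0 h1 H hns
  have hL := loc lineA lineN
  have hC := cor lineA lineN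
  have hM := mle lineA opt ra
  have hB := bl (base hL) (step hL ubl) (blkLe ra) hM
  have hT := tail hB (b1 lineA s1 hL chain)
  exact no_ctx (mw lineA s1 hC) hM pol (stair lineA opt) (up am (tl lineA hC) hT crude hM)
    (low hB am) C

end Pool.Agent.P.MP_dcd5d0_pr.SC
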