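import Pool.Agent.P.MP_dcd5d0_pr.Dbl
import Pool.Agent.P.MP_dcd5d0_pr.Cross
import Pool.Agent.P.MP_dcd5d0_pr.Norm

/-! Walks with interior in a set, minimal prices over classes of walks. -/

set_option autoImplicit false

open MeasureTheory ProbabilityTheory Finset Function

namespace Pool.Agent.P.MP_dcd5d0_pr.SC

/-- a walk from `p` to `q` with time `t` whose interior vertices lie in `A` -/
def Wk (ω : Om) (A : Set V) (p q : V) (t : ℝ) : Prop :=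
  ∃ (σ : ℕ → Dir) (k : ℕ), (∀ j, 0 < j → j < k → pos p σ j ∈ A) ∧ pos p σ k = q ∧
    tm ω p σ 0 k = t

variable {ω : Om} {A A' : Set V} {p q z : V} {t t' : ℝ}

lemma Wk.idx (ω : Om) (x : V) (σ : ℕ → Dir) {a b : ℕ} (hab : a ≤ b)
    (h : ∀ j, a < j → j < b → pos x σ j ∈ A) : Wk ω A (pos x σ a) (pos x σ b) (tm ω x σ a b) := by
  obtain ⟨k, rfl⟩ := Nat.exists_eq_add_of_le hab
  refine ⟨fun i => σ (a + i), k, fun j h1 h2 => ?_, pos_shift x σ a k, tm_shift ω x σ a k⟩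
  rw [pos_shift]; exact h _ (by omega) (by omega)

lemma Wk.refl (ω : Om) (A : Set V) (p : V) : Wk ω A p p 0 :=
  ⟨fun _ => default, 0, fun _ _ h => absurd h (by omega), pos_zero _ _, by simp [tm]⟩

lemma Wk.mono (h : Wk ω A p q t) (hA : A ⊆ A') : Wk ω A' p q t := by
  obtain ⟨σ, k, h1, h2, h3⟩ := h
  exact ⟨σ, k, fun j a b => hA (h1 j a b), h2, h3⟩

lemma Wk.nonneg (h : Wk ω A p q t) : 0 ≤ t := by
  obtain ⟨σ, k, _, _, rfl⟩ := h
  exact tm_nonneg _ _ _ _ _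

lemma Wk.T_le (h : Wk ω A p q t) : T ω p q ≤ t := by
  obtain ⟨σ, k, _, h2, rfl⟩ := h
  exact T_le0 ω h2

lemma Wk.trans (h : Wk ω A p z t) (hz : z ∈ A) (h' : Wk ω A z q t') : Wk ω A p q (t + t') := by
  obtain ⟨σ, k, h1, rfl, rfl⟩ := h
  obtain ⟨σ', k', h4, rfl, rfl⟩ := h'
  refine ⟨cat σ k σ', k + k', fun j a b => ?_, pos_cat _ _ _ _ _, tm_cat _ _ _ _ _ _⟩
  rcases lt_trichotomy j k with c | c | c
  · rw [pos_congr p (cat_left σ k σ') c.le]; exact h1 j a c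
  · rw [c, pos_congr p (cat_left σ k σ') le_rfl]; exact hz
  · obtain ⟨i, rfl⟩ := Nat.exists_eq_add_of_le c.le
    rw [pos_cat]; exact h4 i (by omega) (by omega)

lemma Wk.change (h : Wk ω A p q t) (ω' : Om) : ∃ t', Wk ω' A p q t' := by
  obtain ⟨σ, k, h1, h2, _⟩ := h
  exact ⟨_, σ, k, h1, h2, rfl⟩

lemma exists_Wk_lt {c : ℝ} (h : T ω p q < c) : ∃ t, Wk ω Set.univ p q t ∧ t < c := by
  obtain ⟨k, σ, h1, h2⟩ := exists_lt h
  exact ⟨_, ⟨σ, k, fun _ _ _ => trivial, h1, rfl⟩, h2⟩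

lemma ed_mem {x : V} {σ : ℕ → Dir} {k : ℕ} {S : Set V} (h : ∀ j ≤ k, pos x σ j ∈ S) {j : ℕ}
    (hj : j < k) : (ed x σ j).1 ∈ S := by
  rcases ed_base x σ j with e | e <;> rw [e]
  · exact h j hj.le
  · exact h _ hj

lemma all_mem {x : V} {σ : ℕ → Dir} {k : ℕ} {S : Set V}
    (h1 : ∀ j, 0 < j → j < k → pos x σ j ∈ S) (hp : x ∈ S) (hq : pos x σ k ∈ S) :
    ∀ j ≤ k, pos x σ j ∈ S := by
  intro j hj
  rcases Nat.eq_zero_or_pos j with rfl | h0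
  · simpa using hp
  · rcases hj.eq_or_lt with rfl | h
    · exact hq
    · exact h1 j h0 h

lemma Wk.congr (h : Wk ω A p q t) {S : Set V} (hA : A ⊆ S) (hp : p ∈ S) (hq : q ∈ S) {ω' : Om}
    (hω : ∀ e : Ed, e.1 ∈ S → ω e = ω' e) : Wk ω' A p q t := by
  obtain ⟨σ, k, h1, rfl, rfl⟩ := h
  refine ⟨σ, k, h1, rfl, ?_⟩
  have := all_mem (fun j a b => hA (h1 j a b)) hp hq
  exact sum_congr rfl fun j hj => by rw [hω _ (ed_mem this (mem_Ico.1 hj).2)]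

/-- split at an index -/
lemma Wk.split_idx (ω : Om) {p : V} {σ : ℕ → Dir} {k i : ℕ} (hi : i ≤ k) {A1 A2 : Set V}
    (h1 : ∀ j, 0 < j → j < i → pos p σ j ∈ A1) (h2 : ∀ j, i < j → j < k → pos p σ j ∈ A2) :
    Wk ω A1 p (pos p σ i) (tm ω p σ 0 i) ∧ Wk ω A2 (pos p σ i) (pos p σ k) (tm ω p σ i k) ∧
      tm ω p σ 0 i + tm ω p σ i k = tm ω p σ 0 k :=
  ⟨⟨σ, i, h1, rfl, rfl⟩, Wk.idx ω p σ hi h2, tm_add ω p σ (Nat.zero_le i) hi⟩

lemma idx_mem {p : V} {σ : ℕ → Dir} {k i : ℕ} (hi : i ≤ k)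
    (h1 : ∀ j, 0 < j → j < k → pos p σ j ∈ A) :
    pos p σ i = p ∨ pos p σ i = pos p σ k ∨ pos p σ i ∈ A := by
  rcases Nat.eq_zero_or_pos i with rfl | h0
  · left; simp
  · rcases hi.eq_or_lt with rfl | h
    · right; left; rfl
    · right; right; exact h1 i h0 h

/-- split at the first vertex where `f ≥ a` -/
lemma Wk.first_ge (h : Wk ω A p q t) (f : V → ℝ) {D a : ℝ}
    (hf : ∀ y d, f (y + stp d) ≤ f y + D) (hp : f p ≤ a + D) (hq : a ≤ f q) :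
    ∃ z t1 t2, Wk ω (A ∩ {y | f y < a}) p z t1 ∧ Wk ω A z q t2 ∧ t1 + t2 = t ∧ a ≤ f z ∧
      f z ≤ a + D ∧ (z = p ∨ z = q ∨ z ∈ A) := by
  classical
  obtain ⟨σ, k, h1, rfl, rfl⟩ := h
  have hex : ∃ i, a ≤ f (pos p σ i) := ⟨k, hq⟩
  have hi : Nat.find hex ≤ k := Nat.find_min' hex hq
  obtain ⟨e1, e2, e3⟩ := Wk.split_idx ω hi (A1 := A ∩ {y | f y < a}) (A2 := A)
    (fun j a b => ⟨h1 j a (by omega), not_le.1 (Nat.find_min hex b)⟩)
    (fun j a b => h1 j (by omega) b)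
  refine ⟨_, _, _, e1, e2, e3, Nat.find_spec hex, ?_, idx_mem hi h1⟩
  rcases Nat.eq_zero_or_pos (Nat.find hex) with h0 | h0
  · rw [h0]; simpa using hp
  · obtain ⟨i, hi'⟩ : ∃ i, Nat.find hex = i + 1 := ⟨Nat.find hex - 1, by omega⟩
    have := not_le.1 (Nat.find_min hex (show i < Nat.find hex by omega))
    rw [hi', pos_succ]
    linarith [hf (pos p σ i) (σ i)]

/-- split at the last vertex where `f ≤ a` -/
lemma Wk.last_le (h : Wk ω A p q t) (f : V → ℝ) {D a : ℝ}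
    (hf : ∀ y d, f (y + stp d) ≤ f y + D) (hp : f p ≤ a) (hq : a - D ≤ f q) :
    ∃ z t1 t2, Wk ω A p z t1 ∧ Wk ω (A ∩ {y | a < f y}) z q t2 ∧ t1 + t2 = t ∧ f z ≤ a ∧
      a - D ≤ f z ∧ (z = p ∨ z = q ∨ z ∈ A) := by
  classical
  obtain ⟨σ, k, h1, rfl, rfl⟩ := h
  set i := Nat.findGreatest (fun i => f (pos p σ i) ≤ a) k with hidef
  have hi : i ≤ k := Nat.findGreatest_le k
  have hs : f (pos p σ i) ≤ a :=
    Nat.findGreatest_spec (P := fun i => f (pos p σ i) ≤ a) (Nat.zero_le k) (by simpa using hp)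
  have hg : ∀ j, i < j → j ≤ k → a < f (pos p σ j) := fun j a b =>
    not_le.1 (Nat.findGreatest_is_greatest (P := fun i => f (pos p σ i) ≤ _) a b)
  obtain ⟨e1, e2, e3⟩ := Wk.split_idx ω hi (A1 := A) (A2 := A ∩ {y | a < f y})
    (fun j a b => h1 j a (by omega)) (fun j a b => ⟨h1 j (by omega) b, hg j a b.le⟩)
  refine ⟨_, _, _, e1, e2, e3, hs, ?_, idx_mem hi h1⟩
  rcases hi.eq_or_lt with h0 | h0
  · rw [h0]; exact hq
  · have := hg (i + 1) (by omega) h0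
    rw [pos_succ] at this
    linarith [hf (pos p σ i) (σ i)]

/-- planar crossing of two walks -/
lemma Wk.cross (X Y : V →+ ℝ)
    (huv : ∃ u v : Fin 2 → ℝ, ∀ (z : V) (i : Fin 2), (z i : ℝ) = X z * u i + Y z * v i)
    {A1 A2 : Set V} {p1 q1 p2 q2 : V} {t1 t2 : ℝ} (h1 : Wk ω A1 p1 q1 t1) (h2 : Wk ω A2 p2 q2 t2)
    (hX : ∀ z, (z = p2 ∨ z = q2 ∨ z ∈ A2) → X p1 < X z ∧ X z < X q1)
    (hY : ∀ z, (z = p1 ∨ z = q1 ∨ z ∈ A1) → Y p2 < Y z ∧ Y z < Y q2) :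
    ∃ z s1 s1' s2 s2', z ∈ A1 ∧ z ∈ A2 ∧ Wk ω A1 p1 z s1 ∧ Wk ω A1 z q1 s1' ∧ s1 + s1' = t1 ∧
      Wk ω A2 p2 z s2 ∧ Wk ω A2 z q2 s2' ∧ s2 + s2' = t2 := by
  obtain ⟨u, v, huv⟩ := huv
  obtain ⟨σ, m, a1, rfl, rfl⟩ := h1
  obtain ⟨σ', n, b1, rfl, rfl⟩ := h2
  have hX' := fun l (hl : l ≤ n) => hX _ (idx_mem hl b1)
  have hY' := fun l (hl : l ≤ m) => hY _ (idx_mem hl a1)
  obtain ⟨k, hk, l, hl, e⟩ := crossing X Y u v huv p1 p2 σ σ' m n (fun l h => (hX' l h).1)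
    (fun l h => (hX' l h).2) (fun l h => (hY' l h).1) (fun l h => (hY' l h).2)
  obtain ⟨e1, e2, e3⟩ := Wk.split_idx ω hk (A1 := A1) (A2 := A1)
    (fun j a b => a1 j a (by omega)) (fun j a b => a1 j (by omega) b)
  obtain ⟨f1, f2, f3⟩ := Wk.split_idx ω hl (A1 := A2) (A2 := A2)
    (fun j a b => b1 j a (by omega)) (fun j a b => b1 j (by omega) b)
  refine ⟨pos p1 σ k, _, _, _, _, ?_, ?_, e1, e2, e3, e ▸ f1, e ▸ f2, f3⟩
  · have := hX' l hl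
    rw [← e] at this
    rcases idx_mem hk a1 with c | c | c
    · rw [c] at this; exact absurd this.1 (lt_irrefl _)
    · rw [c] at this; exact absurd this.2 (lt_irrefl _)
    · exact c
  · have := hY' k hk
    rw [e] at this ⊢
    rcases idx_mem hl b1 with c | c | c
    · rw [c] at this; exact absurd this.1 (lt_irrefl _)
    · rw [c] at this; exact absurd this.2 (lt_irrefl _)
    · exact c

/-- loop erasure keeping the vertices -/
lemma exists_trail' (ω : Om) (x : V) (S : Set V) (k : ℕ) : ∀ σ : ℕ → Dir,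
    (∀ j ≤ k, pos x σ j ∈ S) → ∃ (k' : ℕ) (σ' : ℕ → Dir), pos x σ' k' = pos x σ k ∧
      Set.InjOn (ed x σ') (Set.Iio k') ∧ (∀ j ≤ k', pos x σ' j ∈ S) ∧
      tm ω x σ' 0 k' ≤ tm ω x σ 0 k := by
  induction k using Nat.strong_induction_on with
  | _ k ih =>
    intro σ hσ
    by_cases hinj : Set.InjOn (ed x σ) (Set.Iio k)
    · exact ⟨k, σ, rfl, hinj, hσ, le_rfl⟩
    · have : ∃ a b, a < b ∧ b ≤ k ∧ pos x σ a = pos x σ b := by
        unfold Set.InjOn at hinj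
        push Not at hinj
        obtain ⟨a, ha, b, hb, hab, hne⟩ := hinj
        simp only [Set.mem_Iio] at ha hb
        rcases lt_or_gt_of_ne hne with h | h
        · rcases ed_eq hab with h1 | h1
          · exact ⟨a, b, h, hb.le, h1⟩
          · exact ⟨a, b + 1, by omega, hb, h1⟩
        · rcases ed_eq hab.symm with h1 | h1
          · exact ⟨b, a, h, ha.le, h1⟩
          · exact ⟨b, a + 1, by omega, ha, h1⟩
      obtain ⟨a, b, hab, hbk, hp⟩ := this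
      obtain ⟨d, rfl⟩ := Nat.exists_eq_add_of_le hbk
      obtain ⟨k', σ', h1, h2, h3, h4⟩ := ih (a + d) (by omega) (cat σ a (fun i => σ (b + i)))
        (fun j hj => by
          rcases le_or_gt j a with c | c
          · rw [pos_congr x (cat_left σ a _) c]; exact hσ j (by omega)
          · obtain ⟨i, rfl⟩ := Nat.exists_eq_add_of_le c.le
            rw [pos_cat, hp, pos_shift]; exact hσ _ (by omega))
      refine ⟨k', σ', by rw [h1, pos_cat, hp, pos_shift], h2, h3, h4.trans ?_⟩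
      rw [tm_cat, hp, tm_shift, ← tm_add ω x σ (Nat.zero_le b) (Nat.le_add_right b d)]
      have := tm_sub ω x σ (le_refl 0) hab.le
      linarith

lemma Wk.trail (h : Wk ω A p q t) (hp : p ∈ A) (hq : q ∈ A) :
    ∃ (σ : ℕ → Dir) (k : ℕ), pos p σ k = q ∧ Set.InjOn (ed p σ) (Set.Iio k) ∧
      (∀ j ≤ k, pos p σ j ∈ A) ∧ tm ω p σ 0 k ≤ t := by
  obtain ⟨σ, k, h1, rfl, rfl⟩ := h
  obtain ⟨k', σ', e⟩ := exists_trail' ω p A k σ (all_mem h1 hp hq)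
  exact ⟨σ', k', e⟩

/-- reversal -/
lemma Wk.step (ω : Om) (A : Set V) (p : V) (d : Dir) :
    Wk ω A p (p + stp d) (max (ω (if d.2 then p else p + stp d, d.1)) 0) := by
  refine ⟨fun _ => d, 1, fun j a b => absurd b (by omega), by simp [pos], ?_⟩
  simp [tm, ed, pos]

lemma Wk.symm (h : Wk ω Set.univ p q t) : Wk ω Set.univ q p t := by
  obtain ⟨σ, k, _, rfl, rfl⟩ := h
  induction k with
  | zero => simpa [tm] using Wk.refl ω Set.univ p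
  | succ k ih =>
    have e : stp ((σ k).1, !(σ k).2) = -stp (σ k) := by
      unfold stp; cases (σ k).2 <;> simp
    have h1 := Wk.step ω Set.univ (pos p σ (k + 1)) ((σ k).1, !(σ k).2)
    have e2 : pos p σ (k + 1) + stp ((σ k).1, !(σ k).2) = pos p σ k := by
      rw [e, pos_succ]; abel
    rw [e2] at h1
    have h2 := h1.trans (Set.mem_univ _) (ih fun _ _ _ => trivial)
    convert h2 using 1
    rw [← tm_add ω p σ (Nat.zero_le k) (Nat.le_succ k), add_comm]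
    congr 1
    simp only [tm, Nat.Ico_succ_singleton, sum_singleton, ed]
    cases (σ k).2 <;> simp

lemma T_symm (ω : Om) (p q : V) : T ω p q = T ω q p := by
  have : ∀ p q, T ω p q ≤ T ω q p := fun p q =>
    le_T fun k σ h => Wk.T_le (Wk.symm ⟨σ, k, fun _ _ _ => trivial, h, rfl⟩)
  exact le_antisymm (this p q) (this q p)

/-! ### classes of walks -/

/-- a class of walks: interior in `A`, end points related by `R` -/
structure Cl where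
  A : Set V
  R : V → V → Prop

def Cl.NE (c : Cl) : Prop := ∃ p q t, c.R p q ∧ Wk 0 c.A p q t

/-- infimum over the class of time minus the drop of the potential `f` -/
noncomputable def MinP (ω : Om) (c : Cl) (f : V → ℝ) : ℝ :=
  sInf {y | ∃ p q t, c.R p q ∧ Wk ω c.A p q t ∧ y = t - f p + f q}

lemma Cl.NE.ne {c : Cl} (h : c.NE) (ω : Om) (f : V → ℝ) :
    {y | ∃ p q t, c.R p q ∧ Wk ω c.A p q t ∧ y = t - f p + f q}.Nonempty := by
  obtain ⟨p, q, t, h1, h2⟩ := h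
  obtain ⟨t', h3⟩ := h2.change ω
  exact ⟨_, p, q, t', h1, h3, rfl⟩

lemma Cl.ne_of {c : Cl} (h1 : c.R p q) (h2 : Wk ω c.A p q t) : c.NE := by
  obtain ⟨t', h3⟩ := h2.change 0
  exact ⟨p, q, t', h1, h3⟩

lemma le_MinP {c : Cl} (h : c.NE) {f : V → ℝ} {a : ℝ}
    (ha : ∀ p q t, c.R p q → Wk ω c.A p q t → a ≤ t - f p + f q) : a ≤ MinP ω c f :=
  le_csInf (h.ne ω f) (by rintro y ⟨p, q, t, h1, h2, rfl⟩; exact ha p q t h1 h2)

lemma MinP_le {c : Cl} {f : V → ℝ} {a : ℝ}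
    (ha : ∀ p q t, c.R p q → Wk ω c.A p q t → a ≤ t - f p + f q) (h1 : c.R p q)
    (h2 : Wk ω c.A p q t) : MinP ω c f ≤ t - f p + f q :=
  csInf_le ⟨a, by rintro y ⟨p, q, t, h1, h2, rfl⟩; exact ha p q t h1 h2⟩ ⟨p, q, t, h1, h2, rfl⟩

lemma exists_lt_MinP {c : Cl} (h : c.NE) {f : V → ℝ} {a : ℝ} (ha : MinP ω c f < a) :
    ∃ p q t, c.R p q ∧ Wk ω c.A p q t ∧ t - f p + f q < a := by
  by_contra hc
  push Not at hc
  exact absurd (le_MinP h hc) (not_le.2 ha)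

lemma Wk_meas_set (A : Set V) (p q : V) (g : Om → ℝ) (hg : Measurable g) :
    MeasurableSet {ω | ∃ t, Wk ω A p q t ∧ t < g ω} := by
  have : {ω | ∃ t, Wk ω A p q t ∧ t < g ω} = ⋃ l : List Dir,
      ⋃ _ : (∀ j, 0 < j → j < l.length → pos p (st l) j ∈ A) ∧ pos p (st l) l.length = q,
        {ω | tm ω p (st l) 0 l.length < g ω} := by
    ext ω
    simp only [Set.mem_iUnion, Set.mem_ofPred_eq]
    constructor
    · rintro ⟨t, ⟨σ, k, h1, h2, rfl⟩, h3⟩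
      obtain ⟨l, rfl, hl⟩ := exists_list σ k
      refine ⟨l, ⟨fun j a b => ?_, by rw [pos_congr p hl le_rfl, h2]⟩,
        by rw [tm_congr ω p hl le_rfl]; exact h3⟩
      rw [pos_congr p hl b.le]; exact h1 j a b
    · rintro ⟨l, ⟨h1, h2⟩, h3⟩
      exact ⟨_, ⟨st l, l.length, h1, h2, rfl⟩, h3⟩
  rw [this]
  exact MeasurableSet.iUnion fun l => MeasurableSet.iUnion fun _ =>
    measurableSet_lt (tm_meas _ _ _ _) hg

/-- measurability for a random relation and a random potential -/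
lemma MinP_meas (A : Set V) (R : Om → V → V → Prop) (f : Om → V → ℝ)
    (hR : ∀ p q, MeasurableSet {ω | R ω p q}) (hf : ∀ z, Measurable (fun ω => f ω z))
    (hne : ∀ ω, (Cl.mk A (R ω)).NE)
    (hb : ∀ ω, ∃ a, ∀ p q t, R ω p q → Wk ω A p q t → a ≤ t - f ω p + f ω q) :
    Measurable (fun ω => MinP ω ⟨A, R ω⟩ (f ω)) := by
  refine measurable_of_Iio fun c => ?_
  have : (fun ω => MinP ω ⟨A, R ω⟩ (f ω)) ⁻¹' Set.Iio c = ⋃ p, ⋃ q, ({ω | R ω p q} ∩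
      {ω | ∃ t, Wk ω A p q t ∧ t < c + f ω p - f ω q}) := by
    ext ω
    simp only [Set.mem_preimage, Set.mem_Iio, Set.mem_iUnion, Set.mem_inter_iff,
      Set.mem_ofPred_eq]
    constructor
    · intro h
      obtain ⟨p, q, t, h1, h2, h3⟩ := exists_lt_MinP (hne ω) h
      exact ⟨p, q, h1, t, h2, by linarith⟩
    · rintro ⟨p, q, h1, t, h2, h3⟩
      obtain ⟨a, ha⟩ := hb ω
      have := MinP_le (c := ⟨A, R ω⟩) ha h1 h2
      linarith
  rw [this]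
  exact MeasurableSet.iUnion fun p => MeasurableSet.iUnion fun q => (hR p q).inter
    (Wk_meas_set A p q _ ((measurable_const.add (hf p)).sub (hf q)))

/-- `F` depends only on the edges based in `S` -/
def Loc {β : Type} (S : Set V) (F : Om → β) : Prop :=
  ∀ ω ω' : Om, (∀ e : Ed, e.1 ∈ S → ω e = ω' e) → F ω = F ω'

lemma Loc.mono {β : Type} {S S' : Set V} {F : Om → β} (h : Loc S F) (hS : S ⊆ S') : Loc S' F :=
  fun ω ω' e => h ω ω' fun x hx => e x (hS hx)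

lemma MinP_congr {c : Cl} {S : Set V} (hA : c.A ⊆ S) (hR : ∀ p q, c.R p q → p ∈ S ∧ q ∈ S)
    {ω ω' : Om} (hω : ∀ e : Ed, e.1 ∈ S → ω e = ω' e) (f : V → ℝ) :
    MinP ω c f = MinP ω' c f := by
  unfold MinP
  congr 1
  ext y
  constructor
  · rintro ⟨p, q, t, h1, h2, h3⟩
    exact ⟨p, q, t, h1, h2.congr hA (hR p q h1).1 (hR p q h1).2 hω, h3⟩
  · rintro ⟨p, q, t, h1, h2, h3⟩
    exact ⟨p, q, t, h1, h2.congr hA (hR p q h1).1 (hR p q h1).2 fun e he => (hω e he).symm, h3⟩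

/-! ### prices -/

/-- a walk with price `y` for the target `ζ` -/
def PW (ζ : V) (ω : Om) (A : Set V) (p q : V) (y : ℝ) : Prop :=
  Wk ω A p q (y + T ω p ζ - T ω q ζ)

variable {ζ : V} {y y' : ℝ}

lemma Wk.pw (h : Wk ω A p q t) (ζ : V) : PW ζ ω A p q (t - T ω p ζ + T ω q ζ) := by
  unfold PW; convert h using 1; ring

lemma PW.nonneg (h : PW ζ ω A p q y) : 0 ≤ y := by
  have := Wk.T_le h
  have := T_tri ω p q ζ
  linarith

lemma PW.mono (h : PW ζ ω A p q y) (hA : A ⊆ A') : PW ζ ω A' p q y := Wk.mono h hA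

lemma PW.trans (h : PW ζ ω A p z y) (hz : z ∈ A) (h' : PW ζ ω A z q y') :
    PW ζ ω A p q (y + y') := by
  have := Wk.trans h hz h'
  unfold PW; convert this using 1; ring

lemma PW.first_ge (h : PW ζ ω A p q y) (f : V → ℝ) {D a : ℝ}
    (hf : ∀ y d, f (y + stp d) ≤ f y + D) (hp : f p ≤ a + D) (hq : a ≤ f q) :
    ∃ z y1 y2, PW ζ ω (A ∩ {y | f y < a}) p z y1 ∧ PW ζ ω A z q y2 ∧ y1 + y2 = y ∧ a ≤ f z ∧
      f z ≤ a + D ∧ (z = p ∨ z = q ∨ z ∈ A) := by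
  obtain ⟨z, t1, t2, h1, h2, h3, h4⟩ := Wk.first_ge h f hf hp hq
  exact ⟨z, _, _, h1.pw ζ, h2.pw ζ, by linarith, h4⟩

lemma PW.last_le (h : PW ζ ω A p q y) (f : V → ℝ) {D a : ℝ}
    (hf : ∀ y d, f (y + stp d) ≤ f y + D) (hp : f p ≤ a) (hq : a - D ≤ f q) :
    ∃ z y1 y2, PW ζ ω A p z y1 ∧ PW ζ ω (A ∩ {y | a < f y}) z q y2 ∧ y1 + y2 = y ∧ f z ≤ a ∧
      a - D ≤ f z ∧ (z = p ∨ z = q ∨ z ∈ A) := by
  obtain ⟨z, t1, t2, h1, h2, h3, h4⟩ := Wk.last_le h f hf hp hq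
  exact ⟨z, _, _, h1.pw ζ, h2.pw ζ, by linarith, h4⟩

lemma PW.cross (X Y : V →+ ℝ)
    (huv : ∃ u v : Fin 2 → ℝ, ∀ (z : V) (i : Fin 2), (z i : ℝ) = X z * u i + Y z * v i)
    {A1 A2 : Set V} {p1 q1 p2 q2 : V} {y1 y2 : ℝ} (h1 : PW ζ ω A1 p1 q1 y1)
    (h2 : PW ζ ω A2 p2 q2 y2)
    (hX : ∀ z, (z = p2 ∨ z = q2 ∨ z ∈ A2) → X p1 < X z ∧ X z < X q1)
    (hY : ∀ z, (z = p1 ∨ z = q1 ∨ z ∈ A1) → Y p2 < Y z ∧ Y z < Y q2) :
    ∃ z s1 s1' s2 s2', z ∈ A1 ∧ z ∈ A2 ∧ PW ζ ω A1 p1 z s1 ∧ PW ζ ω A1 z q1 s1' ∧ s1 + s1' = y1 ∧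
      PW ζ ω A2 p2 z s2 ∧ PW ζ ω A2 z q2 s2' ∧ s2 + s2' = y2 := by
  obtain ⟨z, s1, s1', s2, s2', a, b, c, d, e, f, g, h⟩ := Wk.cross X Y huv h1 h2 hX hY
  exact ⟨z, _, _, _, _, a, b, c.pw ζ, d.pw ζ, by linarith, f.pw ζ, g.pw ζ, by linarith⟩

/-- minimal price in a class -/
noncomputable def Pi (c : Cl) (ζ : V) (ω : Om) : ℝ := MinP ω c (fun z => T ω z ζ)

lemma Pi_le {c : Cl} (h1 : c.R p q) (h2 : PW ζ ω c.A p q y) : Pi c ζ ω ≤ y := by
  have := MinP_le (c := c) (f := fun z => T ω z ζ) (a := 0)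
    (fun p q t _ h => (h.pw ζ).nonneg) h1 h2
  unfold Pi; linarith

lemma le_Pi {c : Cl} (h : c.NE) {a : ℝ} (ha : ∀ p q y, c.R p q → PW ζ ω c.A p q y → a ≤ y) :
    a ≤ Pi c ζ ω := le_MinP h fun p q _ h1 h2 => ha p q _ h1 (h2.pw ζ)

lemma exists_lt_Pi {c : Cl} (h : c.NE) {a : ℝ} (ha : Pi c ζ ω < a) :
    ∃ p q y, c.R p q ∧ PW ζ ω c.A p q y ∧ y < a := by
  obtain ⟨p, q, t, h1, h2, h3⟩ := exists_lt_MinP h ha
  exact ⟨p, q, _, h1, h2.pw ζ, h3⟩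

lemma Pi_nonneg (c : Cl) (ζ : V) (ω : Om) : 0 ≤ Pi c ζ ω :=
  Real.sInf_nonneg (by rintro y ⟨p, q, t, _, h2, rfl⟩; exact (h2.pw ζ).nonneg)

lemma Pi_meas {c : Cl} (h : c.NE) (ζ : V) : Measurable (Pi c ζ) :=
  MinP_meas c.A (fun _ => c.R) (fun ω z => T ω z ζ) (fun p q => by
    by_cases h : c.R p q <;> simp [h]) (fun z => T_meas z ζ) (fun _ => h)
    (fun ω => ⟨0, fun p q t _ h => (h.pw ζ).nonneg⟩)

/-! ### shifts -/

def sh (z : V) (ω : Om) : Om := fun e => ω (e.1 + z, e.2)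

def Cl.shift (c : Cl) (z : V) : Cl := ⟨{y | y - z ∈ c.A}, fun p q => c.R (p - z) (q - z)⟩

lemma tm_sh (ω : Om) (x z : V) (σ : ℕ → Dir) (a b : ℕ) :
    tm (sh z ω) x σ a b = tm ω (x + z) σ a b := by
  refine sum_congr rfl fun j _ => ?_
  simp only [ed, pos_add, sh]
  split_ifs <;> rfl

lemma T_sh (ω : Om) (x y z : V) : T (sh z ω) x y = T ω (x + z) (y + z) := (T_shift ω x y z).symm

lemma Wk_sh (z : V) : Wk (sh z ω) A p q t ↔ Wk ω {y | y - z ∈ A} (p + z) (q + z) t := by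
  unfold Wk
  simp only [pos_add, tm_sh, Set.mem_ofPred_eq, add_sub_cancel_right, add_left_inj]

lemma Pi_shift (c : Cl) (z ζ : V) (ω : Om) : Pi (c.shift z) ζ ω = Pi c (ζ - z) (sh z ω) := by
  unfold Pi MinP
  congr 1
  ext y
  simp only [Set.mem_ofPred_eq, Wk_sh, T_sh, sub_add_cancel, Cl.shift]
  constructor
  · rintro ⟨p, q, t, h1, h2, h3⟩
    exact ⟨p - z, q - z, t, h1, by simpa using h2, by simpa using h3⟩
  · rintro ⟨p, q, t, h1, h2, h3⟩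
    exact ⟨p + z, q + z, t, by simpa using h1, h2, h3⟩

lemma Cl.NE.shift {c : Cl} (h : c.NE) (z : V) : (c.shift z).NE := by
  obtain ⟨p, q, t, h1, h2⟩ := h
  refine ⟨p + z, q + z, t, by simpa [Cl.shift] using h1, ?_⟩
  exact (Wk_sh (ω := 0) z).1 h2

lemma sh_meas (z : V) : Measurable (sh z) :=
  measurable_pi_lambda _ fun _ => measurable_pi_apply _

lemma sh_mp (ν : Measure ℝ) [IsProbabilityMeasure ν] (z : V) :
    MeasurePreserving (sh z) (PP Ed ν) (PP Ed ν) := by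
  have hinj : Function.Injective (fun e : Ed => ((e.1 + z, e.2) : Ed)) := by
    intro e e' h
    simp only [Prod.mk.injEq, add_left_inj] at h
    exact Prod.ext h.1 h.2
  exact ⟨sh_meas z, Measure.map_infinitePi_infinitePi_of_inj (P := fun _ : Ed => ν) hinj⟩

end Pool.Agent.P.MP_dcd5d0_pr.SC
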